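import Pool.Agent.AFT.WND

/-!
# Groups with a commutative subgroup of finite index are weakly normal groups (helper79)
-/

set_option autoImplicit false

namespace Pool.Agent.AFT

open Set FirstOrder FirstOrder.Language

/-- some finite set has a commutative normal centraliser of finite index -/
theorem exists_centralizer_normal {G : Type} [Group G] (A₀ : Subgroup G) (hi : A₀.FiniteIndex)
    (hc : ∀ x ∈ A₀, ∀ y ∈ A₀, x * y = y * x) :
    ∃ F : Set G, F.Finite ∧ (Subgroup.centralizer F).FiniteIndex ∧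
      (∀ g : G, ∀ x ∈ Subgroup.centralizer F, g * x * g⁻¹ ∈ Subgroup.centralizer F) ∧
      ∀ x ∈ Subgroup.centralizer F, ∀ y ∈ Subgroup.centralizer F, x * y = y * x := by
  obtain ⟨F, hF1, hF2, hF3⟩ := exists_centralizer A₀ hi hc
  let N := Subgroup.centralizer F
  let F' : Set G := {x | ∃ f ∈ F, ∃ g : G, g * f * g⁻¹ = x}
  have hFF : F ⊆ F' := fun f hf => ⟨f, hf, 1, by simp⟩
  have hfin : F'.Finite := by
    have h1 : Finite F := hF1
    have h2 : Finite (G ⧸ N) := Subgroup.finite_quotient_of_finiteIndex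
    refine (Set.finite_range (fun p : F × (G ⧸ N) => p.2.out * (p.1 : G) * p.2.out⁻¹)).subset ?_
    rintro _ ⟨f, hf, g, rfl⟩
    refine ⟨(⟨f, hf⟩, QuotientGroup.mk g), ?_⟩
    have h3 : (QuotientGroup.mk g : G ⧸ N).out⁻¹ * g ∈ N := by
      rw [← QuotientGroup.eq]
      exact Quotient.out_eq _
    have h4 := Subgroup.mem_centralizer_iff.1 h3 f hf
    show (QuotientGroup.mk g : G ⧸ N).out * f * (QuotientGroup.mk g : G ⧸ N).out⁻¹ = g * f * g⁻¹
    set q := (QuotientGroup.mk g : G ⧸ N).out with hq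
    have h5 : q⁻¹ * g * f * g⁻¹ = f * q⁻¹ := by
      rw [← h4]
      group
    rw [mul_assoc q, ← h5]
    group
  refine ⟨F', hfin, ?_, ?_, ?_⟩
  · have h1 : N.normalCore ≤ Subgroup.centralizer F' := by
      intro x hx
      refine Subgroup.mem_centralizer_iff.2 ?_
      rintro _ ⟨f, hf, g, rfl⟩
      have h2 : g⁻¹ * x * g⁻¹⁻¹ ∈ N := hx g⁻¹
      have h3 := Subgroup.mem_centralizer_iff.1 h2 f hf
      calc g * f * g⁻¹ * x = g * (f * (g⁻¹ * x * g⁻¹⁻¹)) * g⁻¹ := by group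
        _ = g * (g⁻¹ * x * g⁻¹⁻¹ * f) * g⁻¹ := by rw [h3]
        _ = x * (g * f * g⁻¹) := by group
    have h2 : N.normalCore.FiniteIndex := Subgroup.finiteIndex_normalCore N
    exact Subgroup.finiteIndex_of_le h1
  · intro g x hx
    refine Subgroup.mem_centralizer_iff.2 ?_
    rintro _ ⟨f, hf, h, rfl⟩
    have h3 := Subgroup.mem_centralizer_iff.1 hx (g⁻¹ * h * f * (g⁻¹ * h)⁻¹) ⟨f, hf, _, rfl⟩
    calc h * f * h⁻¹ * (g * x * g⁻¹) = g * (g⁻¹ * h * f * (g⁻¹ * h)⁻¹ * x) * g⁻¹ := by group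
      _ = g * (x * (g⁻¹ * h * f * (g⁻¹ * h)⁻¹)) * g⁻¹ := by rw [h3]
      _ = g * x * g⁻¹ * (h * f * h⁻¹) := by group
  · intro x hx y hy
    refine hF3 x ?_ y ?_
    · exact Subgroup.mem_centralizer_iff.2 fun f hf => Subgroup.mem_centralizer_iff.1 hx f (hFF hf)
    · exact Subgroup.mem_centralizer_iff.2 fun f hf => Subgroup.mem_centralizer_iff.1 hy f (hFF hf)

section

variable {L : FirstOrder.Language.{0, 0}} {M : Type} [L.Structure M] {A : Set M}

/-- finite unions of definable cosets -/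
theorem isBoolCosetsG_of_union [Group M] {n : ℕ} {D : Set (Fin n → M)} {J : Type} [Finite J]
    (C : J → Set (Fin n → M)) (hC : ∀ j, A.Definable L (C j) ∧
      ∀ x ∈ C j, ∀ y ∈ C j, ∀ z ∈ C j, x * y⁻¹ * z ∈ C j)
    (hD : ∀ x, x ∈ D ↔ ∃ j, x ∈ C j) : IsBoolCosetsG L A D := by
  obtain ⟨m, ⟨u⟩⟩ := Finite.exists_equiv_fin J
  refine ⟨m, fun j => C (u.symm j), fun j => hC (u.symm j), fun x y h => ?_⟩
  have h1 : ∀ j, x ∈ C j ↔ y ∈ C j := by
    intro j
    have h1 : x ∈ C (u.symm (u j)) ↔ y ∈ C (u.symm (u j)) := h (u j)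
    rwa [Equiv.symm_apply_apply] at h1
  rw [hD, hD]
  exact ⟨fun ⟨j, hj⟩ => ⟨j, (h1 j).1 hj⟩, fun ⟨j, hj⟩ => ⟨j, (h1 j).2 hj⟩⟩

/-- In a group with a commutative subgroup of finite index, the graphs of the multiplication and of the
inverse are Boolean combinations of cosets. -/
theorem bcG_abf [Group M] (hA : A.Finite)
    (hmul : A.Definable L {v : Fin 3 → M | v 0 * v 1 = v 2}) (A₀ : Subgroup M)
    (hi : A₀.FiniteIndex) (hc : ∀ x ∈ A₀, ∀ y ∈ A₀, x * y = y * x) :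
    ∃ A' : Set M, A'.Finite ∧ A ⊆ A' ∧
      IsBoolCosetsG L A' {v : Fin 3 → M | v 0 * v 1 = v 2} ∧
      IsBoolCosetsG L A' {v : Fin 2 → M | (v 0)⁻¹ = v 1} ∧
      IsBoolCosetsG L A' {v : Fin 1 → M | 1 = v 0} := by
  obtain ⟨F, hF1, hF2, hF4, hF3⟩ := exists_centralizer_normal A₀ hi hc
  let N := Subgroup.centralizer F
  have hfq : Finite (M ⧸ N) := Subgroup.finite_quotient_of_finiteIndex
  let K : Set M := Set.range (fun q : M ⧸ N => q.out⁻¹)
  let A' : Set M := insert 1 ((A ∪ F) ∪ K)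
  have hA' : A'.Finite := ((hA.union hF1).union (Set.finite_range _)).insert 1
  have hAA' : A ⊆ A' := fun a ha => Or.inr (Or.inl (Or.inl ha))
  have hFA' : F ⊆ A' := fun a ha => Or.inr (Or.inl (Or.inr ha))
  have hinv : ∀ q : M ⧸ N, q.out⁻¹ ∈ A' := fun q => Or.inr (Or.inr ⟨q, rfl⟩)
  have hone : (1 : M) ∈ A' := Or.inl rfl
  have hmul' := hmul.mono hAA'
  have hN' : A'.Definable₁ L (N : Set M) := definable_centralizer hmul' hF1 hFA'
  have hcon : ∀ {α : Type} (a : M), a ∈ A' → A'.DefinableFun L (fun _ : α → M => a) :=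
    fun {α} a ha => L.definableFun_const α ha
  have hmk : ∀ {α : Type} (l : α) (q : M ⧸ N),
      A'.Definable L {v : α → M | (QuotientGroup.mk (v l) : M ⧸ N) = q} := by
    intro α l q
    have h1 : A'.Definable L {v : α → M | q.out⁻¹ * v l ∈ (N : Set M)} :=
      definable_mem hN' (definableFun_mul hmul' (hcon _ (hinv q)) (DefinableFun.proj L))
    convert h1 using 1
    ext v
    show (QuotientGroup.mk (v l) : M ⧸ N) = q ↔ q.out⁻¹ * v l ∈ N
    rw [← QuotientGroup.eq, eq_comm]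
    have h2 : (QuotientGroup.mk q.out : M ⧸ N) = q := Quotient.out_eq q
    rw [h2]
  -- cosets
  have hq : ∀ {x y z : M} {q : M ⧸ N}, (QuotientGroup.mk x : M ⧸ N) = q →
      (QuotientGroup.mk y : M ⧸ N) = q → (QuotientGroup.mk z : M ⧸ N) = q →
      (QuotientGroup.mk (x * y⁻¹ * z) : M ⧸ N) = q := by
    intro x y z q hx hy hz
    rw [mul_assoc, QuotientGroup.mk_mul_of_mem]
    · exact hx
    · exact QuotientGroup.eq.1 (hy.trans hz.symm)
  have hd : ∀ {x y : M} {q : M ⧸ N}, (QuotientGroup.mk x : M ⧸ N) = q →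
      (QuotientGroup.mk y : M ⧸ N) = q → ∃ n ∈ N, y = x * n := by
    intro x y q hx hy
    exact ⟨x⁻¹ * y, QuotientGroup.eq.1 (hx.trans hy.symm), by rw [mul_inv_cancel_left]⟩
  refine ⟨A', hA', hAA', ?_, ?_, ?_⟩
  · refine isBoolCosetsG_of_union (J := (M ⧸ N) × (M ⧸ N)) (fun p =>
      ({v : Fin 3 → M | (QuotientGroup.mk (v 0) : M ⧸ N) = p.1} ∩
        {v : Fin 3 → M | (QuotientGroup.mk (v 1) : M ⧸ N) = p.2}) ∩
        {v : Fin 3 → M | v 0 * v 1 = v 2}) (fun p => ⟨((hmk 0 p.1).inter (hmk 1 p.2)).inter hmul',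
          ?_⟩) fun x => ⟨fun h => ⟨(QuotientGroup.mk (x 0), QuotientGroup.mk (x 1)), ⟨rfl, rfl⟩, h⟩,
            fun ⟨_, h⟩ => h.2⟩
    rintro x ⟨⟨hx0, hx1⟩, hx⟩ y ⟨⟨hy0, hy1⟩, hy⟩ z ⟨⟨hz0, hz1⟩, hz⟩
    refine ⟨⟨hq hx0 hy0 hz0, hq hx1 hy1 hz1⟩, ?_⟩
    have hx' : x 0 * x 1 = x 2 := hx
    have hy' : y 0 * y 1 = y 2 := hy
    have hz' : z 0 * z 1 = z 2 := hz
    show (x 0 * (y 0)⁻¹ * z 0) * (x 1 * (y 1)⁻¹ * z 1) = x 2 * (y 2)⁻¹ * z 2
    rw [← hx', ← hy', ← hz']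
    -- z 0 = y 0 * n and x 1 = y 1 * k
    obtain ⟨n, hn, hn'⟩ := hd hy0 hz0
    obtain ⟨k, hk, hk'⟩ := hd hy1 hx1
    have h1 : y 1 * k * (y 1)⁻¹ ∈ N := hF4 _ _ hk
    have h2 := hF3 n hn _ h1
    rw [hn', hk']
    calc x 0 * (y 0)⁻¹ * (y 0 * n) * (y 1 * k * (y 1)⁻¹ * z 1) =
        x 0 * (n * (y 1 * k * (y 1)⁻¹)) * z 1 := by group
      _ = x 0 * (y 1 * k * (y 1)⁻¹ * n) * z 1 := by rw [h2]
      _ = x 0 * (y 1 * k) * (y 0 * y 1)⁻¹ * (y 0 * n * z 1) := by group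
  · refine isBoolCosetsG_of_union (J := M ⧸ N) (fun p =>
      {v : Fin 2 → M | (QuotientGroup.mk (v 0) : M ⧸ N) = p} ∩
        {v : Fin 2 → M | v 0 * v 1 = 1}) (fun p => ⟨(hmk 0 p).inter ?_, ?_⟩)
        fun x => ⟨fun h => ⟨QuotientGroup.mk (x 0), rfl, ?_⟩, fun ⟨_, h⟩ => ?_⟩
    · exact DefinableFun.ofPred_eq (definableFun_mul hmul' (DefinableFun.proj L)
        (DefinableFun.proj L)) (hcon _ hone)
    · rintro x ⟨hx0, hx⟩ y ⟨hy0, hy⟩ z ⟨hz0, hz⟩
      refine ⟨hq hx0 hy0 hz0, ?_⟩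
      have hx' : x 0 * x 1 = 1 := hx
      have hy' : y 0 * y 1 = 1 := hy
      have hz' : z 0 * z 1 = 1 := hz
      show (x 0 * (y 0)⁻¹ * z 0) * (x 1 * (y 1)⁻¹ * z 1) = 1
      rw [eq_inv_of_mul_eq_one_right hx', eq_inv_of_mul_eq_one_right hy',
        eq_inv_of_mul_eq_one_right hz']
      obtain ⟨n, hn, hn'⟩ := hd hy0 hz0
      obtain ⟨k, hk, hk'⟩ := hd hy0 hx0
      have h2 := hF3 n hn _ (N.inv_mem hk)
      rw [hn', hk']
      calc y 0 * k * (y 0)⁻¹ * (y 0 * n) * ((y 0 * k)⁻¹ * (y 0)⁻¹⁻¹ * (y 0 * n)⁻¹) =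
          y 0 * k * (n * k⁻¹) * n⁻¹ * (y 0)⁻¹ := by group
        _ = y 0 * k * (k⁻¹ * n) * n⁻¹ * (y 0)⁻¹ := by rw [h2]
        _ = 1 := by group
    · have h' : (x 0)⁻¹ = x 1 := h
      show x 0 * x 1 = 1
      rw [← h', mul_inv_cancel]
    · have h' : x 0 * x 1 = 1 := h.2
      show (x 0)⁻¹ = x 1
      exact (eq_inv_of_mul_eq_one_right h').symm
  · refine isBoolCosetsG_of_union (J := Unit) (fun _ => {v : Fin 1 → M | 1 = v 0})
      (fun _ => ⟨DefinableFun.ofPred_eq (hcon _ hone) (DefinableFun.proj L), ?_⟩)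
      fun x => ⟨fun h => ⟨(), h⟩, fun ⟨_, h⟩ => h⟩
    intro x hx y hy z hz
    have hx' : 1 = x 0 := hx
    have hy' : 1 = y 0 := hy
    have hz' : 1 = z 0 := hz
    show 1 = x 0 * (y 0)⁻¹ * z 0
    rw [← hx', ← hy', ← hz']
    group

end

/-- function symbols of the language of groups -/
inductive GpFn : ℕ → Type
  | one : GpFn 0
  | inv : GpFn 1
  | mul : GpFn 2

/-- the language of groups -/
def LGp : FirstOrder.Language.{0, 0} := ⟨GpFn, fun _ => Empty⟩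

/-- the structure of a group -/
@[instance_reducible]
def gpStr (M : Type) [Group M] : LGp.Structure M where
  funMap := fun {_} f => match f with
    | GpFn.one => fun _ => 1
    | GpFn.inv => fun x => (x 0)⁻¹
    | GpFn.mul => fun x => x 0 * x 1
  RelMap := fun {_} r _ => (r : Empty).elim

/-- **All groups with a commutative subgroup of finite index are weakly normal groups.** -/
theorem isWN_abf (M : Type) [Group M] (A₀ : Subgroup M)
    (hi : A₀.FiniteIndex) (hc : ∀ x ∈ A₀, ∀ y ∈ A₀, x * y = y * x) :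
    @IsWN LGp M (gpStr M) := by
  let _ : LGp.Structure M := gpStr M
  have hgr : ∀ {n : ℕ} (F : LGp.Functions n),
      (∅ : Set M).Definable LGp
        {x : Fin (n + 1) → M | Structure.funMap F (Fin.init x) = x (Fin.last n)} := by
    intro n F
    refine Set.empty_definable_iff.2
      ⟨(Term.func F fun i => Term.var i.castSucc).equal (Term.var (Fin.last n)), ?_⟩
    ext x
    exact (Formula.realize_equal
      (t₁ := Term.func F fun i => Term.var i.castSucc) (t₂ := Term.var (Fin.last n))).symm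
  have hmul : (∅ : Set M).Definable LGp {v : Fin 3 → M | v 0 * v 1 = v 2} :=
    hgr (GpFn.mul : LGp.Functions 2)
  obtain ⟨A', hA', -, h1, h2, h3⟩ := bcG_abf Set.finite_empty hmul A₀ hi hc
  refine ⟨A', inferInstance, hA', h1, fun n R => (R : Empty).elim, fun n F => ?_⟩
  cases F with
  | one => exact h3
  | inv => exact h2
  | mul => exact h1

end Pool.Agent.AFT
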