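import Pool.Agent.AFT.FO
import Mathlib.LinearAlgebra.Finsupp.LinearCombination

/-!
# First-order families of relations on structures with an addition (helper31)

`add` is a formula in three variables. `IsGF add F`: the family `F` of relations on structures which are
abelian groups in which `add` defines the addition is given by one formula.
-/

set_option autoImplicit false
set_option linter.unusedSectionVars false
set_option linter.unusedVariables false

namespace Pool.Agent.AFT

open Set FirstOrder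

/-- the formula `add` defines the addition of the abelian group `M` -/
def IsAdd {L : FirstOrder.Language.{0, 0}} (add : L.Formula (Fin 3)) (M : Type) [L.Structure M]
    [AddCommGroup M] : Prop :=
  ∀ v : Fin 3 → M, add.Realize v ↔ v 0 + v 1 = v 2

/-- families of relations on all structures which are abelian groups -/
abbrev GFam (L : FirstOrder.Language.{0, 0}) (α : Type) : Type 1 :=
  ∀ (M : Type) [L.Structure M] [AddCommGroup M], (α → M) → Prop

/-- the family is given by one formula -/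
def IsGF {L : FirstOrder.Language.{0, 0}} (add : L.Formula (Fin 3)) {α : Type} (F : GFam L α) : Prop :=
  ∃ φ : L.Formula α, ∀ (M : Type) [L.Structure M] [AddCommGroup M], IsAdd add M → ∀ x : α → M,
    F M x ↔ φ.Realize x

section

variable {L : FirstOrder.Language.{0, 0}} {add : L.Formula (Fin 3)} {α β γ : Type}

theorem IsGF.congr {F G : GFam L α} (hF : IsGF add F)
    (h : ∀ (M : Type) [L.Structure M] [AddCommGroup M], IsAdd add M → ∀ x : α → M,
      F M x ↔ G M x) : IsGF add G := by
  obtain ⟨φ, hφ⟩ := hF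
  exact ⟨φ, fun M _ _ hM x => (h M hM x).symm.trans (hφ M hM x)⟩

theorem IsFO.gf {F : Fam L α} (hF : IsFO F) : IsGF add (fun M _ _ x => F M x) := by
  obtain ⟨φ, hφ⟩ := hF
  exact ⟨φ, fun M _ _ _ x => hφ M x⟩

theorem isGF_formula (φ : L.Formula α) : IsGF add (fun M _ _ x => φ.Realize x) :=
  (isFO_formula φ).gf

theorem IsGF.and {F G : GFam L α} (hF : IsGF add F) (hG : IsGF add G) :
    IsGF add (fun M _ _ x => F M x ∧ G M x) := by
  obtain ⟨φ, hφ⟩ := hF
  obtain ⟨ψ, hψ⟩ := hG
  refine ⟨φ ⊓ ψ, fun M _ _ hM x => ?_⟩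
  rw [FirstOrder.Language.Formula.realize_inf, ← hφ M hM, ← hψ M hM]

theorem IsGF.not {F : GFam L α} (hF : IsGF add F) : IsGF add (fun M _ _ x => ¬ F M x) := by
  obtain ⟨φ, hφ⟩ := hF
  refine ⟨φ.not, fun M _ _ hM x => ?_⟩
  rw [FirstOrder.Language.Formula.realize_not, ← hφ M hM]

theorem IsGF.or {F G : GFam L α} (hF : IsGF add F) (hG : IsGF add G) :
    IsGF add (fun M _ _ x => F M x ∨ G M x) :=
  ((hF.not.and hG.not).not).congr fun M _ _ _ x => by tauto

theorem IsGF.imp {F G : GFam L α} (hF : IsGF add F) (hG : IsGF add G) :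
    IsGF add (fun M _ _ x => F M x → G M x) :=
  ((hF.and hG.not).not).congr fun M _ _ _ x => by tauto

theorem IsGF.iff {F G : GFam L α} (hF : IsGF add F) (hG : IsGF add G) :
    IsGF add (fun M _ _ x => F M x ↔ G M x) :=
  ((hF.imp hG).and (hG.imp hF)).congr fun M _ _ _ x => by tauto

theorem isGF_const (p : Prop) : IsGF add (α := α) (fun _ _ _ _ => p) := (isFO_const p).gf

theorem IsGF.all_fin [Finite β] {F : β → GFam L α} (hF : ∀ b, IsGF add (F b)) :
    IsGF add (fun M _ _ x => ∀ b, F b M x) := by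
  choose φ hφ using hF
  refine ⟨FirstOrder.Language.Formula.iInf φ, fun M _ _ hM x => ?_⟩
  rw [FirstOrder.Language.Formula.realize_iInf]
  exact forall_congr' fun b => hφ b M hM x

theorem IsGF.ex_fin [Finite β] {F : β → GFam L α} (hF : ∀ b, IsGF add (F b)) :
    IsGF add (fun M _ _ x => ∃ b, F b M x) :=
  ((IsGF.all_fin fun b => (hF b).not).not).congr fun M _ _ _ x => by simp

theorem IsGF.all_mem {ι : Type} (s : Finset ι) {F : ι → GFam L α} (hF : ∀ i ∈ s, IsGF add (F i)) :
    IsGF add (fun M _ _ x => ∀ i ∈ s, F i M x) :=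
  (IsGF.all_fin (β := s) (F := fun i M _ _ x => F i M x) fun i => hF i i.2).congr fun M _ _ _ x =>
    ⟨fun h i hi => h ⟨i, hi⟩, fun h i => h i i.2⟩

theorem IsGF.all_list {ι : Type} (s : List ι) {F : ι → GFam L α} (hF : ∀ i ∈ s, IsGF add (F i)) :
    IsGF add (fun M _ _ x => ∀ i ∈ s, F i M x) := by
  induction s with
  | nil => exact (isGF_const True).congr fun M _ _ _ x => by simp
  | cons a s ih =>
    exact ((hF a List.mem_cons_self).and (ih fun i hi => hF i (List.mem_cons_of_mem a hi))).congr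
      fun M _ _ _ x => by simp

/-- renaming of the variables -/
theorem IsGF.comap {F : GFam L α} (hF : IsGF add F) (f : α → β) :
    IsGF add (fun M _ _ (x : β → M) => F M (x ∘ f)) := by
  obtain ⟨φ, hφ⟩ := hF
  refine ⟨φ.relabel f, fun M _ _ hM x => ?_⟩
  rw [FirstOrder.Language.Formula.realize_relabel]
  exact hφ M hM _

/-- existential quantification over a finite tuple -/
theorem IsGF.ex [Finite β] {F : GFam L (α ⊕ β)} (hF : IsGF add F) :
    IsGF add (fun M _ _ (x : α → M) => ∃ y : β → M, F M (Sum.elim x y)) := by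
  obtain ⟨φ, hφ⟩ := hF
  refine ⟨φ.iExs β, fun M _ _ hM x => ?_⟩
  rw [FirstOrder.Language.Formula.realize_iExs]
  exact exists_congr fun y => hφ M hM _

/-- universal quantification over a finite tuple -/
theorem IsGF.all [Finite β] {F : GFam L (α ⊕ β)} (hF : IsGF add F) :
    IsGF add (fun M _ _ (x : α → M) => ∀ y : β → M, F M (Sum.elim x y)) :=
  (hF.not.ex.not).congr fun M _ _ _ x => by simp

theorem IsGF.ex' [Finite β]
    (F : ∀ (M : Type) [L.Structure M] [AddCommGroup M], (α → M) → (β → M) → Prop)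
    (hF : IsGF add (fun M _ _ (z : α ⊕ β → M) => F M (z ∘ Sum.inl) (z ∘ Sum.inr))) :
    IsGF add (fun M _ _ (x : α → M) => ∃ y : β → M, F M x y) :=
  hF.ex

theorem IsGF.all' [Finite β]
    (F : ∀ (M : Type) [L.Structure M] [AddCommGroup M], (α → M) → (β → M) → Prop)
    (hF : IsGF add (fun M _ _ (z : α ⊕ β → M) => F M (z ∘ Sum.inl) (z ∘ Sum.inr))) :
    IsGF add (fun M _ _ (x : α → M) => ∀ y : β → M, F M x y) :=
  hF.all

/-- one existential quantifier -/
theorem IsGF.ex1 (F : ∀ (M : Type) [L.Structure M] [AddCommGroup M], (α → M) → M → Prop)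
    (hF : IsGF add (fun M _ _ (z : α ⊕ Unit → M) => F M (z ∘ Sum.inl) (z (Sum.inr ())))) :
    IsGF add (fun M _ _ (x : α → M) => ∃ y : M, F M x y) :=
  (IsGF.ex' (β := Unit) (fun M _ _ x y => F M x (y ())) hF).congr fun M _ _ _ x =>
    ⟨fun ⟨y, hy⟩ => ⟨y (), hy⟩, fun ⟨y, hy⟩ => ⟨fun _ => y, hy⟩⟩

/-- one universal quantifier -/
theorem IsGF.all1 (F : ∀ (M : Type) [L.Structure M] [AddCommGroup M], (α → M) → M → Prop)
    (hF : IsGF add (fun M _ _ (z : α ⊕ Unit → M) => F M (z ∘ Sum.inl) (z (Sum.inr ())))) :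
    IsGF add (fun M _ _ (x : α → M) => ∀ y : M, F M x y) :=
  (IsGF.all' (β := Unit) (fun M _ _ x y => F M x (y ())) hF).congr fun M _ _ _ x =>
    ⟨fun h y => h fun _ => y, fun h y => h _⟩

/-- the addition -/
theorem isGF_add (i j k : α) : IsGF add (fun M _ _ x => x i + x j = x k) :=
  (((isFO_formula add).comap ![i, j, k]).gf (add := add)).congr fun M _ _ hM x => by
    rw [hM]
    exact Iff.rfl

theorem isGF_eq_var (i j : α) : IsGF add (fun M _ _ x => x i = x j) := (isFO_eq_var i j).gf

theorem isGF_zero (i : α) : IsGF add (fun M _ _ x => x i = 0) :=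
  (isGF_add (add := add) i i i).congr fun M _ _ _ x => by simp

/-- functions with a first-order graph -/
def IsGT {L : FirstOrder.Language.{0, 0}} (add : L.Formula (Fin 3)) {α : Type}
    (f : ∀ (M : Type) [AddCommGroup M], (α → M) → M) : Prop :=
  IsGF add (fun M _ _ (z : α ⊕ Unit → M) => z (Sum.inr ()) = f M (z ∘ Sum.inl))

theorem IsGT.at {f : ∀ (M : Type) [AddCommGroup M], (α → M) → M} (hf : IsGT add f) (e : α → β)
    (j : β) : IsGF add (fun M _ _ (x : β → M) => x j = f M (x ∘ e)) :=
  hf.comap (Sum.elim e fun _ => j)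

theorem IsGT.congr {f g : ∀ (M : Type) [AddCommGroup M], (α → M) → M} (hf : IsGT add f)
    (h : ∀ (M : Type) [AddCommGroup M] (x : α → M), f M x = g M x) : IsGT add g :=
  IsGF.congr hf fun M _ _ _ z => by rw [h]

theorem IsGT.addf {f g : ∀ (M : Type) [AddCommGroup M], (α → M) → M} (hf : IsGT add f)
    (hg : IsGT add g) : IsGT add (fun M _ x => f M x + g M x) := by
  refine (IsGF.ex' (β := Fin 2) (fun M _ _ (x : α ⊕ Unit → M) y => y 0 = f M (x ∘ Sum.inl) ∧
    y 1 = g M (x ∘ Sum.inl) ∧ y 0 + y 1 = x (Sum.inr ()))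
    ((hf.at (Sum.inl ∘ Sum.inl) (Sum.inr 0)).and ((hg.at (Sum.inl ∘ Sum.inl) (Sum.inr 1)).and
      (isGF_add (Sum.inr 0) (Sum.inr 1) (Sum.inl (Sum.inr ())))))).congr fun M _ _ _ z => ?_
  constructor
  · rintro ⟨y, h0, h1, h⟩
    rw [← h, h0, h1]
  · intro h
    exact ⟨![f M (z ∘ Sum.inl), g M (z ∘ Sum.inl)], rfl, rfl, h.symm⟩

theorem isGT_zero : IsGT add (α := α) (fun M _ x => 0) := isGF_zero (Sum.inr ())

theorem isGT_var (i : α) : IsGT add (fun M _ x => x i) := isGF_eq_var (Sum.inr ()) (Sum.inl i)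

theorem IsGT.neg {f : ∀ (M : Type) [AddCommGroup M], (α → M) → M} (hf : IsGT add f) :
    IsGT add (fun M _ x => - f M x) := by
  refine (IsGF.ex' (β := Fin 2) (fun M _ _ (x : α ⊕ Unit → M) y => y 0 = f M (x ∘ Sum.inl) ∧
    y 1 = 0 ∧ y 0 + x (Sum.inr ()) = y 1)
    ((hf.at (Sum.inl ∘ Sum.inl) (Sum.inr 0)).and ((isGF_zero (Sum.inr 1)).and
      (isGF_add (Sum.inr 0) (Sum.inl (Sum.inr ())) (Sum.inr 1))))).congr fun M _ _ _ z => ?_
  constructor
  · rintro ⟨y, h0, h1, h⟩
    rw [h1, h0] at h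
    exact eq_neg_of_add_eq_zero_right h
  · intro h
    refine ⟨![f M (z ∘ Sum.inl), 0], rfl, rfl, ?_⟩
    show f M (z ∘ Sum.inl) + z (Sum.inr ()) = 0
    rw [h, add_neg_cancel]

theorem IsGT.zsmul {f : ∀ (M : Type) [AddCommGroup M], (α → M) → M} (hf : IsGT add f) (n : ℤ) :
    IsGT add (fun M _ x => n • f M x) := by
  have hnat : ∀ n : ℕ, IsGT add (fun M _ x => (n : ℤ) • f M x) := by
    intro n
    induction n with
    | zero => exact isGT_zero.congr fun M _ x => by simp
    | succ n ih =>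
      refine (ih.addf hf).congr fun M _ x => ?_
      push_cast
      rw [add_smul, one_smul]
  obtain ⟨m, rfl | rfl⟩ := n.eq_nat_or_neg
  · exact hnat m
  · exact ((hnat m).neg).congr fun M _ x => by rw [neg_smul]

theorem isGT_lin (c : α →₀ ℤ) : IsGT add (fun M _ x => Finsupp.linearCombination ℤ x c) := by
  induction c using Finsupp.induction_linear with
  | zero => exact isGT_zero.congr fun M _ x => by simp
  | add c d hc hd => exact (hc.addf hd).congr fun M _ x => by rw [map_add]
  | single i n =>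
    refine ((isGT_var i).zsmul n).congr fun M _ x => ?_
    rw [Finsupp.linearCombination_single]

/-- substitution -/
theorem IsGF.subst [Finite γ] {F : GFam L γ} (hF : IsGF add F)
    {f : γ → ∀ (M : Type) [AddCommGroup M], (α → M) → M} (hf : ∀ k, IsGT add (f k)) :
    IsGF add (fun M _ _ x => F M fun k => f k M x) := by
  refine (IsGF.ex' (β := γ) (fun M _ _ (x : α → M) y => (∀ k, y k = f k M x) ∧ F M y)
    ((IsGF.all_fin fun k => (hf k).at Sum.inl (Sum.inr k)).and (hF.comap Sum.inr))).congr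
    fun M _ _ _ x => ?_
  constructor
  · rintro ⟨y, h0, h⟩
    have h1 : y = fun k => f k M x := funext h0
    rwa [h1] at h
  · intro h
    exact ⟨_, fun k => rfl, h⟩

theorem isGF_subst_lin [Finite γ] {F : GFam L γ} (hF : IsGF add F) (t : γ → (α →₀ ℤ)) :
    IsGF add (fun M _ _ x => F M fun k => Finsupp.linearCombination ℤ x (t k)) :=
  hF.subst fun k => isGT_lin (t k)

theorem isGF_lin_eq_zero (c : α →₀ ℤ) :
    IsGF add (fun M _ _ x => Finsupp.linearCombination ℤ x c = 0) :=
  IsGF.subst (γ := Unit) (F := fun M _ _ x => x () = 0) (isGF_zero ()) (fun _ => isGT_lin c)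

/-! ### Transfer -/

/-- a statement about all tuples transfers -/
theorem IsGF.transfer_all [Finite α] {F : GFam L α} (hF : IsGF add F) {M N : Type}
    [L.Structure M] [L.Structure N] [AddCommGroup M] [AddCommGroup N] (hMa : IsAdd add M)
    (hNa : IsAdd add N) (h : L.ElementarilyEquivalent M N) (hM : ∀ x : α → M, F M x) :
    ∀ y : α → N, F N y := by
  obtain ⟨φ, hφ⟩ := hF
  intro y
  rw [hφ N hNa]
  exact (isFO_formula φ).transfer_all h (fun x => (hφ M hMa x).1 (hM x)) y

/-- a statement about the existence of a tuple transfers -/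
theorem IsGF.transfer_ex [Finite α] {F : GFam L α} (hF : IsGF add F) {M N : Type}
    [L.Structure M] [L.Structure N] [AddCommGroup M] [AddCommGroup N] (hMa : IsAdd add M)
    (hNa : IsAdd add N) (h : L.ElementarilyEquivalent M N) (hM : ∃ x : α → M, F M x) :
    ∃ y : α → N, F N y := by
  obtain ⟨φ, hφ⟩ := hF
  obtain ⟨x, hx⟩ := hM
  obtain ⟨y, hy⟩ := (isFO_formula φ).transfer_ex h ⟨x, (hφ M hMa x).1 hx⟩
  exact ⟨y, (hφ N hNa y).2 hy⟩

theorem IsGF.transfer {F : GFam L Empty} (hF : IsGF add F) {M N : Type}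
    [L.Structure M] [L.Structure N] [AddCommGroup M] [AddCommGroup N] (hMa : IsAdd add M)
    (hNa : IsAdd add N) (h : L.ElementarilyEquivalent M N) (x : Empty → M) (y : Empty → N) :
    F M x ↔ F N y := by
  obtain ⟨φ, hφ⟩ := hF
  rw [hφ M hMa, hφ N hNa]
  exact (isFO_formula φ).transfer h x y

/-- maps which preserve the formula `add` preserve the addition -/
theorem IsAdd.map_add {M N : Type} [L.Structure M] [L.Structure N] [AddCommGroup M]
    [AddCommGroup N] (hMa : IsAdd add M) (hNa : IsAdd add N) (f : M → N)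
    (hf : ∀ x : Fin 3 → M, add.Realize x → add.Realize (f ∘ x)) (x y : M) :
    f (x + y) = f x + f y := by
  have h := (hNa _).1 (hf ![x, y, x + y] ((hMa _).2 rfl))
  exact h.symm

end

end Pool.Agent.AFT
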