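import Pool.Agent.WOM.DEFF
import Pool.Agent.WOM.DEF1
import Pool.Agent.WOM.ULT
import Pool.Agent.WOM.SUBM
import Pool.Agent.WOM.HOMG
import Pool.Agent.WOM.MEAS
import Pool.Agent.WOM.REAL
import Pool.Agent.WOM.INC
import Pool.Agent.WOM.NSM
import Pool.Agent.WOM.EMB
import Pool.Agent.WOM.TOP

/-!
# From all theories to the complete theory of a countable saturated structure (helper31)
-/

set_option autoImplicit false
set_option linter.unusedSectionVars false
set_option linter.unusedVariables false

namespace Pool.Agent.AFT

open Set FirstOrder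
open Pool.Agent.WOM (Mon IsEl CtT PerfT ThS Small)

/-- It is enough to prove the dichotomy for the complete theories of countable saturated structures. -/
theorem top_reduce (L : FirstOrder.Language.{0, 0}) (hL : Countable L.Symbols) (T : L.Theory)
    (h : ∀ (U : Type) [L.Structure U], Mon L U → U ⊨ T → ¬ PerfT L (L.completeTheory U) →
      CtT L (L.completeTheory U)) : CtT L T ∨ PerfT L T := by
  have hDEF1 := Pool.Agent.WOM.thm_DEF1 Pool.Agent.WOM.thm_DEFF
  have hREAL := Pool.Agent.WOM.thm_REAL Pool.Agent.WOM.thm_MEAS
  refine Pool.Agent.WOM.thm_INC Pool.Agent.WOM.thm_MEAS hREAL L hL T fun S hS => ?_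
  by_cases hp : PerfT L (ThS L S)
  · exact Or.inr hp
  left
  have hsm : Small L (ThS L S) := by
    by_contra h
    exact hp (Pool.Agent.WOM.thm_NSM Pool.Agent.WOM.thm_MEAS hREAL L hL _ h)
  obtain ⟨V, _, _, hV, hsV⟩ := Pool.Agent.WOM.thm_ULT hDEF1 L hL S
  obtain ⟨U, _, hc, hi, hU, hsU⟩ := Pool.Agent.WOM.thm_SUBM hDEF1 L hL S hsm V hV hsV
  have hM : Mon L U := Pool.Agent.WOM.thm_HOMG hDEF1 L U hc hi hsU
  have hUT := Pool.Agent.WOM.TOP_mono L T S hS U hU
  have e : ThS L S = L.completeTheory U := by
    let _ := S
    ext φ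
    constructor
    · intro h
      exact hU.realize_of_mem φ h
    · intro h
      by_contra hn
      have h2 : (FirstOrder.Language.Formula.not φ) ∈ ThS L S := by
        show @FirstOrder.Language.Sentence.Realize L ℕ S (FirstOrder.Language.Formula.not φ)
        exact (FirstOrder.Language.Sentence.realize_not (M := ℕ)).2 hn
      have h3 := hU.realize_of_mem _ h2
      exact (FirstOrder.Language.Sentence.realize_not (M := U)).1 h3 h
  rw [e] at hp ⊢
  exact h U hM hUT hp

section

variable {L : FirstOrder.Language.{0, 0}}

/-- models of the complete theory are elementarily equivalent -/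
theorem elemEquiv_of_model {U M : Type} [L.Structure U] [L.Structure M]
    (h : M ⊨ L.completeTheory U) : L.ElementarilyEquivalent M U := by
  have h1 : L.completeTheory M = L.completeTheory U := by
    ext φ
    constructor
    · intro h1
      by_contra hn
      have h2 : (FirstOrder.Language.Formula.not φ) ∈ L.completeTheory U := by
        show U ⊨ (FirstOrder.Language.Formula.not φ)
        exact (FirstOrder.Language.Sentence.realize_not (M := U)).2 hn
      have h3 := h.realize_of_mem _ h2
      exact (FirstOrder.Language.Sentence.realize_not (M := M)).1 h3 h1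
    · intro h1
      exact h.realize_of_mem φ h1
  exact h1

/-- elementarily equivalent structures are models of the complete theory -/
theorem model_of_elemEquiv {U M : Type} [L.Structure U] [L.Structure M]
    (h : L.ElementarilyEquivalent M U) : M ⊨ L.completeTheory U := by
  refine ⟨fun φ hφ => ?_⟩
  exact (h.realize_sentence φ).2 hφ

theorem infinite_of_model {U M : Type} [L.Structure U] [L.Structure M] (hU : Infinite U)
    (h : M ⊨ L.completeTheory U) : Infinite M :=
  (elemEquiv_of_model h).infinite_iff.2 hU

/-- countable models of the complete theory of the saturated structure `U` have elementary embeddings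
into `U` -/
theorem exists_emb (U : Type) [L.Structure U] (hM : Mon L U) (M : Type) [L.Structure M]
    (hc : Countable M) (hU : M ⊨ L.completeTheory U) : ∃ f : M → U, Function.Injective f ∧
      IsEl L (range f) ∧ ∀ (α : Type) [Finite α] (φ : L.Formula α) (a : α → M),
        φ.Realize a ↔ φ.Realize (f ∘ a) := by
  have hi : Infinite M := infinite_of_model hM.inf hU
  obtain ⟨e⟩ : Nonempty (M ≃ ℕ) := nonempty_equiv_of_countable
  let S : L.Structure ℕ := e.inducedStructure
  let E : L.Equiv M ℕ := e.inducedStructureEquiv
  have hUS : U ⊨ ThS L S := by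
    have h1 : L.ElementarilyEquivalent M ℕ :=
      FirstOrder.Language.StrongHomClass.elementarilyEquivalent E
    have h2 : L.ElementarilyEquivalent U ℕ := (elemEquiv_of_model hU).symm.trans h1
    exact model_of_elemEquiv h2
  obtain ⟨f, hf, hf2, hf3⟩ := Pool.Agent.WOM.thm_EMB
    (Pool.Agent.WOM.thm_DEF1 Pool.Agent.WOM.thm_DEFF) L U hM S hUS
  have hfin : ∀ (n : ℕ) (φ : L.Formula (Fin n)) (a : Fin n → M),
      φ.Realize a ↔ φ.Realize ((fun x => f (e x)) ∘ a) := by
    intro n φ a
    have h1 : φ.Realize (E ∘ a) ↔ φ.Realize a :=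
      FirstOrder.Language.StrongHomClass.realize_formula E φ
    have h2 := hf2 n (E ∘ a)
    have h3 : φ ∈ @Pool.Agent.WOM.tp L ℕ S n (E ∘ a) ↔
        φ ∈ @Pool.Agent.WOM.tp L U _ n (f ∘ (E ∘ a)) := by rw [h2]
    exact h1.symm.trans h3
  refine ⟨fun x => f (e x), hf.comp e.injective, ?_, ?_⟩
  · have h4 : range (fun x => f (e x)) = range f := by
      rw [show (fun x => f (e x)) = f ∘ e from rfl, range_comp, e.surjective.range_eq, image_univ]
    rw [h4]
    exact hf3
  · intro α _ φ a
    obtain ⟨n, ⟨g⟩⟩ := Finite.exists_equiv_fin α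
    have h1 := hfin n (φ.relabel g) (a ∘ g.symm)
    rw [FirstOrder.Language.Formula.realize_relabel, FirstOrder.Language.Formula.realize_relabel]
      at h1
    have h2 : (a ∘ g.symm) ∘ g = a := by
      funext i
      simp
    have h3 : ((fun x => f (e x)) ∘ (a ∘ g.symm)) ∘ g = (fun x => f (e x)) ∘ a := by
      funext i
      simp
    rw [h2, h3] at h1
    exact h1

end

end Pool.Agent.AFT
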