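import Pool.Agent.AFT.StFin
import Pool.Agent.AFT.GF
import Pool.Agent.AFT.Red

/-!
# Definable cosets, Boolean combinations of definable cosets (helper31)
-/

set_option autoImplicit false
set_option linter.unusedSectionVars false
set_option linter.unusedVariables false

namespace Pool.Agent.AFT

open Set FirstOrder

/-- `D` is closed under `x - y + z`: it is empty or a coset of a subgroup -/
def Cos3 {M ι : Type} [AddCommGroup M] (D : Set (ι → M)) : Prop :=
  ∀ x ∈ D, ∀ y ∈ D, ∀ z ∈ D, x - y + z ∈ D

section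

variable {L : FirstOrder.Language.{0, 0}} {add : L.Formula (Fin 3)}

/-- the property of a formula to define a coset (or the empty set) transfers -/
theorem cos3_transfer {ι : Type} [Finite ι] (θ : L.Formula ι) {M N : Type} [L.Structure M]
    [L.Structure N] [AddCommGroup M] [AddCommGroup N] (hMa : IsAdd add M) (hNa : IsAdd add N)
    (h : L.ElementarilyEquivalent M N) (hM : Cos3 {x : ι → M | θ.Realize x}) :
    Cos3 {x : ι → N | θ.Realize x} := by
  classical
  let t : ι → ((ι ⊕ (ι ⊕ ι)) →₀ ℤ) := fun i => Finsupp.single (Sum.inl i) 1 -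
    Finsupp.single (Sum.inr (Sum.inl i)) 1 + Finsupp.single (Sum.inr (Sum.inr i)) 1
  have hF : IsGF add (α := ι ⊕ (ι ⊕ ι)) (fun M _ _ x => θ.Realize (x ∘ Sum.inl) →
      θ.Realize (x ∘ fun i => Sum.inr (Sum.inl i)) → θ.Realize (x ∘ fun i => Sum.inr (Sum.inr i)) →
      θ.Realize (fun i => Finsupp.linearCombination ℤ x (t i))) :=
    ((isGF_formula θ).comap Sum.inl).imp (((isGF_formula θ).comap _).imp
      (((isGF_formula θ).comap _).imp (isGF_subst_lin (isGF_formula θ) t)))
  have hlin : ∀ (M : Type) [AddCommGroup M] (x y z : ι → M),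
      (fun i => Finsupp.linearCombination ℤ (Sum.elim x (Sum.elim y z)) (t i)) = x - y + z := by
    intro M _ x y z
    funext i
    simp [t, Finsupp.linearCombination_single]
  have h1 := hF.transfer_all hMa hNa h (fun x h1 h2 h3 => by
    have h4 := hM _ h1 _ h2 _ h3
    rw [← hlin] at h4
    have h5 : Sum.elim (x ∘ Sum.inl) (Sum.elim (x ∘ fun i => Sum.inr (Sum.inl i))
        (x ∘ fun i => Sum.inr (Sum.inr i))) = x := by
      funext i
      rcases i with i | i | i <;> rfl
    rw [h5] at h4
    exact h4)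
  intro x hx y hy z hz
  have h2 := h1 (Sum.elim x (Sum.elim y z)) hx hy hz
  rw [hlin] at h2
  exact h2

/-- a Boolean combination of definable cosets in `U` is the same Boolean combination in all structures
which are elementarily equivalent to `U` -/
theorem bc_uniform {U : Type} [L.Structure U] [AddCommGroup U] {n : ℕ} (δ : L.Formula (Fin n))
    (h : IsBoolCosets L {x : Fin n → U | δ.Realize x}) :
    ∃ (k : ℕ) (θ : Fin k → L.Formula (Fin n)) (E : Set (Fin k → Prop)),
      (∀ j, Cos3 {x : Fin n → U | (θ j).Realize x}) ∧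
      ∀ (M : Type) [L.Structure M], L.ElementarilyEquivalent U M → ∀ x : Fin n → M,
        δ.Realize x ↔ (fun j => (θ j).Realize x) ∈ E := by
  classical
  obtain ⟨k, C, hC, hD⟩ := h
  have h1 : ∀ j, ∃ θ : L.Formula (Fin n), C j = Set.ofPred θ.Realize := fun j =>
    Set.empty_definable_iff.1 (hC j).1
  choose θ hθ using h1
  let E : Set (Fin k → Prop) := {ε | ∃ x : Fin n → U, δ.Realize x ∧ ∀ j, (θ j).Realize x ↔ ε j}
  have hE : ∀ (M : Type) (x : Fin n → M) [L.Structure M], (fun j => (θ j).Realize x) ∈ E ↔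
      ∃ ε : Fin k → Prop, ε ∈ E ∧ ∀ j, (θ j).Realize x ↔ ε j := by
    intro M x _
    constructor
    · intro h
      exact ⟨_, h, fun j => Iff.rfl⟩
    · rintro ⟨ε, hε, h⟩
      have h2 : (fun j => (θ j).Realize x) = ε := funext fun j => propext (h j)
      rw [h2]
      exact hε
  have hF : IsFO (L := L) (α := Fin n) (fun M _ x =>
      δ.Realize x ↔ ∃ ε : Fin k → Prop, ε ∈ E ∧ ∀ j, (θ j).Realize x ↔ ε j) :=
    (isFO_formula δ).iff (IsFO.ex_fin fun ε => (isFO_const _).and (IsFO.all_fin fun j =>
      (isFO_formula (θ j)).iff (isFO_const _)))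
  refine ⟨k, θ, E, fun j => ?_, fun M _ hM x => ?_⟩
  · have h2 := (hC j).2
    rw [hθ j] at h2
    exact h2
  · rw [hE M x]
    refine hF.transfer_all hM (fun y => ?_) x
    rw [← hE U y]
    constructor
    · intro h
      exact ⟨y, h, fun j => Iff.rfl⟩
    · rintro ⟨z, hz, h⟩
      refine (hD z y fun j => ?_).1 hz
      rw [hθ j]
      exact h j

end

end Pool.Agent.AFT
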