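import Pool.Agent.AFT.MonU
import Pool.Agent.WOM.PULL

/-!
# Elementary submodels and elementary substructures of the affine structure (helper31)
-/

set_option autoImplicit false
set_option linter.unusedSectionVars false
set_option linter.unusedVariables false

namespace Pool.Agent.AFT

open Set FirstOrder Pool.Agent.AVC Pool.Agent.AVF
open Pool.Agent.WOM (Mon IsEl)

section

variable {L : FirstOrder.Language.{0, 0}} {U : Type} [L.Structure U]

/-- sets given by a formula with parameters in `M` -/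
theorem def_of {M : Set U} {n : ℕ} (a : Fin n → U) (ha : ∀ i, a i ∈ M)
    (φ : L.Formula (Fin n ⊕ Fin 1)) :
    M.Definable₁ L {y | φ.Realize (Sum.elim a (fun _ => y))} := by
  have h1 := (Pool.Agent.WOM.thm_DEFF L U n a (Fin 1)
    {v | φ.Realize (Sum.elim a v)}).2 ⟨φ, rfl⟩
  have h2 : {x : Fin 1 → U | x 0 ∈ {y | φ.Realize (Sum.elim a (fun _ => y))}} =
      {v | φ.Realize (Sum.elim a v)} := by
    ext v
    have h3 : (fun _ : Fin 1 => v 0) = v := by
      funext i
      rw [Subsingleton.elim i 0]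
    show φ.Realize (Sum.elim a (fun _ => v 0)) ↔ φ.Realize (Sum.elim a v)
    rw [h3]
  show M.Definable L {x : Fin 1 → U | x 0 ∈ {y | φ.Realize (Sum.elim a (fun _ => y))}}
  rw [h2]
  refine Set.Definable.mono h1 ?_
  rintro _ ⟨i, rfl⟩
  exact ha i

/-- conversely, sets definable over `M` are given by formulas with parameters in `M` -/
theorem of_def {M s : Set U} (hs : M.Definable₁ L s) : ∃ (n : ℕ) (a : Fin n → U)
    (χ : L.Formula (Fin n ⊕ Fin 1)), (∀ i, a i ∈ M) ∧
      ∀ v : Fin 1 → U, v 0 ∈ s ↔ χ.Realize (Sum.elim a v) := by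
  unfold Set.Definable₁ at hs
  obtain ⟨A₀, hA, hs⟩ := definable_iff_finitely_definable.1 hs
  obtain ⟨n, ⟨e⟩⟩ := Finite.exists_equiv_fin (A₀ : Set U)
  let a : Fin n → U := fun i => (e.symm i).1
  have hr : range a = (A₀ : Set U) := by
    ext x
    constructor
    · rintro ⟨i, rfl⟩
      exact (e.symm i).2
    · intro hx
      refine ⟨e ⟨x, hx⟩, ?_⟩
      show (e.symm (e ⟨x, hx⟩)).1 = x
      rw [e.symm_apply_apply]
  rw [← hr] at hs
  obtain ⟨χ, hχ⟩ := (Pool.Agent.WOM.thm_DEFF L U n a (Fin 1) _).1 hs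
  refine ⟨n, a, χ, fun i => hA (e.symm i).2, fun v => ?_⟩
  have h1 : v ∈ {x : Fin 1 → U | x 0 ∈ s} ↔ v ∈ {v | χ.Realize (Sum.elim a v)} := by rw [hχ]
  exact h1

/-- elementary submodels of infinite structures are infinite -/
theorem inf_of_isEl [hi : Infinite U] {M : Set U} (hM : IsEl L M) : M.Infinite := by
  intro hf
  obtain ⟨n, a, ha⟩ := hf.fin_embedding
  obtain ⟨y, hy⟩ := hf.exists_notMem
  let χ : L.Formula (Fin n ⊕ Fin 1) := FirstOrder.Language.Formula.iInf (fun i : Fin n =>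
    FirstOrder.Language.Formula.not (FirstOrder.Language.Term.equal
      (FirstOrder.Language.Term.var (Sum.inr 0)) (FirstOrder.Language.Term.var (Sum.inl i))))
  have hχ : ∀ z : U, χ.Realize (Sum.elim (a : Fin n → U) (fun _ => z)) ↔ ∀ i, z ≠ a i := by
    intro z
    rw [FirstOrder.Language.Formula.realize_iInf]
    refine forall_congr' fun i => ?_
    rw [FirstOrder.Language.Formula.realize_not, FirstOrder.Language.Formula.realize_equal]
    exact Iff.rfl
  obtain ⟨z, hz, hzM⟩ := hM _ (def_of (M := M) (a : Fin n → U)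
    (fun i => by rw [← ha]; exact mem_range_self i) χ) ⟨y, (hχ y).2 fun i h => hy (by
      rw [h, ← ha]
      exact mem_range_self i)⟩
  rw [← ha] at hzM
  obtain ⟨i, hi⟩ := hzM
  exact (hχ z).1 hz i hi.symm

/-- the structure on `ℕ` of an elementary submodel -/
theorem exists_pull [hc : Countable U] [hi : Infinite U] {M : Set U} (hM : IsEl L M) :
    ∃ (u : ℕ → U) (S : L.Structure ℕ), Function.Injective u ∧ range u = M ∧
      @FirstOrder.Language.Theory.Model L ℕ S (L.completeTheory U) ∧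
      ∀ (α : Type) [Finite α] (φ : L.Formula α) (a : α → ℕ),
        @FirstOrder.Language.Formula.Realize L ℕ S α φ a ↔ φ.Realize (u ∘ a) := by
  have _ : Infinite M := (inf_of_isEl hM).to_subtype
  obtain ⟨e⟩ : Nonempty (M ≃ ℕ) := nonempty_equiv_of_countable
  let u : ℕ → U := fun n => (e.symm n : U)
  have hu : Function.Injective u := fun i j h => e.symm.injective (Subtype.ext h)
  have hr : range u = M := by
    ext x
    constructor
    · rintro ⟨n, rfl⟩
      exact (e.symm n).2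
    · intro hx
      refine ⟨e ⟨x, hx⟩, ?_⟩
      show (e.symm (e ⟨x, hx⟩) : U) = x
      rw [e.symm_apply_apply]
  obtain ⟨S, hS⟩ := Pool.Agent.WOM.thm_PULL
    (Pool.Agent.WOM.thm_DEF1 Pool.Agent.WOM.thm_DEFF) L U u hu (by rw [hr]; exact hM)
  have key : ∀ (α : Type) [Finite α] (φ : L.Formula α) (a : α → ℕ),
      @FirstOrder.Language.Formula.Realize L ℕ S α φ a ↔ φ.Realize (u ∘ a) := by
    intro α _ φ a
    obtain ⟨n, ⟨g⟩⟩ := Finite.exists_equiv_fin α
    have h1 : φ.relabel g ∈ @Pool.Agent.WOM.tp L ℕ S n (a ∘ g.symm) ↔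
        φ.relabel g ∈ Pool.Agent.WOM.tp (L := L) (u ∘ (a ∘ g.symm)) := by rw [hS]
    have h2 : @FirstOrder.Language.Formula.Realize L ℕ S _ (φ.relabel g) (a ∘ g.symm) ↔
        (φ.relabel g).Realize (u ∘ (a ∘ g.symm)) := h1
    let _ := S
    rw [FirstOrder.Language.Formula.realize_relabel,
      FirstOrder.Language.Formula.realize_relabel] at h2
    have h3 : (a ∘ g.symm) ∘ g = a := by
      funext i
      simp
    have h4 : (u ∘ (a ∘ g.symm)) ∘ g = u ∘ a := by
      funext i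
      simp
    rw [h3, h4] at h2
    exact h2
  refine ⟨u, S, hu, hr, ?_, key⟩
  refine ⟨fun φ hφ => ?_⟩
  have h1 : U ⊨ φ := hφ
  have h2 := key Empty φ Empty.elim
  have h3 : ∀ (V : Type) (SV : L.Structure V) (v : Empty → V),
      @FirstOrder.Language.Sentence.Realize L V SV φ ↔
        @FirstOrder.Language.Formula.Realize L V SV Empty φ v := by
    intro V SV v
    unfold FirstOrder.Language.Sentence.Realize
    rw [Subsingleton.elim v default]
  exact (h3 ℕ S _).2 (h2.2 ((h3 U _ _).1 h1))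

end

section

variable {L : FirstOrder.Language.{0, 0}} {add : L.Formula (Fin 3)} {ι κ : Type}
  [Countable L.Symbols] {U : Type} [L.Structure U] [AddCommGroup U]

/-- elementary substructures of the affine structure are elementary submodels -/
theorem isEl_of_el (hM : Mon L U) (hadd : IsAdd add U) (hB : BCos L U)
    {N : Submodule (ZU L U) (UA L U)} (hN : El (UA L U) N) : IsEl L (U := U) {x : U | x ∈ N} := by
  classical
  intro s hs hne
  obtain ⟨y₀, hy₀⟩ := hne
  obtain ⟨n, a, χ, haN, hχ⟩ := of_def hs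
  by_contra hcon
  let p₀ : Set (PP (ZU L U) (Fin n ⊕ Fin 1)) := app (UA L U) (Sum.elim a (fun _ => y₀))
  obtain ⟨c, hc⟩ := Pool.Agent.VMF.sat_fin L U hM 1 n a
    (foU hadd '' p₀ ∪ (fun φ => FirstOrder.Language.Formula.not (foU hadd φ)) '' p₀ᶜ ∪
      {FirstOrder.Language.Formula.not χ}) (by
    intro G hG hGf
    have h1 : ∀ ψ ∈ hGf.toFinset, ∃ φ : PP (ZU L U) (Fin n ⊕ Fin 1),
        (φ ∈ p₀ ∧ foU hadd φ = ψ) ∨
          (φ ∉ p₀ ∧ FirstOrder.Language.Formula.not (foU hadd φ) = ψ) ∨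
            ψ = FirstOrder.Language.Formula.not χ := by
      intro ψ hψ
      rcases hG (hGf.mem_toFinset.1 hψ) with (⟨φ, h1, h2⟩ | ⟨φ, h1, h2⟩) | h1
      · exact ⟨φ, Or.inl ⟨h1, h2⟩⟩
      · exact ⟨φ, Or.inr (Or.inl ⟨h1, h2⟩)⟩
      · exact ⟨[], Or.inr (Or.inr h1)⟩
    choose! f hf using h1
    obtain ⟨φ, hφ, -⟩ := isAP_finset (R := ZU L U) ((hGf.toFinset.image f).filter (· ∈ p₀))
    obtain ⟨y, hyN, hy1, hy2⟩ := hN n a φ ((hGf.toFinset.image f).filter (· ∉ p₀)) haN
      ⟨fun _ => y₀, (hφ (UA L U) _).1 fun ψ hψ => (Finset.mem_filter.1 hψ).2,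
        fun ψ hψ => (Finset.mem_filter.1 hψ).2⟩
    refine ⟨y, fun ψ hψ => ?_⟩
    have hψ' := hGf.mem_toFinset.2 hψ
    rcases hf ψ hψ' with ⟨h3, h4⟩ | ⟨h3, h4⟩ | h3
    · rw [← h4]
      exact (foU_iff hadd _ _).2 ((hφ (UA L U) _).2 hy1 _
        (Finset.mem_filter.2 ⟨Finset.mem_image_of_mem f hψ', h3⟩))
    · rw [← h4, FirstOrder.Language.Formula.realize_not]
      intro h5
      exact hy2 _ (Finset.mem_filter.2 ⟨Finset.mem_image_of_mem f hψ', h3⟩)
        ((foU_iff hadd _ _).1 h5)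
    · rw [h3, FirstOrder.Language.Formula.realize_not]
      intro h5
      exact hcon ⟨y 0, (hχ y).2 h5, hyN⟩)
  have h2 : app (R := ZU L U) (UA L U) (Sum.elim a c : Fin n ⊕ Fin 1 → U) = p₀ := by
    ext φ
    constructor
    · intro h3
      by_contra hn
      have h4 := hc _ (Or.inl (Or.inr ⟨φ, hn, rfl⟩))
      rw [FirstOrder.Language.Formula.realize_not] at h4
      exact h4 ((foU_iff hadd φ _).2 h3)
    · intro h3
      exact (foU_iff hadd φ _).1 (hc _ (Or.inl (Or.inl ⟨φ, h3, rfl⟩)))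
  have h3 := hc _ (Or.inr rfl)
  rw [FirstOrder.Language.Formula.realize_not] at h3
  refine h3 ?_
  have h4 : tpS (L := L) (Sum.elim a c : Fin n ⊕ Fin 1 → U) =
      tpS (Sum.elim a (fun _ => y₀) : Fin n ⊕ Fin 1 → U) := tp_of_app hM hadd hB h2
  have h5 : χ ∈ tpS (L := L) (Sum.elim a (fun _ => y₀) : Fin n ⊕ Fin 1 → U) :=
    (hχ (fun _ => y₀)).1 hy₀
  rw [← h4] at h5
  exact h5

/-- elementary submodels are elementary substructures of the affine structure -/
theorem el_of_isEl (hadd : IsAdd add U) {M : Set U} (hM : IsEl L M) :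
    ∃ N : Submodule (ZU L U) (UA L U), {x : U | x ∈ N} = M ∧ El (UA L U) N := by
  classical
  -- differences
  have hsub : ∀ x ∈ M, ∀ y ∈ M, x - y ∈ M := by
    intro x hx y hy
    let φ : L.Formula (Fin 2 ⊕ Fin 1) :=
      add.relabel ![Sum.inr 0, Sum.inl 1, Sum.inl 0]
    have hφ : ∀ z : U, φ.Realize (Sum.elim ![x, y] (fun _ => z)) ↔ z + y = x := by
      intro z
      show FirstOrder.Language.Formula.Realize (add.relabel _) _ ↔ _
      rw [FirstOrder.Language.Formula.realize_relabel, hadd]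
      exact Iff.rfl
    obtain ⟨z, hz, hzM⟩ := hM _ (def_of (M := M) ![x, y] (fun i => by
      refine Fin.cases hx (fun i => ?_) i
      refine Fin.cases hy (fun i => i.elim0) i) φ) ⟨x - y, (hφ _).2 (sub_add_cancel x y)⟩
    have h1 := (hφ z).1 hz
    rw [← h1, add_sub_cancel_right]
    exact hzM
  have hne : M.Nonempty := by
    obtain ⟨z, -, hz⟩ := hM _ (def_of (M := M) (n := 0) (fun i => i.elim0) (fun i => i.elim0)
      (⊤ : L.Formula (Fin 0 ⊕ Fin 1))) ⟨0, FirstOrder.Language.Formula.realize_top.2 trivial⟩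
    exact ⟨z, hz⟩
  have h0 : (0 : U) ∈ M := by
    obtain ⟨z, hz⟩ := hne
    have := hsub z hz z hz
    rwa [sub_self] at this
  have hneg : ∀ x ∈ M, -x ∈ M := fun x hx => by
    have := hsub 0 h0 x hx
    rwa [zero_sub] at this
  have haddM : ∀ x ∈ M, ∀ y ∈ M, x + y ∈ M := fun x hx y hy => by
    have := hsub x hx (-y) (hneg y hy)
    rwa [sub_neg_eq_add] at this
  let G : AddSubgroup U :=
    { carrier := M
      add_mem' := fun hx hy => haddM _ hx _ hy
      zero_mem' := h0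
      neg_mem' := fun hx => hneg _ hx }
  let N : Submodule (ZU L U) (UA L U) :=
    { carrier := M
      add_mem' := fun hx hy => haddM _ hx _ hy
      zero_mem' := h0
      smul_mem' := fun r x hx => G.zsmul_mem hx r }
  refine ⟨N, rfl, ?_⟩
  intro n a φ s ha hy
  obtain ⟨y, hy1, hy2⟩ := hy
  let χ : L.Formula (Fin n ⊕ Fin 1) := foU hadd φ ⊓ FirstOrder.Language.Formula.iInf
    (fun ψ : s => FirstOrder.Language.Formula.not (foU hadd ψ.1))
  have hχ : ∀ v : Fin 1 → U, χ.Realize (Sum.elim a v : Fin n ⊕ Fin 1 → U) ↔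
      (ASat φ (UA L U) (Sum.elim a v) ∧ ∀ ψ ∈ s, ¬ ASat ψ (UA L U) (Sum.elim a v)) := by
    intro v
    show FirstOrder.Language.Formula.Realize (foU hadd φ ⊓ _) _ ↔ _
    rw [FirstOrder.Language.Formula.realize_inf, FirstOrder.Language.Formula.realize_iInf]
    refine and_congr (foU_iff hadd φ _) ?_
    constructor
    · intro h ψ hψ
      have h1 := h ⟨ψ, hψ⟩
      rw [FirstOrder.Language.Formula.realize_not] at h1
      exact fun h2 => h1 ((foU_iff hadd ψ _).2 h2)
    · rintro h ⟨ψ, hψ⟩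
      rw [FirstOrder.Language.Formula.realize_not]
      exact fun h2 => h ψ hψ ((foU_iff hadd ψ _).1 h2)
  have hy0 : (fun _ : Fin 1 => y 0) = y := by
    funext i
    rw [Subsingleton.elim i 0]
  obtain ⟨z, hz, hzM⟩ := hM _ (def_of (M := M) a ha χ) ⟨y 0, by
    have h1 := (hχ (fun _ => y 0)).2 (by rw [hy0]; exact ⟨hy1, hy2⟩)
    exact h1⟩
  have h1 := (hχ (fun _ => z)).1 hz
  exact ⟨fun _ => z, hzM, h1.1, h1.2⟩

end

end Pool.Agent.AFT
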