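import Mathlib.ModelTheory.Definability
import Mathlib.ModelTheory.Satisfiability

/-!
# First-order families of relations (helper31)

A family of relations `F M : (α → M) → Prop`, one for each structure `M` of the language `L`, is first order
(`IsFO F`) if it is given by one formula.
-/

set_option autoImplicit false
set_option linter.unusedSectionVars false
set_option linter.unusedVariables false

namespace Pool.Agent.AFT

open Set FirstOrder

/-- families of relations on all structures -/
abbrev Fam (L : FirstOrder.Language.{0, 0}) (α : Type) : Type 1 :=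
  ∀ (M : Type) [L.Structure M], (α → M) → Prop

/-- the family is given by one formula -/
def IsFO {L : FirstOrder.Language.{0, 0}} {α : Type} (F : Fam L α) : Prop :=
  ∃ φ : L.Formula α, ∀ (M : Type) [L.Structure M] (x : α → M), F M x ↔ φ.Realize x

section

variable {L : FirstOrder.Language.{0, 0}} {α β γ : Type}

theorem IsFO.congr {F G : Fam L α} (hF : IsFO F)
    (h : ∀ (M : Type) [L.Structure M] (x : α → M), F M x ↔ G M x) : IsFO G := by
  obtain ⟨φ, hφ⟩ := hF
  exact ⟨φ, fun M _ x => (h M x).symm.trans (hφ M x)⟩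

theorem isFO_formula (φ : L.Formula α) : IsFO (L := L) (fun M _ x => φ.Realize x) :=
  ⟨φ, fun M _ x => Iff.rfl⟩

theorem IsFO.and {F G : Fam L α} (hF : IsFO F) (hG : IsFO G) :
    IsFO (L := L) (fun M _ x => F M x ∧ G M x) := by
  obtain ⟨φ, hφ⟩ := hF
  obtain ⟨ψ, hψ⟩ := hG
  refine ⟨φ ⊓ ψ, fun M _ x => ?_⟩
  rw [FirstOrder.Language.Formula.realize_inf, ← hφ, ← hψ]

theorem IsFO.not {F : Fam L α} (hF : IsFO F) : IsFO (L := L) (fun M _ x => ¬ F M x) := by
  obtain ⟨φ, hφ⟩ := hF
  refine ⟨φ.not, fun M _ x => ?_⟩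
  rw [FirstOrder.Language.Formula.realize_not, ← hφ]

theorem IsFO.or {F G : Fam L α} (hF : IsFO F) (hG : IsFO G) :
    IsFO (L := L) (fun M _ x => F M x ∨ G M x) :=
  ((hF.not.and hG.not).not).congr fun M _ x => by tauto

theorem IsFO.imp {F G : Fam L α} (hF : IsFO F) (hG : IsFO G) :
    IsFO (L := L) (fun M _ x => F M x → G M x) :=
  ((hF.and hG.not).not).congr fun M _ x => by tauto

theorem IsFO.iff {F G : Fam L α} (hF : IsFO F) (hG : IsFO G) :
    IsFO (L := L) (fun M _ x => F M x ↔ G M x) :=
  ((hF.imp hG).and (hG.imp hF)).congr fun M _ x => by tauto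

theorem isFO_true : IsFO (L := L) (α := α) (fun _ _ _ => True) :=
  ⟨⊤, fun M _ x => by simp⟩

theorem isFO_false : IsFO (L := L) (α := α) (fun _ _ _ => False) :=
  (isFO_true.not).congr fun M _ x => by simp

theorem isFO_const (p : Prop) : IsFO (L := L) (α := α) (fun _ _ _ => p) := by
  by_cases h : p
  · exact isFO_true.congr fun M _ x => by simp [h]
  · exact isFO_false.congr fun M _ x => by simp [h]

theorem IsFO.all_fin [Finite β] {F : β → Fam L α} (hF : ∀ b, IsFO (F b)) :
    IsFO (L := L) (fun M _ x => ∀ b, F b M x) := by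
  choose φ hφ using hF
  refine ⟨FirstOrder.Language.Formula.iInf φ, fun M _ x => ?_⟩
  rw [FirstOrder.Language.Formula.realize_iInf]
  exact forall_congr' fun b => hφ b M x

theorem IsFO.ex_fin [Finite β] {F : β → Fam L α} (hF : ∀ b, IsFO (F b)) :
    IsFO (L := L) (fun M _ x => ∃ b, F b M x) :=
  ((IsFO.all_fin fun b => (hF b).not).not).congr fun M _ x => by simp

theorem IsFO.all_mem {ι : Type} (s : Finset ι) {F : ι → Fam L α} (hF : ∀ i ∈ s, IsFO (F i)) :
    IsFO (L := L) (fun M _ x => ∀ i ∈ s, F i M x) :=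
  (IsFO.all_fin (β := s) (F := fun i M _ x => F i M x) fun i => hF i i.2).congr fun M _ x =>
    ⟨fun h i hi => h ⟨i, hi⟩, fun h i => h i i.2⟩

/-- renaming of the variables -/
theorem IsFO.comap {F : Fam L α} (hF : IsFO F) (f : α → β) :
    IsFO (L := L) (fun M _ (x : β → M) => F M (x ∘ f)) := by
  obtain ⟨φ, hφ⟩ := hF
  refine ⟨φ.relabel f, fun M _ x => ?_⟩
  rw [FirstOrder.Language.Formula.realize_relabel]
  exact hφ M _

/-- existential quantification over a finite tuple -/
theorem IsFO.ex [Finite β] {F : Fam L (α ⊕ β)} (hF : IsFO F) :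
    IsFO (L := L) (fun M _ (x : α → M) => ∃ y : β → M, F M (Sum.elim x y)) := by
  obtain ⟨φ, hφ⟩ := hF
  refine ⟨φ.iExs β, fun M _ x => ?_⟩
  rw [FirstOrder.Language.Formula.realize_iExs]
  exact exists_congr fun y => hφ M _

/-- universal quantification over a finite tuple -/
theorem IsFO.all [Finite β] {F : Fam L (α ⊕ β)} (hF : IsFO F) :
    IsFO (L := L) (fun M _ (x : α → M) => ∀ y : β → M, F M (Sum.elim x y)) :=
  (hF.not.ex.not).congr fun M _ x => by simp

/-- existential quantification, with separate arguments -/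
theorem IsFO.ex' [Finite β] (F : ∀ (M : Type) [L.Structure M], (α → M) → (β → M) → Prop)
    (hF : IsFO (L := L) (fun M _ (z : α ⊕ β → M) => F M (z ∘ Sum.inl) (z ∘ Sum.inr))) :
    IsFO (L := L) (fun M _ (x : α → M) => ∃ y : β → M, F M x y) :=
  hF.ex

theorem IsFO.all' [Finite β] (F : ∀ (M : Type) [L.Structure M], (α → M) → (β → M) → Prop)
    (hF : IsFO (L := L) (fun M _ (z : α ⊕ β → M) => F M (z ∘ Sum.inl) (z ∘ Sum.inr))) :
    IsFO (L := L) (fun M _ (x : α → M) => ∀ y : β → M, F M x y) :=
  hF.all

/-- equality of two terms -/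
theorem isFO_eq (s t : L.Term α) : IsFO (L := L) (fun M _ x => s.realize x = t.realize x) :=
  ⟨s.equal t, fun M _ x => (FirstOrder.Language.Formula.realize_equal).symm⟩

theorem isFO_eq_var (i j : α) : IsFO (L := L) (fun M _ x => x i = x j) :=
  (isFO_eq (L := L) (FirstOrder.Language.Term.var i) (FirstOrder.Language.Term.var j)).congr
    fun M _ x => Iff.rfl

/-- a basic relation -/
theorem isFO_rel {n : ℕ} (P : L.Relations n) (f : Fin n → α) :
    IsFO (L := L) (fun M _ x => FirstOrder.Language.Structure.RelMap P (x ∘ f)) :=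
  ⟨P.formula fun i => FirstOrder.Language.Term.var (f i), fun M _ x => by
    rw [FirstOrder.Language.Formula.realize_rel]
    exact Iff.rfl⟩

/-- the graph of a basic function -/
theorem isFO_fun {n : ℕ} (F : L.Functions n) (f : Fin n → α) (j : α) :
    IsFO (L := L) (fun M _ x => FirstOrder.Language.Structure.funMap F (x ∘ f) = x j) :=
  (isFO_eq (L := L) (FirstOrder.Language.Term.func F fun i => FirstOrder.Language.Term.var (f i))
    (FirstOrder.Language.Term.var j)).congr fun M _ x => Iff.rfl

/-! ### Transfer -/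

/-- first-order families take the same value in elementarily equivalent structures, for the empty
tuple -/
theorem IsFO.transfer {F : Fam L Empty} (hF : IsFO F) {M N : Type} [L.Structure M] [L.Structure N]
    (h : L.ElementarilyEquivalent M N) (x : Empty → M) (y : Empty → N) : F M x ↔ F N y := by
  obtain ⟨φ, hφ⟩ := hF
  rw [hφ M, hφ N]
  have h1 : x = default := Subsingleton.elim _ _
  have h2 : y = default := Subsingleton.elim _ _
  rw [h1, h2]
  exact h.realize_sentence φ

/-- a statement about all tuples transfers -/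
theorem IsFO.transfer_all [Finite α] {F : Fam L α} (hF : IsFO F) {M N : Type} [L.Structure M]
    [L.Structure N] (h : L.ElementarilyEquivalent M N) (hM : ∀ x : α → M, F M x) :
    ∀ y : α → N, F N y := by
  have h1 : IsFO (L := L) (α := Empty) (fun M _ (_ : Empty → M) => ∀ y : α → M, F M y) :=
    IsFO.all' (L := L) (α := Empty) (fun M _ _ y => F M y) (hF.comap Sum.inr)
  exact (h1.transfer h Empty.elim Empty.elim).1 hM

/-- a statement about the existence of a tuple transfers -/
theorem IsFO.transfer_ex [Finite α] {F : Fam L α} (hF : IsFO F) {M N : Type} [L.Structure M]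
    [L.Structure N] (h : L.ElementarilyEquivalent M N) (hM : ∃ x : α → M, F M x) :
    ∃ y : α → N, F N y := by
  have h1 : IsFO (L := L) (α := Empty) (fun M _ (_ : Empty → M) => ∃ y : α → M, F M y) :=
    IsFO.ex' (L := L) (α := Empty) (fun M _ _ y => F M y) (hF.comap Sum.inr)
  exact (h1.transfer h Empty.elim Empty.elim).1 hM

/-- first-order families are invariant under isomorphism -/
theorem IsFO.equiv {F : Fam L α} (hF : IsFO F) {M N : Type} [L.Structure M] [L.Structure N]
    (e : L.Equiv M N) (x : α → M) : F M x ↔ F N (e ∘ x) := by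
  obtain ⟨φ, hφ⟩ := hF
  rw [hφ M, hφ N]
  exact (FirstOrder.Language.StrongHomClass.realize_formula e φ).symm

end

end Pool.Agent.AFT
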