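import Pool.Agent.AFT.Red
import Pool.Agent.AFT.FO

/-!
# Few types, few ages for first-order formulas (helper31)

If `T` has not perfectly many models, then the invariants of tuples in countable models of `T` which are
given by countably many measurable properties take countably many values (`few_valuesL`); in particular
the ages (types of the finite extensions of a tuple) and the sets of realised ages.
-/

set_option autoImplicit false
set_option linter.unusedSectionVars false
set_option linter.unusedVariables false

namespace Pool.Agent.AFT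

open Set FirstOrder
open Pool.Agent.WOM (Mon IsEl CtT PerfT ThS Small CodeF strF)

section

variable {L : FirstOrder.Language.{0, 0}} {n : ℕ}

/-- the type of a tuple -/
def tpS {ι M : Type} [L.Structure M] (x : ι → M) : Set (L.Formula ι) := {φ | φ.Realize x}

/-- the age of a tuple: the types of its finite extensions -/
def ageL {ι M : Type} [L.Structure M] (x : ι → M) :
    Set ((k : ℕ) × Set (L.Formula (ι ⊕ Fin k))) :=
  {σ | ∃ c : Fin σ.1 → M, tpS (L := L) (Sum.elim x c) = σ.2}

variable (L) in
/-- the realised ages -/
def agesL (M : Type) [L.Structure M] :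
    Set ((n : ℕ) × Set ((k : ℕ) × Set (L.Formula (Fin n ⊕ Fin k)))) :=
  {σ | ∃ x : Fin σ.1 → M, ageL (L := L) x = σ.2}

/-- every structure on `ℕ` has a code -/
theorem exists_code (S : L.Structure ℕ) : ∃ c : CodeF L, strF c = S := by
  classical
  let _ := S
  refine ⟨(fun p => decide (FirstOrder.Language.Structure.RelMap p.2.1 p.2.2),
    fun p => FirstOrder.Language.Structure.funMap p.2.1 p.2.2), ?_⟩
  have h1 : ∀ (n : ℕ) (R : L.Relations n) (a : Fin n → ℕ),
      (decide (FirstOrder.Language.Structure.RelMap R a) = true) =
        FirstOrder.Language.Structure.RelMap R a := by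
    intro n R a
    simp
  refine FirstOrder.Language.Structure.ext ?_ ?_
  · rfl
  · funext n R a
    exact h1 n R a

/-- **The tool.** A countable family of measurable properties takes countably many values. -/
theorem few_valuesL (hL : Countable L.Symbols) {T : L.Theory} (hnp : ¬ PerfT L T) {J : Type}
    [Countable J] (P : J → Fam L (Fin n))
    (hinv : ∀ (j : J) (M N : Type) [L.Structure M] [L.Structure N] (e : L.Equiv M N)
      (x : Fin n → M), P j M x → P j N (e ∘ x))
    (hmeas : ∀ j v, MeasurableSet {c : CodeF L | @P j ℕ (strF c) v}) :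
    {Z : J → Prop | ∃ (M : Type) (_ : L.Structure M), Countable M ∧ Infinite M ∧ M ⊨ T ∧
      ∃ y : Fin n → M, Z = fun j => P j M y}.Countable := by
  classical
  by_contra hcon
  refine hnp (Pool.Agent.WOM.thm_REAL Pool.Agent.WOM.thm_MEAS L hL T (Fin n → ℕ) J
    (fun v c j => decide (@P j ℕ (strF c) v)) ?_ ?_ ?_)
  · intro v j
    have h1 : {c : CodeF L | decide (@P j ℕ (strF c) v) = true} =
        {c : CodeF L | @P j ℕ (strF c) v} := by
      ext c
      simp
    rw [h1]
    exact hmeas j v
  · intro v c d _ _ h
    obtain ⟨e⟩ := h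
    refine ⟨(fun i => @FirstOrder.Language.Equiv.toEquiv L ℕ ℕ (strF c) (strF d) e (v i)), ?_⟩
    funext j
    have h1 : @P j ℕ (strF c) v ↔ @P j ℕ (strF d)
        (fun i => @FirstOrder.Language.Equiv.toEquiv L ℕ ℕ (strF c) (strF d) e (v i)) := by
      constructor
      · intro h
        exact @hinv j ℕ ℕ (strF c) (strF d) e v h
      · intro h
        have h2 := @hinv j ℕ ℕ (strF d) (strF c)
          (@FirstOrder.Language.Equiv.symm L ℕ ℕ (strF c) (strF d) e) _ h
        have h3 : (@FirstOrder.Language.Equiv.toEquiv L ℕ ℕ (strF d) (strF c)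
            (@FirstOrder.Language.Equiv.symm L ℕ ℕ (strF c) (strF d) e) ∘
            fun i => @FirstOrder.Language.Equiv.toEquiv L ℕ ℕ (strF c) (strF d) e (v i)) = v := by
          funext i
          exact Equiv.symm_apply_apply _ _
        have h4 : @P j ℕ (strF c) (@FirstOrder.Language.Equiv.toEquiv L ℕ ℕ (strF d) (strF c)
            (@FirstOrder.Language.Equiv.symm L ℕ ℕ (strF c) (strF d) e) ∘
            fun i => @FirstOrder.Language.Equiv.toEquiv L ℕ ℕ (strF c) (strF d) e (v i)) := h2
        rw [h3] at h4
        exact h4
    simp only [h1]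
  · intro hc
    refine hcon ((hc.image fun b : J → Bool => fun j => b j = true).mono ?_)
    rintro Z ⟨M, _, hMc, hMi, hM, y, rfl⟩
    obtain ⟨e⟩ : Nonempty (M ≃ ℕ) := nonempty_equiv_of_countable
    let S : L.Structure ℕ := e.inducedStructure
    let E : L.Equiv M ℕ := e.inducedStructureEquiv
    obtain ⟨c, hcS⟩ := exists_code S
    have hMod : @FirstOrder.Language.Theory.Model L ℕ (strF c) T := by
      rw [hcS]
      have h1 : L.ElementarilyEquivalent M ℕ :=
        FirstOrder.Language.StrongHomClass.elementarilyEquivalent E
      exact h1.theory_model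
    refine ⟨fun j => decide (@P j ℕ (strF c) (E ∘ y)), ?_, ?_⟩
    · exact mem_iUnion.2 ⟨E ∘ y, c, hMod, rfl⟩
    · funext j
      have h1 : @P j ℕ (strF c) (E ∘ y) ↔ P j M y := by
        rw [hcS]
        constructor
        · intro h
          have h2 := hinv j ℕ M E.symm _ h
          have h3 : (E.symm ∘ (E ∘ y)) = y := by
            funext i
            exact E.symm_apply_apply (y i)
          rw [h3] at h2
          exact h2
        · intro h
          exact hinv j M ℕ E y h
      show (decide (@P j ℕ (strF c) (E ∘ y)) = true) = P j M y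
      rw [decide_eq_true_eq]
      exact propext h1

theorem countable_formula (hL : Countable L.Symbols) (α : Type) [Countable α] :
    Countable (L.Formula α) := by
  have h1 : Countable ((n : ℕ) × L.BoundedFormula α n) := by
    have h2 := FirstOrder.Language.BoundedFormula.card_le (L := L) (α := α)
    rw [← Cardinal.mk_le_aleph0_iff]
    refine h2.trans (max_le le_rfl ?_)
    have h3 : Cardinal.mk α ≤ Cardinal.aleph0 := Cardinal.mk_le_aleph0
    have h4 : L.card ≤ Cardinal.aleph0 := by
      have := Cardinal.mk_le_aleph0_iff.2 hL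
      exact this
    simp only [Cardinal.lift_id]
    exact Cardinal.add_le_aleph0.2 ⟨h3, h4⟩
  exact Function.Injective.countable (f := fun φ : L.Formula α =>
    (⟨0, φ⟩ : (n : ℕ) × L.BoundedFormula α n)) (fun φ ψ h => by
      simpa using h)

theorem meas_formula (hL : Countable L.Symbols) {ι : Type} [Finite ι] (φ : L.Formula ι)
    (v : ι → ℕ) :
    MeasurableSet {c : CodeF L | @FirstOrder.Language.Formula.Realize L ℕ (strF c) ι φ v} := by
  obtain ⟨n, ⟨e⟩⟩ := Finite.exists_equiv_fin ι
  have h1 := (Pool.Agent.WOM.thm_MEAS L hL).2.2 n 0 (φ.relabel e) (v ∘ e.symm) (fun i => i.elim0)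
  refine (congrArg MeasurableSet ?_).mp h1
  ext c
  let _ := strF c
  have h2 : (φ.relabel e).Realize (v ∘ e.symm) ↔ φ.Realize v := by
    rw [FirstOrder.Language.Formula.realize_relabel]
    have h3 : (v ∘ e.symm) ∘ e = v := by
      funext i
      simp
    rw [h3]
  have h4 : FirstOrder.Language.BoundedFormula.Realize (φ.relabel e) (v ∘ e.symm)
      (fun i : Fin 0 => i.elim0) ↔ (φ.relabel e).Realize (v ∘ e.symm) := by
    unfold FirstOrder.Language.Formula.Realize
    exact iff_of_eq (congrArg _ (Subsingleton.elim _ _))
  exact h4.trans h2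

end

end Pool.Agent.AFT
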