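import Pool.Agent.AFT.Few

/-!
# Few ages for first-order formulas (helper31)
-/

set_option autoImplicit false
set_option linter.unusedSectionVars false
set_option linter.unusedVariables false

namespace Pool.Agent.AFT

open Set FirstOrder
open Pool.Agent.WOM (Mon IsEl CtT PerfT ThS Small CodeF strF)

section

variable {L : FirstOrder.Language.{0, 0}} {T : L.Theory} {n : ℕ}

theorem fewL0 (hL : Countable L.Symbols) (hnp : ¬ PerfT L T) (n : ℕ) :
    {p : Set (L.Formula (Fin n)) | ∃ (M : Type) (_ : L.Structure M), Countable M ∧ Infinite M ∧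
      M ⊨ T ∧ ∃ x : Fin n → M, tpS (L := L) x = p}.Countable := by
  have _ : Countable (L.Formula (Fin n)) := countable_formula hL (Fin n)
  have h := few_valuesL hL hnp (J := L.Formula (Fin n)) (n := n) (fun φ M _ x => φ.Realize x)
    (fun φ M N _ _ e x h => (FirstOrder.Language.StrongHomClass.realize_formula e φ).2 h)
    (fun φ v => meas_formula hL φ v)
  refine (h.image fun Z => {φ | Z φ}).mono ?_
  rintro p ⟨M, _, hc, hi, hM, x, rfl⟩
  exact ⟨_, ⟨M, _, hc, hi, hM, x, rfl⟩, rfl⟩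

private theorem append_eq {M : Type} {k : ℕ} (x : Fin n → M) (c : Fin k → M) :
    Fin.append x c ∘ finSumFinEquiv = Sum.elim x c := by
  funext i
  rcases i with i | i <;> simp

/-- the types of the extensions of tuples in the countable models, as an index set -/
def JL0 (T : L.Theory) (n : ℕ) : Set ((k : ℕ) × Set (L.Formula (Fin n ⊕ Fin k))) :=
  {σ | ∃ (M : Type) (_ : L.Structure M), Countable M ∧ Infinite M ∧ M ⊨ T ∧
    ∃ (x : Fin n → M) (c : Fin σ.1 → M), tpS (L := L) (Sum.elim x c) = σ.2}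

theorem JL0_ctbl (hL : Countable L.Symbols) (hnp : ¬ PerfT L T) (n : ℕ) : (JL0 T n).Countable := by
  refine (countable_iUnion fun k : ℕ => (fewL0 hL hnp (n + k)).image fun p =>
    (⟨k, {φ | φ.relabel finSumFinEquiv ∈ p}⟩ :
      (k : ℕ) × Set (L.Formula (Fin n ⊕ Fin k)))).mono ?_
  rintro ⟨k, p⟩ ⟨M, _, hc, hi, hM, x, c, h⟩
  refine mem_iUnion.2 ⟨k, _, ⟨M, _, hc, hi, hM, Fin.append x c, rfl⟩, ?_⟩
  have h1 : {φ : L.Formula (Fin n ⊕ Fin k) | φ.relabel finSumFinEquiv ∈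
      tpS (L := L) (Fin.append x c)} = p := by
    have h : tpS (L := L) (Sum.elim x c) = p := h
    rw [← h]
    ext φ
    show (φ.relabel finSumFinEquiv).Realize (Fin.append x c) ↔ φ.Realize (Sum.elim x c)
    rw [FirstOrder.Language.Formula.realize_relabel, append_eq]
  show (⟨k, _⟩ : (k : ℕ) × Set (L.Formula (Fin n ⊕ Fin k))) = ⟨k, p⟩
  rw [h1]

theorem ageL_sub {M : Type} [L.Structure M] (hc : Countable M) (hi : Infinite M) (hM : M ⊨ T)
    (x : Fin n → M) : ageL (L := L) x ⊆ JL0 T n := by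
  rintro ⟨k, p⟩ ⟨c, h⟩
  exact ⟨M, _, hc, hi, hM, x, c, h⟩

theorem tpS_equiv {ι : Type} {M N : Type} [L.Structure M] [L.Structure N] (e : L.Equiv M N)
    (x : ι → M) : tpS (L := L) (e ∘ x) = tpS x := by
  ext φ
  exact FirstOrder.Language.StrongHomClass.realize_formula e φ

/-- a given type is realised by an extension of the tuple -/
theorem ext_inv {k : ℕ} (p : Set (L.Formula (Fin n ⊕ Fin k))) (M N : Type) [L.Structure M]
    [L.Structure N] (e : L.Equiv M N) (x : Fin n → M)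
    (h : ∃ c : Fin k → M, tpS (L := L) (Sum.elim x c) = p) :
    ∃ c : Fin k → N, tpS (L := L) (Sum.elim (e ∘ x) c) = p := by
  obtain ⟨c, hc⟩ := h
  refine ⟨e ∘ c, ?_⟩
  rw [← Sum.comp_elim, tpS_equiv, hc]

theorem meas_tp (hL : Countable L.Symbols) {ι : Type} [Finite ι] (p : Set (L.Formula ι))
    (v : ι → ℕ) : MeasurableSet {c : CodeF L | @tpS L ι ℕ (strF c) v = p} := by
  have _ : Countable (L.Formula ι) := countable_formula hL ι
  have h1 : {c : CodeF L | @tpS L ι ℕ (strF c) v = p} =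
      ⋂ φ : L.Formula ι, {c : CodeF L | @FirstOrder.Language.Formula.Realize L ℕ (strF c) ι φ v ↔
        φ ∈ p} := by
    ext c
    rw [mem_iInter]
    exact Set.ext_iff
  rw [h1]
  refine MeasurableSet.iInter fun φ => ?_
  by_cases hφ : φ ∈ p
  · simp only [hφ, iff_true]
    exact meas_formula hL φ v
  · simp only [hφ, iff_false]
    exact (meas_formula hL φ v).compl

theorem meas_ext (hL : Countable L.Symbols) {k : ℕ} (p : Set (L.Formula (Fin n ⊕ Fin k)))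
    (v : Fin n → ℕ) :
    MeasurableSet {c : CodeF L | ∃ w : Fin k → ℕ,
      @tpS L (Fin n ⊕ Fin k) ℕ (strF c) (Sum.elim v w) = p} := by
  have h1 : {c : CodeF L | ∃ w : Fin k → ℕ,
      @tpS L (Fin n ⊕ Fin k) ℕ (strF c) (Sum.elim v w) = p} =
      ⋃ w : Fin k → ℕ, {c : CodeF L |
        @tpS L (Fin n ⊕ Fin k) ℕ (strF c) (Sum.elim v w) = p} := by
    ext c
    rw [mem_iUnion]
    exact Iff.rfl
  rw [h1]
  exact MeasurableSet.iUnion fun w => meas_tp hL p _

theorem fewL3 (hL : Countable L.Symbols) (hnp : ¬ PerfT L T) (n : ℕ) :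
    {A : Set ((k : ℕ) × Set (L.Formula (Fin n ⊕ Fin k))) | ∃ (M : Type) (_ : L.Structure M),
      Countable M ∧ Infinite M ∧ M ⊨ T ∧ ∃ x : Fin n → M, ageL (L := L) x = A}.Countable := by
  have _ : Countable (JL0 T n) := (JL0_ctbl hL hnp n).to_subtype
  have h := few_valuesL hL hnp (J := JL0 T n) (n := n)
    (fun σ M _ x => ∃ c : Fin σ.1.1 → M, tpS (L := L) (Sum.elim x c) = σ.1.2)
    (fun σ M N _ _ e x h => ext_inv σ.1.2 M N e x h) (fun σ v => meas_ext hL σ.1.2 v)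
  refine (h.image fun Z => {σ | ∃ hσ : σ ∈ JL0 T n, Z ⟨σ, hσ⟩}).mono ?_
  rintro A ⟨M, _, hc, hi, hM, x, rfl⟩
  refine ⟨_, ⟨M, _, hc, hi, hM, x, rfl⟩, ?_⟩
  ext σ
  constructor
  · rintro ⟨_, c, h⟩
    exact ⟨c, h⟩
  · rintro ⟨c, h⟩
    exact ⟨ageL_sub hc hi hM x ⟨c, h⟩, c, h⟩

variable (L) in
/-- few ages in the countable models -/
structure FewAges (T : L.Theory) : Prop where
  f3 : ∀ n : ℕ, {A : Set ((k : ℕ) × Set (L.Formula (Fin n ⊕ Fin k))) |
    ∃ (M : Type) (_ : L.Structure M), Countable M ∧ Infinite M ∧ M ⊨ T ∧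
      ∃ x : Fin n → M, ageL (L := L) x = A}.Countable
  f4 : {Θ : Set ((n : ℕ) × Set ((k : ℕ) × Set (L.Formula (Fin n ⊕ Fin k)))) |
    ∃ (M : Type) (_ : L.Structure M), Countable M ∧ Infinite M ∧ M ⊨ T ∧
      agesL L M = Θ}.Countable

/-- the ages of the countable models, as an index set -/
def JL1 (T : L.Theory) : Set ((n : ℕ) × Set ((k : ℕ) × Set (L.Formula (Fin n ⊕ Fin k)))) :=
  {σ | ∃ (M : Type) (_ : L.Structure M), Countable M ∧ Infinite M ∧ M ⊨ T ∧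
    ∃ x : Fin σ.1 → M, ageL (L := L) x = σ.2}

theorem JL1_ctbl (hL : Countable L.Symbols) (hnp : ¬ PerfT L T) : (JL1 T).Countable := by
  refine (countable_iUnion fun n : ℕ => (fewL3 hL hnp n).image fun A =>
    (⟨n, A⟩ : (n : ℕ) × Set ((k : ℕ) × Set (L.Formula (Fin n ⊕ Fin k))))).mono ?_
  rintro ⟨n, A⟩ h
  exact mem_iUnion.2 ⟨n, A, h, rfl⟩

theorem JL1_sub {σ : (n : ℕ) × Set ((k : ℕ) × Set (L.Formula (Fin n ⊕ Fin k)))}
    (h : σ ∈ JL1 T) : σ.2 ⊆ JL0 T σ.1 := by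
  obtain ⟨M, _, hc, hi, hM, x, hx⟩ := h
  rw [← hx]
  exact ageL_sub hc hi hM x

theorem ageL_iff {M : Type} [L.Structure M] (hc : Countable M) (hi : Infinite M) (hM : M ⊨ T)
    (x : Fin n → M) {A : Set ((k : ℕ) × Set (L.Formula (Fin n ⊕ Fin k)))} (hA : A ⊆ JL0 T n) :
    (∀ σ : JL0 T n, (∃ c : Fin σ.1.1 → M, tpS (L := L) (Sum.elim x c) = σ.1.2) ↔ σ.1 ∈ A) ↔
      ageL (L := L) x = A := by
  constructor
  · intro h
    ext σ
    constructor
    · intro hσ
      exact (h ⟨σ, ageL_sub hc hi hM x hσ⟩).1 hσ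
    · intro hσ
      exact (h ⟨σ, hA hσ⟩).2 hσ
  · rintro rfl σ
    exact Iff.rfl

theorem fewL4 (hL : Countable L.Symbols) (hnp : ¬ PerfT L T) :
    {Θ : Set ((n : ℕ) × Set ((k : ℕ) × Set (L.Formula (Fin n ⊕ Fin k)))) |
      ∃ (M : Type) (_ : L.Structure M), Countable M ∧ Infinite M ∧ M ⊨ T ∧
        agesL L M = Θ}.Countable := by
  have _ : Countable (JL1 T) := (JL1_ctbl hL hnp).to_subtype
  have _ : ∀ n, Countable (JL0 T n) := fun n => (JL0_ctbl hL hnp n).to_subtype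
  have h := few_valuesL hL hnp (J := JL1 T) (n := 0)
    (fun σ M _ _ => ∃ x : Fin σ.1.1 → M, ∀ τ : JL0 T σ.1.1,
        (∃ c : Fin τ.1.1 → M, tpS (L := L) (Sum.elim x c) = τ.1.2) ↔ τ.1 ∈ σ.1.2)
    (by
      rintro σ M N _ _ e - ⟨x, hx⟩
      refine ⟨e ∘ x, fun τ => ?_⟩
      rw [← hx τ]
      constructor
      · intro h
        have h1 := ext_inv τ.1.2 N M e.symm _ h
        have h2 : e.symm ∘ (e ∘ x) = x := by
          funext i
          exact e.symm_apply_apply (x i)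
        rw [h2] at h1
        exact h1
      · intro h
        exact ext_inv τ.1.2 M N e x h)
    (by
      intro σ v
      have h1 : {c : CodeF L | ∃ x : Fin σ.1.1 → ℕ, ∀ τ : JL0 T σ.1.1,
          (∃ w : Fin τ.1.1 → ℕ, @tpS L _ ℕ (strF c) (Sum.elim x w) = τ.1.2) ↔ τ.1 ∈ σ.1.2} =
          ⋃ x : Fin σ.1.1 → ℕ, ⋂ τ : JL0 T σ.1.1, {c : CodeF L |
            (∃ w : Fin τ.1.1 → ℕ, @tpS L _ ℕ (strF c) (Sum.elim x w) = τ.1.2) ↔
              τ.1 ∈ σ.1.2} := by
        ext c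
        simp only [mem_iUnion, mem_iInter, mem_setOf_eq]
      rw [h1]
      refine MeasurableSet.iUnion fun x => MeasurableSet.iInter fun τ => ?_
      by_cases hτ : τ.1 ∈ σ.1.2
      · simp only [hτ, iff_true]
        exact meas_ext hL τ.1.2 x
      · simp only [hτ, iff_false]
        exact (meas_ext hL τ.1.2 x).compl)
  refine (h.image fun Z => {σ | ∃ hσ : σ ∈ JL1 T, Z ⟨σ, hσ⟩}).mono ?_
  rintro Θ ⟨M, _, hc, hi, hM, rfl⟩
  refine ⟨_, ⟨M, _, hc, hi, hM, fun i => i.elim0, rfl⟩, ?_⟩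
  ext σ
  constructor
  · rintro ⟨hσ, x, h⟩
    exact ⟨x, (ageL_iff hc hi hM x (JL1_sub hσ)).1 h⟩
  · rintro ⟨x, h⟩
    have hσ : σ ∈ JL1 T := ⟨M, _, hc, hi, hM, x, h⟩
    exact ⟨hσ, x, (ageL_iff hc hi hM x (JL1_sub hσ)).2 h⟩

theorem fewAges_of (hL : Countable L.Symbols) (hnp : ¬ PerfT L T) : FewAges L T :=
  ⟨fewL3 hL hnp, fewL4 hL hnp⟩

end

end Pool.Agent.AFT
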