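import Pool.Agent.AFT.ElU
import Pool.Agent.AFT.FewL
import Pool.Agent.AVF.BRI

/-!
# Few types for the affine structure of `U` (helper31)
-/

set_option autoImplicit false
set_option linter.unusedSectionVars false
set_option linter.unusedVariables false

namespace Pool.Agent.AFT

open Set FirstOrder Pool.Agent.AVC Pool.Agent.AVF
open Pool.Agent.WOM (Mon IsEl PerfT)

section

variable {R : Type} [RSig R] {ι : Type}

private theorem age_iso' {M N : Type} [AddCommGroup M] [AfS R M] [AddCommGroup N] [AfS R N]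
    (e : AIe R M N) (x : ι → M) : age (R := R) N (e ∘ x) = age M x := by
  ext σ
  constructor
  · rintro ⟨c, hc⟩
    refine ⟨e.symm ∘ c, ?_⟩
    rw [← hc, ← app_iso e]
    have h1 : (e ∘ Sum.elim x (e.symm ∘ c) : ι ⊕ Fin σ.1 → N) = Sum.elim (e ∘ x) c := by
      funext i
      rcases i with i | i
      · rfl
      · exact e.apply_symm_apply (c i)
    rw [h1]
  · rintro ⟨c, hc⟩
    refine ⟨e ∘ c, ?_⟩
    rw [← hc, ← app_iso e, Sum.comp_elim]

private theorem ages_iso' {M N : Type} [AddCommGroup M] [AfS R M] [AddCommGroup N] [AfS R N]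
    (e : AIe R M N) : ages R M = ages R N := by
  ext σ
  constructor
  · rintro ⟨x, hx⟩
    exact ⟨e ∘ x, (age_iso' e x).trans hx⟩
  · rintro ⟨x, hx⟩
    refine ⟨e.symm ∘ x, ?_⟩
    rw [← age_iso' e]
    have h1 : (e ∘ (e.symm ∘ x) : Fin σ.1 → N) = x := by
      funext i
      exact e.apply_symm_apply (x i)
    rw [h1]
    exact hx

/-- the level-one type given by an age -/
private def l1A (A : Set ((k : ℕ) × Set (PP R (ι ⊕ Fin k)))) : Set (L1 R ι) :=
  {V | ∃ p : Set (PP R (ι ⊕ Fin V.1)), (⟨V.1, p⟩ : (k : ℕ) × Set (PP R (ι ⊕ Fin k))) ∈ A ∧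
    V.2 ⊆ p}

private theorem atp1_eq {M : Type} [AddCommGroup M] [AfS R M] (x : ι → M) :
    atp1 (R := R) M x = l1A (age M x) := by
  ext V
  constructor
  · rintro ⟨t, ht⟩
    exact ⟨app M (Sum.elim x t), ⟨t, rfl⟩, ht⟩
  · rintro ⟨p, ⟨t, ht⟩, hV⟩
    refine ⟨t, fun φ hφ => ?_⟩
    have h1 := hV hφ
    have h2 : app M (Sum.elim x t) = p := ht
    rw [← h2] at h1
    exact h1

private theorem areal1_eq {M : Type} [AddCommGroup M] [AfS R M] : areal1 (R := R) M =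
    (fun σ : (n : ℕ) × Set ((k : ℕ) × Set (PP R (Fin n ⊕ Fin k))) =>
      (⟨σ.1, l1A σ.2⟩ : (n : ℕ) × Set (L1 R (Fin n)))) '' ages R M := by
  ext τ
  constructor
  · rintro ⟨x, hx⟩
    refine ⟨⟨τ.1, age M x⟩, ⟨x, rfl⟩, ?_⟩
    show (⟨τ.1, l1A (age M x)⟩ : (n : ℕ) × Set (L1 R (Fin n))) = τ
    rw [← atp1_eq, hx]
  · rintro ⟨⟨n, A⟩, ⟨x, hx⟩, rfl⟩
    refine ⟨x, ?_⟩
    show atp1 M x = l1A A
    have hx' : age M x = A := hx
    rw [atp1_eq, hx']

end

section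

variable {L : FirstOrder.Language.{0, 0}} {add : L.Formula (Fin 3)} {ι κ : Type}
  [Countable L.Symbols] {U : Type} [L.Structure U] [AddCommGroup U]

/-- the translation of a type -/
private def trA (hadd : IsAdd add U) {α β : Type} (f : α → β) (p : Set (L.Formula β)) :
    Set (PP (ZU L U) α) := {φ | (foU hadd φ).relabel f ∈ p}

/-- the age of a tuple in an elementary substructure and in the structure on `ℕ` -/
private theorem age_pull (hadd : IsAdd add U) {N : Submodule (ZU L U) (UA L U)}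
    (hN : El (UA L U) N) {u : ℕ → U} {S : L.Structure ℕ} (hr : range u = {x : U | x ∈ N})
    (hS : ∀ (α : Type) [Finite α] (φ : L.Formula α) (a : α → ℕ),
      @FirstOrder.Language.Formula.Realize L ℕ S α φ a ↔ φ.Realize (u ∘ a))
    [Finite ι] {n : ℕ} (g : ι ≃ Fin n) (x : ι → N) (x' : Fin n → ℕ)
    (hx : ∀ i, u (x' (g i)) = (x i : UA L U)) :
    age (R := ZU L U) N x = (fun σ : (k : ℕ) × Set (L.Formula (Fin n ⊕ Fin k)) =>
      (⟨σ.1, trA hadd (Sum.map g id) σ.2⟩ : (k : ℕ) × Set (PP (ZU L U) (ι ⊕ Fin k)))) ''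
        (@ageL L (Fin n) ℕ S x') := by
  -- the type of a pair
  have key : ∀ (k : ℕ) (c : Fin k → N) (c' : Fin k → ℕ), (∀ i, u (c' i) = (c i : UA L U)) →
      app (R := ZU L U) N (Sum.elim x c) =
        trA hadd (Sum.map g id) (@tpS L _ ℕ S (Sum.elim x' c')) := by
    intro k c c' hc
    rw [el_app hN]
    ext φ
    have h1 : φ ∈ trA hadd (Sum.map g id) (@tpS L _ ℕ S (Sum.elim x' c')) ↔
        FirstOrder.Language.Formula.Realize ((foU hadd φ).relabel (Sum.map g id))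
          (u ∘ Sum.elim x' c') := hS _ _ _
    rw [h1, FirstOrder.Language.Formula.realize_relabel, foU_iff]
    have h2 : ((u ∘ Sum.elim x' c') ∘ Sum.map g id : ι ⊕ Fin k → U) =
        fun i => ((Sum.elim x c i : N) : UA L U) := by
      funext i
      rcases i with i | i
      · exact hx i
      · exact hc i
    rw [h2]
    exact Iff.rfl
  ext ⟨k, p⟩
  constructor
  · rintro ⟨c, hc⟩
    have h1 : ∀ i, ∃ m, u m = ((c i : N) : UA L U) := fun i => by
      have h2 : ((c i : N) : UA L U) ∈ range u := by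
        rw [hr]
        exact (c i).2
      exact h2
    choose c' hc' using h1
    refine ⟨⟨k, @tpS L _ ℕ S (Sum.elim x' c')⟩, ⟨c', rfl⟩, ?_⟩
    show (⟨k, trA hadd (Sum.map g id) (@tpS L _ ℕ S (Sum.elim x' c'))⟩ :
      (k : ℕ) × Set (PP (ZU L U) (ι ⊕ Fin k))) = ⟨k, p⟩
    have hc2 : app (R := ZU L U) N (Sum.elim x c) = p := hc
    rw [← key k c c' hc', hc2]
  · rintro ⟨⟨k', q⟩, ⟨c', hc'⟩, h⟩
    obtain ⟨rfl, h2⟩ := Sigma.mk.inj_iff.1 h
    have h3 := eq_of_heq h2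
    have h1 : ∀ i, u (c' i) ∈ N := fun i => by
      have h2 : u (c' i) ∈ {x : U | x ∈ N} := by
        rw [← hr]
        exact mem_range_self _
      exact h2
    refine ⟨fun i => ⟨u (c' i), h1 i⟩, ?_⟩
    show app (R := ZU L U) N (Sum.elim x fun i => ⟨u (c' i), h1 i⟩) = p
    rw [key _ _ c' (fun i => rfl), ← h3]
    have hc2 : @tpS L _ ℕ S (Sum.elim x' c') = q := hc'
    rw [hc2]

/-- **few types** -/
theorem fewT_of (hM : Mon L U) (hadd : IsAdd add U) (hB : BCos L U)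
    (hfew : FewAges L (L.completeTheory U)) : FewT (ZU L U) (UA L U) := by
  classical
  have _ : Countable U := hM.ctb
  have _ : Infinite U := hM.inf
  have hU := monA_of_mon hM hadd
  -- ages
  have f3 : ∀ (ι : Type) [Finite ι], {A : Set ((k : ℕ) × Set (PP (ZU L U) (ι ⊕ Fin k))) |
      ∃ M : Ad (ZU L U), InK (UA L U) M ∧ ∃ a : ι → M, age M a = A}.Countable := by
    intro ι _
    obtain ⟨n, ⟨g⟩⟩ := Finite.exists_equiv_fin ι
    refine ((hfew.f3 n).image fun A =>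
      (fun σ : (k : ℕ) × Set (L.Formula (Fin n ⊕ Fin k)) =>
        (⟨σ.1, trA hadd (Sum.map g id) σ.2⟩ : (k : ℕ) × Set (PP (ZU L U) (ι ⊕ Fin k)))) ''
          A).mono ?_
    rintro A ⟨M, ⟨N, hN, ⟨e⟩⟩, a, rfl⟩
    obtain ⟨u, S, hu, hr, hSM, hS⟩ := exists_pull (isEl_of_el hM hadd hB hN)
    have h1 : ∀ i : ι, ∃ m, u m = ((e (a i) : N) : UA L U) := fun i => by
      have h2 : ((e (a i) : N) : UA L U) ∈ range u := by
        rw [hr]
        exact (e (a i)).2
      exact h2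
    choose a' ha' using h1
    refine ⟨@ageL L (Fin n) ℕ S (a' ∘ g.symm), ⟨ℕ, S, inferInstance, inferInstance, hSM,
      a' ∘ g.symm, rfl⟩, ?_⟩
    rw [← age_iso' e a]
    refine (age_pull hadd hN hr hS g (e ∘ a) (a' ∘ g.symm) fun i => ?_).symm
    show u (a' (g.symm (g i))) = _
    rw [g.symm_apply_apply]
    exact ha' i
  -- sets of ages
  have f4 : {Θ : Set ((n : ℕ) × Set ((k : ℕ) × Set (PP (ZU L U) (Fin n ⊕ Fin k)))) |
      ∃ M : Ad (ZU L U), InK (UA L U) M ∧ ages (ZU L U) M = Θ}.Countable := by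
    refine (hfew.f4.image fun Θ =>
      (fun τ : (n : ℕ) × Set ((k : ℕ) × Set (L.Formula (Fin n ⊕ Fin k))) =>
        (⟨τ.1, (fun σ : (k : ℕ) × Set (L.Formula (Fin τ.1 ⊕ Fin k)) =>
          (⟨σ.1, trA hadd (Sum.map (Equiv.refl (Fin τ.1)) id) σ.2⟩ :
            (k : ℕ) × Set (PP (ZU L U) (Fin τ.1 ⊕ Fin k)))) '' τ.2⟩ :
          (n : ℕ) × Set ((k : ℕ) × Set (PP (ZU L U) (Fin n ⊕ Fin k))))) '' Θ).mono ?_
    rintro Θ ⟨M, ⟨N, hN, ⟨e⟩⟩, rfl⟩
    obtain ⟨u, S, hu, hr, hSM, hS⟩ := exists_pull (isEl_of_el hM hadd hB hN)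
    refine ⟨@agesL L ℕ S, ⟨ℕ, S, inferInstance, inferInstance, hSM, rfl⟩, ?_⟩
    rw [ages_iso' e]
    ext ⟨n, A⟩
    constructor
    · rintro ⟨⟨n', B⟩, ⟨x', hx'⟩, h⟩
      obtain ⟨rfl, h2⟩ := Sigma.mk.inj_iff.1 h
      have h3 := eq_of_heq h2
      have h1 : ∀ i, u (x' i) ∈ N := fun i => by
        have h2 : u (x' i) ∈ {x : U | x ∈ N} := by
          rw [← hr]
          exact mem_range_self _
        exact h2
      refine ⟨fun i => ⟨u (x' i), h1 i⟩, ?_⟩
      show age (R := ZU L U) N (fun i => ⟨u (x' i), h1 i⟩) = A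
      rw [age_pull hadd hN hr hS (Equiv.refl (Fin n')) _ x' (fun i => rfl), ← h3]
      have hx2 : @ageL L _ ℕ S x' = B := hx'
      rw [hx2]
    · rintro ⟨x, hx⟩
      have h1 : ∀ i, ∃ m, u m = ((x i : N) : UA L U) := fun i => by
        have h2 : ((x i : N) : UA L U) ∈ range u := by
          rw [hr]
          exact (x i).2
        exact h2
      choose x' hx' using h1
      refine ⟨⟨n, @ageL L (Fin n) ℕ S x'⟩, ⟨x', rfl⟩, ?_⟩
      have hx2 : age (R := ZU L U) N x = A := hx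
      rw [age_pull hadd hN hr hS (Equiv.refl (Fin n)) x x' hx'] at hx2
      show (⟨n, _⟩ : (n : ℕ) × Set ((k : ℕ) × Set (PP (ZU L U) (Fin n ⊕ Fin k)))) = ⟨n, A⟩
      rw [← hx2]
  refine ⟨?_, ?_, ?_, f3, f4⟩
  · intro ι _
    refine (countable_range fun a : ι → U => app (R := ZU L U) (UA L U) a).mono ?_
    rintro p ⟨M, ⟨N, hN, ⟨e⟩⟩, x, rfl⟩
    refine ⟨fun i => ((e (x i) : N) : UA L U), ?_⟩
    rw [← app_iso e x, el_app hN]
    rfl
  · intro ι _
    refine ((f3 ι).image l1A).mono ?_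
    rintro τ ⟨M, hM', x, rfl⟩
    exact ⟨age M x, ⟨M, hM', x, rfl⟩, (atp1_eq x).symm⟩
  · refine (f4.image fun Θ => (fun σ : (n : ℕ) × Set ((k : ℕ) × Set (PP (ZU L U)
      (Fin n ⊕ Fin k))) => (⟨σ.1, l1A σ.2⟩ : (n : ℕ) × Set (L1 (ZU L U) (Fin n)))) '' Θ).mono ?_
    rintro Θ ⟨M, hM', rfl⟩
    exact ⟨ages (ZU L U) M, ⟨M, hM', rfl⟩, areal1_eq.symm⟩

end

end Pool.Agent.AFT
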