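import Mathlib

/-!
# The final statement of the affine form (helper79, editor)

`St_FIN` is the theorem which is handed in.  The hypothesis is only about the models of `T` on `ℕ`; no symbol for the
addition is required, only that its graph is definable without parameters.
-/

set_option autoImplicit false

namespace Pool.Agent.AFT

open FirstOrder.Language

/-- The dichotomy of S14759 for the theory `T`: its models on `ℕ` fall into countably many isomorphism
classes, or a continuous map from Cantor space to these models has pairwise nonisomorphic values. -/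
def Dich (L : FirstOrder.Language.{0, 0}) (T : L.Theory) : Prop :=
  (∃ g : ℕ → L.Structure ℕ, ∀ S : L.Structure ℕ,
      @FirstOrder.Language.Theory.Model L ℕ S T →
        ∃ n : ℕ, Nonempty (@FirstOrder.Language.Equiv L ℕ ℕ S (g n))) ∨
  (∃ f : (ℕ → Bool) → L.Structure ℕ,
      (∀ x : ℕ → Bool, @FirstOrder.Language.Theory.Model L ℕ (f x) T) ∧
      (∀ x y : ℕ → Bool,
          Nonempty (@FirstOrder.Language.Equiv L ℕ ℕ (f x) (f y)) → x = y) ∧
      (∀ (n : ℕ) (R : L.Relations n) (a : Fin n → ℕ),
          IsClopen {x : ℕ → Bool | @FirstOrder.Language.Structure.RelMap L ℕ (f x) n R a}) ∧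
      (∀ (n : ℕ) (F : L.Functions n) (a : Fin n → ℕ) (b : ℕ),
          IsOpen {x : ℕ → Bool | @FirstOrder.Language.Structure.funMap L ℕ (f x) n F a = b}))

/-- `D` is a Boolean combination of cosets of subgroups of `M^n` which are definable without
parameters: `D` is a union of classes of the equivalence relation given by finitely many sets `C j`
definable without parameters and closed under `x - y + z`. -/
def IsBoolCosets (L : FirstOrder.Language.{0, 0}) {M : Type} [L.Structure M] [AddCommGroup M]
    {n : ℕ} (D : Set (Fin n → M)) : Prop :=
  ∃ (m : ℕ) (C : Fin m → Set (Fin n → M)),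
    (∀ j, (∅ : Set M).Definable L (C j) ∧
      ∀ x ∈ C j, ∀ y ∈ C j, ∀ z ∈ C j, x - y + z ∈ C j) ∧
    ∀ x y : Fin n → M, (∀ j, x ∈ C j ↔ y ∈ C j) → (x ∈ D ↔ y ∈ D)

/-- `M` is an affine structure: for some abelian group operation `+` on `M`, with a graph definable
without parameters, all basic relations and the graphs of all basic functions of `M` are Boolean
combinations of cosets definable without parameters. -/
def IsAffine (L : FirstOrder.Language.{0, 0}) (M : Type) [L.Structure M] : Prop :=
  ∃ _ : AddCommGroup M,
    (∅ : Set M).Definable L {v : Fin 3 → M | v 0 + v 1 = v 2} ∧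
    (∀ (n : ℕ) (R : L.Relations n), IsBoolCosets L {x : Fin n → M | Structure.RelMap R x}) ∧
    ∀ (n : ℕ) (F : L.Functions n),
      IsBoolCosets L {x : Fin (n + 1) → M | Structure.funMap F (Fin.init x) = x (Fin.last n)}

/-- THE THEOREM: Vaught's conjecture for all theories of affine structures. -/
def St_FIN : Prop :=
  ∀ (L : FirstOrder.Language.{0, 0}), Countable L.Symbols → ∀ (T : L.Theory),
    (∀ S : L.Structure ℕ, @FirstOrder.Language.Theory.Model L ℕ S T → @IsAffine L ℕ S) →
    Dich L T

end Pool.Agent.AFT
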