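import Pool.Agent.AFT.FO
import Pool.Agent.AFT.StFin

/-!
# Definable abelian group operations in elementarily equivalent structures (helper79)
-/

set_option autoImplicit false

namespace Pool.Agent.AFT

open Set FirstOrder FirstOrder.Language

section

variable {L : FirstOrder.Language.{0, 0}}

private theorem GRP_s {α : Type} (s : L.Formula (Fin 3)) (i j k : α) :
    IsFO (L := L) (fun M _ (x : α → M) => s.Realize ![x i, x j, x k]) :=
  ((isFO_formula s).comap ![i, j, k]).congr fun M _ x => by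
    have : x ∘ ![i, j, k] = ![x i, x j, x k] := by
      funext a
      fin_cases a <;> rfl
    rw [this]

/-- If `s` defines the graph of an abelian group operation in `M` then it defines one in every
structure which is elementarily equivalent to `M`. -/
theorem GRP_ex {M N : Type} [L.Structure M] [L.Structure N] (h : L.ElementarilyEquivalent M N)
    [AddCommGroup M] (s : L.Formula (Fin 3))
    (hs : ∀ v : Fin 3 → M, s.Realize v ↔ v 0 + v 1 = v 2) :
    ∃ _ : AddCommGroup N, ∀ v : Fin 3 → N, s.Realize v ↔ v 0 + v 1 = v 2 := by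
  have hs' : ∀ a b c : M, s.Realize ![a, b, c] ↔ a + b = c := fun a b c => hs ![a, b, c]
  -- total
  have h1 : ∀ x : Fin 2 → N, ∃ z : Fin 1 → N, s.Realize ![x 0, x 1, z 0] :=
    (IsFO.ex' (L := L) (α := Fin 2) (β := Fin 1) (fun M _ x z => s.Realize ![x 0, x 1, z 0])
      (GRP_s s (Sum.inl 0) (Sum.inl 1) (Sum.inr 0))).transfer_all h
      fun x => ⟨![x 0 + x 1], (hs' _ _ _).2 rfl⟩
  -- functional
  have h2 : ∀ x : Fin 4 → N, s.Realize ![x 0, x 1, x 2] → s.Realize ![x 0, x 1, x 3] →
      x 2 = x 3 :=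
    ((GRP_s (α := Fin 4) s 0 1 2).imp ((GRP_s s 0 1 3).imp (isFO_eq_var 2 3))).transfer_all h
      fun x hx hy => ((hs' _ _ _).1 hx).symm.trans ((hs' _ _ _).1 hy)
  -- zero
  have h3 : ∃ x : Fin 1 → N, ∀ y : Fin 1 → N, s.Realize ![x 0, y 0, y 0] :=
    (IsFO.all' (L := L) (α := Fin 1) (β := Fin 1) (fun M _ x y => s.Realize ![x 0, y 0, y 0])
      (GRP_s s (Sum.inl 0) (Sum.inr 0) (Sum.inr 0))).transfer_ex h
      ⟨![0], fun y => (hs' _ _ _).2 (zero_add _)⟩
  -- inverse
  have h4 : ∀ x : Fin 2 → N, (∀ y : Fin 1 → N, s.Realize ![x 1, y 0, y 0]) →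
      ∃ z : Fin 1 → N, s.Realize ![z 0, x 0, x 1] :=
    ((IsFO.all' (L := L) (α := Fin 2) (β := Fin 1) (fun M _ x y => s.Realize ![x 1, y 0, y 0])
      (GRP_s s (Sum.inl 1) (Sum.inr 0) (Sum.inr 0))).imp
      (IsFO.ex' (L := L) (α := Fin 2) (β := Fin 1) (fun M _ x z => s.Realize ![z 0, x 0, x 1])
        (GRP_s s (Sum.inr 0) (Sum.inl 0) (Sum.inl 1)))).transfer_all h
      fun x hx => by
        have h0 : x 1 = 0 := by
          have := (hs' _ _ _).1 (hx ![0])
          simpa using this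
        exact ⟨![-x 0], (hs' _ _ _).2 (by rw [h0]; exact neg_add_cancel _)⟩
  -- associativity
  have h5 : ∀ x : Fin 7 → N, s.Realize ![x 0, x 1, x 3] → s.Realize ![x 3, x 2, x 4] →
      s.Realize ![x 1, x 2, x 5] → s.Realize ![x 0, x 5, x 6] → x 4 = x 6 :=
    ((GRP_s (α := Fin 7) s 0 1 3).imp ((GRP_s s 3 2 4).imp ((GRP_s s 1 2 5).imp
      ((GRP_s s 0 5 6).imp (isFO_eq_var 4 6))))).transfer_all h
      fun x ha hb hc hd => by
        rw [← (hs' _ _ _).1 hb, ← (hs' _ _ _).1 ha, ← (hs' _ _ _).1 hd, ← (hs' _ _ _).1 hc,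
          add_assoc]
  -- commutativity
  have h6 : ∀ x : Fin 3 → N, s.Realize ![x 0, x 1, x 2] → s.Realize ![x 1, x 0, x 2] :=
    ((GRP_s (α := Fin 3) s 0 1 2).imp (GRP_s s 1 0 2)).transfer_all h
      fun x hx => (hs' _ _ _).2 (by rw [add_comm]; exact (hs' _ _ _).1 hx)
  have f1 : ∀ a b : N, ∃ c, s.Realize ![a, b, c] := fun a b => by
    obtain ⟨z, hz⟩ := h1 ![a, b]
    exact ⟨z 0, hz⟩
  choose ad had using f1
  have f2 : ∀ a b c : N, s.Realize ![a, b, c] → ad a b = c := fun a b c hc =>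
    h2 ![a, b, ad a b, c] (had a b) hc
  obtain ⟨z, hz⟩ := h3
  have f3 : ∀ b : N, s.Realize ![z 0, b, b] := fun b => hz ![b]
  have f4 : ∀ a : N, ∃ b : N, s.Realize ![b, a, z 0] := fun a => by
    obtain ⟨y, hy⟩ := h4 ![a, z 0] fun y => hz y
    exact ⟨y 0, hy⟩
  choose ng hng using f4
  have f6 : ∀ a b : N, ad a b = ad b a := fun a b =>
    f2 _ _ _ (h6 ![b, a, ad b a] (had b a))
  have f5 : ∀ a b c : N, ad (ad a b) c = ad a (ad b c) := fun a b c =>
    h5 ![a, b, c, ad a b, ad (ad a b) c, ad b c, ad a (ad b c)] (had _ _) (had _ _) (had _ _)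
      (had _ _)
  let iA : Add N := ⟨ad⟩
  let iZ : Zero N := ⟨z 0⟩
  let iN : Neg N := ⟨ng⟩
  let G : AddGroup N := AddGroup.ofLeftAxioms f5 (fun a => f2 _ _ _ (f3 a))
    (fun a => f2 _ _ _ (hng a))
  let H : AddCommGroup N := { G with add_comm := f6 }
  refine ⟨H, fun v => ?_⟩
  have hv : v = ![v 0, v 1, v 2] := by
    funext a
    fin_cases a <;> rfl
  constructor
  · intro hh
    rw [hv] at hh
    exact f2 _ _ _ hh
  · intro hh
    rw [hv]
    have h7 : ad (v 0) (v 1) = v 2 := hh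
    have := had (v 0) (v 1)
    rwa [h7] at this

/-- the hypothesis of the final statement does not depend on the carrier -/
theorem GRP_tr {M N : Type} [L.Structure M] [L.Structure N] (e : M ≃[L] N) (h : IsAffine L M) :
    IsAffine L N := by
  obtain ⟨g, h1, h2, h3⟩ := h
  let gN : AddCommGroup N := e.symm.toEquiv.addCommGroup
  -- the map `e` is additive
  have hadd : ∀ x y : N, e.symm (x + y) = e.symm x + e.symm y := fun x y =>
    (Equiv.addEquiv e.symm.toEquiv).map_add x y
  have hsub : ∀ x y : N, e.symm (x - y) = e.symm x - e.symm y := fun x y =>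
    (AddEquivClass.toAddEquiv (Equiv.addEquiv e.symm.toEquiv)).map_sub x y
  -- definable sets
  have hdef : ∀ {n : ℕ} {D : Set (Fin n → M)}, (∅ : Set M).Definable L D →
      (∅ : Set N).Definable L {x : Fin n → N | (fun i => e.symm (x i)) ∈ D} := by
    intro n D hD
    obtain ⟨φ, hφ⟩ := Set.empty_definable_iff.1 hD
    refine Set.empty_definable_iff.2 ⟨φ, ?_⟩
    subst hφ
    ext x
    exact StrongHomClass.realize_formula e.symm φ
  have hbc : ∀ {n : ℕ} {D : Set (Fin n → M)}, IsBoolCosets L D →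
      IsBoolCosets L {x : Fin n → N | (fun i => e.symm (x i)) ∈ D} := by
    intro n D hD
    obtain ⟨m, C, hC, hD⟩ := hD
    refine ⟨m, fun j => {x : Fin n → N | (fun i => e.symm (x i)) ∈ C j},
      fun j => ⟨hdef (hC j).1, fun x hx y hy z hz => ?_⟩, fun x y hxy => hD _ _ hxy⟩
    have := (hC j).2 _ hx _ hy _ hz
    have h4 : (fun i => e.symm ((x - y + z) i)) = (fun i => e.symm (x i)) - (fun i => e.symm (y i)) +
        (fun i => e.symm (z i)) := by
      funext i
      simp only [Pi.add_apply, Pi.sub_apply, hadd, hsub]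
    show (fun i => e.symm ((x - y + z) i)) ∈ C j
    rw [h4]
    exact this
  refine ⟨gN, ?_, fun n R => ?_, fun n F => ?_⟩
  · convert hdef h1 using 1
    ext v
    show v 0 + v 1 = v 2 ↔ e.symm (v 0) + e.symm (v 1) = e.symm (v 2)
    rw [← hadd]
    exact (e.symm.injective.eq_iff).symm
  · convert hbc (h2 n R) using 1
    ext x
    exact (StrongHomClass.map_rel e.symm R x).symm
  · convert hbc (h3 n F) using 1
    ext x
    show Structure.funMap F (Fin.init x) = x (Fin.last n) ↔
      Structure.funMap F (Fin.init fun i => e.symm (x i)) = e.symm (x (Fin.last n))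
    have h5 : e.symm (Structure.funMap F (Fin.init x)) =
        Structure.funMap F (Fin.init fun i => e.symm (x i)) := e.symm.map_fun F _
    rw [← h5]
    exact (e.symm.injective.eq_iff).symm

end

end Pool.Agent.AFT
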