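import Pool.Agent.AFT.FewU
import Pool.Agent.AFT.GRP

/-!
# From the theorem for saturated affine structures to all theories of affine structures (helper31)
-/

set_option autoImplicit false
set_option linter.unusedSectionVars false
set_option linter.unusedVariables false

namespace Pool.Agent.AFT

open Set FirstOrder Pool.Agent.AVC Pool.Agent.AVF
open Pool.Agent.WOM (Mon IsEl PerfT CtT)

section

variable {L : FirstOrder.Language.{0, 0}}

/-- bijections which preserve all formulas are isomorphisms -/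
theorem equiv_of_formula {M N : Type} [L.Structure M] [L.Structure N] (σ : M ≃ N)
    (h : ∀ (n : ℕ) (φ : L.Formula (Fin n)) (a : Fin n → M), φ.Realize a ↔ φ.Realize (σ ∘ a)) :
    Nonempty (L.Equiv M N) := by
  refine ⟨{ toEquiv := σ, map_fun' := ?_, map_rel' := ?_ }⟩
  · intro n F x
    have h1 := h (n + 1) (FirstOrder.Language.Formula.graph F)
      (Fin.cons (FirstOrder.Language.Structure.funMap F x) x : Fin (n + 1) → M)
    have h2 := h1.1 (FirstOrder.Language.Formula.realize_graph.2 rfl)
    have h3 : (σ ∘ (Fin.cons (FirstOrder.Language.Structure.funMap F x) x : Fin (n + 1) → M)) =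
        (Fin.cons (σ (FirstOrder.Language.Structure.funMap F x)) (σ ∘ x) : Fin (n + 1) → N) := by
      funext i
      refine Fin.cases rfl (fun i => rfl) i
    rw [h3] at h2
    exact (FirstOrder.Language.Formula.realize_graph.1 h2).symm
  · intro n r x
    have h1 := h n (r.formula fun i => FirstOrder.Language.Term.var i) x
    rw [FirstOrder.Language.Formula.realize_rel, FirstOrder.Language.Formula.realize_rel] at h1
    exact h1.symm

end

section

variable {L : FirstOrder.Language.{0, 0}} {add : L.Formula (Fin 3)}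
  [Countable L.Symbols] {U : Type} [L.Structure U] [AddCommGroup U]

/-- isomorphic substructures have isomorphic structures on `ℕ` -/
theorem equiv_of_aie (hM : Mon L U) (hadd : IsAdd add U) (hB : BCos L U)
    {N N' : Submodule (ZU L U) (UA L U)} (hN : El (UA L U) N) (hN' : El (UA L U) N')
    (e : AIe (ZU L U) N N') {u u' : ℕ → U} (hu : Function.Injective u)
    (hu' : Function.Injective u') (hr : range u = {x : U | x ∈ N})
    (hr' : range u' = {x : U | x ∈ N'}) (S S' : L.Structure ℕ)
    (hS : ∀ (α : Type) [Finite α] (φ : L.Formula α) (a : α → ℕ),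
      @FirstOrder.Language.Formula.Realize L ℕ S α φ a ↔ φ.Realize (u ∘ a))
    (hS' : ∀ (α : Type) [Finite α] (φ : L.Formula α) (a : α → ℕ),
      @FirstOrder.Language.Formula.Realize L ℕ S' α φ a ↔ φ.Realize (u' ∘ a)) :
    Nonempty (@FirstOrder.Language.Equiv L ℕ ℕ S S') := by
  have hm : ∀ m, u m ∈ N := fun m => by
    have h2 : u m ∈ {x : U | x ∈ N} := by
      rw [← hr]
      exact mem_range_self _
    exact h2
  have hm' : ∀ m, u' m ∈ N' := fun m => by
    have h2 : u' m ∈ {x : U | x ∈ N'} := by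
      rw [← hr']
      exact mem_range_self _
    exact h2
  let f : ℕ → N := fun m => ⟨u m, hm m⟩
  let f' : ℕ → N' := fun m => ⟨u' m, hm' m⟩
  have hf : Function.Bijective f := by
    refine ⟨fun i j h => hu (congrArg Subtype.val h), ?_⟩
    rintro ⟨x, hx⟩
    have hx' : x ∈ range u := by
      rw [hr]
      exact hx
    obtain ⟨m, hm⟩ := hx'
    exact ⟨m, Subtype.ext hm⟩
  have hf' : Function.Bijective f' := by
    refine ⟨fun i j h => hu' (congrArg Subtype.val h), ?_⟩
    rintro ⟨x, hx⟩
    have hx' : x ∈ range u' := by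
      rw [hr']
      exact hx
    obtain ⟨m, hm⟩ := hx'
    exact ⟨m, Subtype.ext hm⟩
  let F := Equiv.ofBijective f hf
  let F' := Equiv.ofBijective f' hf'
  let E : N ≃ N' := EquivLike.toEquiv e
  let σ : ℕ ≃ ℕ := (F.trans E).trans F'.symm
  have hσ : ∀ m, f' (σ m) = e (f m) := fun m => F'.apply_symm_apply (E (F m))
  refine @equiv_of_formula L ℕ ℕ S S' σ fun n φ a => ?_
  rw [hS, hS']
  have h1 : app (R := ZU L U) (UA L U) (fun i => ((f (a i) : N) : UA L U)) =
      app (UA L U) (fun i => ((f' (σ (a i)) : N') : UA L U)) := by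
    rw [← el_app hN, ← el_app hN', ← app_iso e]
    have h2 : (e ∘ fun i => f (a i)) = fun i => f' (σ (a i)) := by
      funext i
      exact (hσ (a i)).symm
    rw [h2]
  have h3 : tpS (L := L) (u ∘ a) = tpS (u' ∘ (σ ∘ a)) := tp_of_app hM hadd hB h1
  have h4 : φ ∈ tpS (L := L) (u ∘ a) ↔ φ ∈ tpS (L := L) (u' ∘ (σ ∘ a)) := by rw [h3]
  exact h4

/-- countably many structures in the class, countably many models -/
theorem ctT_of_ctK (hM : Mon L U) (hadd : IsAdd add U) (hB : BCos L U)
    (h : CtK (ZU L U) (UA L U)) : CtT L (L.completeTheory U) := by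
  classical
  have _ : Countable U := hM.ctb
  have _ : Infinite U := hM.inf
  obtain ⟨M, hMl⟩ := h
  -- the list
  have h1 : ∀ n : ℕ, ∃ S : L.Structure ℕ, ∀ N : Submodule (ZU L U) (UA L U), El (UA L U) N →
      Nonempty (AIe (ZU L U) N (M n)) → ∃ (N' : Submodule (ZU L U) (UA L U)) (u : ℕ → U),
        El (UA L U) N' ∧ Nonempty (AIe (ZU L U) N N') ∧ Function.Injective u ∧
          range u = {x : U | x ∈ N'} ∧ ∀ (α : Type) [Finite α] (φ : L.Formula α) (a : α → ℕ),
            @FirstOrder.Language.Formula.Realize L ℕ S α φ a ↔ φ.Realize (u ∘ a) := by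
    intro n
    by_cases hn : ∃ N : Submodule (ZU L U) (UA L U), El (UA L U) N ∧
        Nonempty (AIe (ZU L U) N (M n))
    · obtain ⟨N', hN', ⟨e'⟩⟩ := hn
      obtain ⟨u, S, hu, hr, hSM, hS⟩ := exists_pull (isEl_of_el hM hadd hB hN')
      exact ⟨S, fun N hN ⟨e⟩ => ⟨N', u, hN', ⟨e.trans e'.symm⟩, hu, hr, hS⟩⟩
    · refine ⟨(nonempty_equiv_of_countable (α := U) (β := ℕ)).some.inducedStructure,
        fun N hN he => absurd ⟨N, hN, he⟩ hn⟩
  choose g hg using h1
  refine ⟨g, fun S hSM => ?_⟩
  obtain ⟨f, hf, hfE, hfF⟩ := @exists_emb L U _ hM ℕ S inferInstance hSM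
  obtain ⟨N, hNf, hN⟩ := el_of_isEl hadd hfE
  obtain ⟨n, ⟨e⟩⟩ := hMl ⟨N⟩ ⟨N, hN, ⟨AIe.refl _ _⟩⟩
  obtain ⟨N', u, hN', ⟨e'⟩, hu, hr, hS⟩ := hg n N hN ⟨e⟩
  exact ⟨n, equiv_of_aie hM hadd hB hN hN' e' hf hu hNf.symm hr S (g n)
    (fun α _ φ a => hfF α φ a) hS⟩

end

/-- **the final reduction**: the theorem for the saturated affine structures implies the theorem for
all theories of affine structures -/
theorem thm_FIN (h : St_CUA) : St_FIN := by
  intro L hL T hT
  have h1 := top_reduce L hL T (fun U _ hM hUT hnp => by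
    have _ : Countable U := hM.ctb
    have _ : Infinite U := hM.inf
    obtain ⟨e⟩ : Nonempty (U ≃ ℕ) := nonempty_equiv_of_countable
    let S : L.Structure ℕ := e.inducedStructure
    let E : L.Equiv U ℕ := e.inducedStructureEquiv
    have hST : @FirstOrder.Language.Theory.Model L ℕ S T := by
      have h1 : L.ElementarilyEquivalent U ℕ :=
        FirstOrder.Language.StrongHomClass.elementarilyEquivalent E
      exact h1.theory_model
    have h2 : @IsAffine L ℕ S := hT S hST
    obtain ⟨grp, h3, h4, h5⟩ := GRP_tr E.symm h2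
    obtain ⟨add, hadd⟩ := Set.empty_definable_iff.1 h3
    have hadd' : IsAdd add U := by
      intro v
      have h6 : v ∈ {v : Fin 3 → U | v 0 + v 1 = v 2} ↔ add.Realize v := by
        rw [hadd]
        exact Iff.rfl
      exact h6.symm
    have hB : BCos L U := ⟨h4, h5⟩
    exact ctT_of_ctK hM hadd' hB (h (ZU L U) (UA L U) (monA_of_mon hM hadd')
      (fewT_of hM hadd' hB (fewAges_of hL hnp))))
  exact h1

end Pool.Agent.AFT
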