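import Pool.Agent.AFT.StGrp

/-!
# Groups with an abelian subgroup of finite index: a definable abelian group operation (helper79)

`aff_of_G : IsAffineG L M → IsAffineP L M`.  Let `N` be the commutative subgroup, `q.out` (`q ∈ M ⧸ N`)
representatives of the left cosets.  `(q.out a) + (q'.out b) := (q + q').out a b`, for a cyclic group structure on
the finite set `M ⧸ N`.  A set closed under `x y⁻¹ z` is the finite union of its pieces in the products of
left cosets, and on such a piece `x y⁻¹ z = x - y + z`.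
-/

set_option autoImplicit false

namespace Pool.Agent.AFT

open Set FirstOrder FirstOrder.Language

section

variable {M : Type} [Group M] (N : Subgroup M) {k : ℕ} (e : (M ⧸ N) ≃ Fin (k + 1))

private theorem out_mem (x : M) : (QuotientGroup.mk x : M ⧸ N).out⁻¹ * x ∈ N := by
  rw [← QuotientGroup.eq]
  exact Quotient.out_eq _

private theorem mk_out_mul (q : M ⧸ N) (a : M) (ha : a ∈ N) :
    (QuotientGroup.mk (q.out * a) : M ⧸ N) = q := by
  rw [QuotientGroup.mk_mul_of_mem _ ha]
  exact Quotient.out_eq q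

/-- the parametrisation of `M` -/
private noncomputable def bet : M ≃ Fin (k + 1) × Additive N where
  toFun x := (e (QuotientGroup.mk x), Additive.ofMul ⟨_, out_mem N x⟩)
  invFun p := (e.symm p.1).out * ((Additive.toMul p.2 : N) : M)
  left_inv x := by
    show (e.symm (e (QuotientGroup.mk x))).out * ((QuotientGroup.mk x : M ⧸ N).out⁻¹ * x) = x
    rw [Equiv.symm_apply_apply, mul_inv_cancel_left]
  right_inv p := by
    obtain ⟨i, a⟩ := p
    have h1 : (QuotientGroup.mk ((e.symm i).out * ((Additive.toMul a : N) : M)) : M ⧸ N) =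
        e.symm i := mk_out_mul N _ _ (Additive.toMul a : N).2
    refine Prod.ext ?_ ?_
    · show e (QuotientGroup.mk _) = i
      rw [h1, Equiv.apply_symm_apply]
    · refine Subtype.ext ?_
      show (QuotientGroup.mk ((e.symm i).out * ((Additive.toMul a : N) : M)) : M ⧸ N).out⁻¹ *
        ((e.symm i).out * ((Additive.toMul a : N) : M)) = ((Additive.toMul a : N) : M)
      rw [h1, inv_mul_cancel_left]

/-- the abelian group structure -/
@[instance_reducible]
private noncomputable def grpN (hN : ∀ x ∈ N, ∀ y ∈ N, x * y = y * x) : AddCommGroup M :=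
  let _ : CommGroup N := { (inferInstance : Group N) with
    mul_comm := fun a b => Subtype.ext (hN a a.2 b b.2) }
  (bet N e).addCommGroup

private theorem add_grpN (hN : ∀ x ∈ N, ∀ y ∈ N, x * y = y * x) (x y : M) :
    (grpN N e hN).toAdd.add x y = (e.symm (e (QuotientGroup.mk x) + e (QuotientGroup.mk y))).out *
      (((QuotientGroup.mk x : M ⧸ N).out⁻¹ * x) * ((QuotientGroup.mk y : M ⧸ N).out⁻¹ * y)) := rfl

private theorem cos_grpN (hN : ∀ x ∈ N, ∀ y ∈ N, x * y = y * x) (x y z : M)
    (hxy : (QuotientGroup.mk x : M ⧸ N) = QuotientGroup.mk y)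
    (hyz : (QuotientGroup.mk y : M ⧸ N) = QuotientGroup.mk z) :
    letI := grpN N e hN
    x - y + z = x * y⁻¹ * z := by
  let _ : CommGroup N := { (inferInstance : Group N) with
    mul_comm := fun a b => Subtype.ext (hN a a.2 b b.2) }
  let _ := grpN N e hN
  let E : M ≃+ Fin (k + 1) × Additive N := Equiv.addEquiv (bet N e)
  have h0 : ∀ x : M, E x = (e (QuotientGroup.mk x), Additive.ofMul ⟨_, out_mem N x⟩) :=
    fun x => rfl
  refine E.injective ?_
  rw [map_add, map_sub, h0, h0, h0, h0]
  have h1 : (QuotientGroup.mk (x * y⁻¹ * z) : M ⧸ N) = QuotientGroup.mk x := by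
    rw [mul_assoc, QuotientGroup.mk_mul_of_mem]
    exact QuotientGroup.eq.1 hyz
  refine Prod.ext ?_ ?_
  · show e (QuotientGroup.mk x) - e (QuotientGroup.mk y) + e (QuotientGroup.mk z) =
      e (QuotientGroup.mk (x * y⁻¹ * z))
    rw [h1, ← hyz, ← hxy, sub_self, zero_add]
  · refine Subtype.ext ?_
    show ((QuotientGroup.mk x : M ⧸ N).out⁻¹ * x) / ((QuotientGroup.mk y : M ⧸ N).out⁻¹ * y) *
      ((QuotientGroup.mk z : M ⧸ N).out⁻¹ * z) =
      (QuotientGroup.mk (x * y⁻¹ * z) : M ⧸ N).out⁻¹ * (x * y⁻¹ * z)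
    rw [h1, ← hyz, ← hxy, div_eq_mul_inv]
    group

end

section

variable {L : FirstOrder.Language.{0, 0}} {M : Type} [L.Structure M] {A : Set M}

theorem definableFun_mul [Group M] (h : A.Definable L {v : Fin 3 → M | v 0 * v 1 = v 2})
    {α : Type} {f g : (α → M) → M} (hf : A.DefinableFun L f) (hg : A.DefinableFun L g) :
    A.DefinableFun L (fun v => f v * g v) := by
  have h1 : A.DefinableFun L (fun v : Fin 2 → M => v 0 * v 1) := by
    unfold Set.DefinableFun
    convert h.preimage_comp (![some 0, some 1, none] : Fin 3 → Option (Fin 2)) using 1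
    ext w
    exact Iff.rfl
  have h2 : A.DefinableMap L (fun (v : α → M) => ![f v, g v]) := by
    intro i
    fin_cases i
    · exact hf
    · exact hg
  exact DefinableFun.comp h2 h1

theorem definable_mem {S : Set M} (h : A.Definable₁ L S) {α : Type} {f : (α → M) → M}
    (hf : A.DefinableFun L f) : A.Definable L {v : α → M | f v ∈ S} := by
  have h2 : A.DefinableMap L (fun (v : α → M) => ![f v]) := by
    intro i
    fin_cases i
    exact hf
  exact Set.Definable.preimage_map h2 h

/-- finite index types -/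
theorem isBoolCosetsP_of_finite [AddCommGroup M] {n : ℕ} {D : Set (Fin n → M)} {J : Type}
    [Finite J] (C : J → Set (Fin n → M)) (hC : ∀ j, A.Definable L (C j) ∧
      ∀ x ∈ C j, ∀ y ∈ C j, ∀ z ∈ C j, x - y + z ∈ C j)
    (hD : ∀ x y : Fin n → M, (∀ j, x ∈ C j ↔ y ∈ C j) → (x ∈ D ↔ y ∈ D)) :
    IsBoolCosetsP L A D := by
  obtain ⟨m, ⟨u⟩⟩ := Finite.exists_equiv_fin J
  refine ⟨m, fun j => C (u.symm j), fun j => hC (u.symm j), fun x y h => hD x y fun j => ?_⟩
  have h1 : x ∈ C (u.symm (u j)) ↔ y ∈ C (u.symm (u j)) := h (u j)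
  rwa [Equiv.symm_apply_apply] at h1

end

/-- **A structure which is affine over a group with an abelian subgroup of finite index is affine over
an abelian group.** -/
theorem aff_of_G (L : FirstOrder.Language.{0, 0}) (M : Type) [L.Structure M]
    (h : IsAffineG L M) : IsAffineP L M := by
  obtain ⟨A, _, hA, hmul, ⟨N, hfin, hcomm, hN⟩, hR, hF⟩ := h
  have hfq : Finite (M ⧸ N) := inferInstance
  obtain ⟨k, ⟨e⟩⟩ : ∃ k : ℕ, Nonempty ((M ⧸ N) ≃ Fin (k + 1)) := by
    obtain ⟨n, ⟨e⟩⟩ := Finite.exists_equiv_fin (M ⧸ N)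
    cases n with
    | zero => exact (e (QuotientGroup.mk 1)).elim0
    | succ k => exact ⟨k, ⟨e⟩⟩
  let K : Set M := Set.range (fun q : M ⧸ N => q.out) ∪ Set.range (fun q : M ⧸ N => q.out⁻¹)
  let A' : Set M := A ∪ K
  have hA' : A'.Finite := hA.union ((Set.finite_range _).union (Set.finite_range _))
  have hAA' : A ⊆ A' := Set.subset_union_left
  have hout : ∀ q : M ⧸ N, q.out ∈ A' := fun q => Or.inr (Or.inl ⟨q, rfl⟩)
  have hinv : ∀ q : M ⧸ N, q.out⁻¹ ∈ A' := fun q => Or.inr (Or.inr ⟨q, rfl⟩)
  have hmul' := hmul.mono hAA'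
  have hN' : A'.Definable₁ L (N : Set M) := Set.Definable.mono hN hAA'
  have hcon : ∀ {α : Type} (a : M), a ∈ A' → A'.DefinableFun L (fun _ : α → M => a) :=
    fun {α} a ha => L.definableFun_const α ha
  have hmk : ∀ {α : Type} (l : α) (q : M ⧸ N),
      A'.Definable L {v : α → M | (QuotientGroup.mk (v l) : M ⧸ N) = q} := by
    intro α l q
    have h1 : A'.Definable L {v : α → M | q.out⁻¹ * v l ∈ (N : Set M)} :=
      definable_mem hN' (definableFun_mul hmul' (hcon _ (hinv q)) (DefinableFun.proj L))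
    convert h1 using 1
    ext v
    show (QuotientGroup.mk (v l) : M ⧸ N) = q ↔ q.out⁻¹ * v l ∈ N
    rw [← QuotientGroup.eq, eq_comm]
    have h2 : (QuotientGroup.mk q.out : M ⧸ N) = q := Quotient.out_eq q
    rw [h2]
  let gN : AddCommGroup M := grpN N e hcomm
  -- Boolean combinations of cosets
  have hBC : ∀ {n : ℕ} {D : Set (Fin n → M)}, IsBoolCosetsG L A D → IsBoolCosetsP L A' D := by
    rintro n D ⟨m, C, hC, hD⟩
    refine isBoolCosetsP_of_finite (J := Fin m × (Fin n → M ⧸ N))
      (fun p => {x | x ∈ C p.1 ∧ ∀ l, (QuotientGroup.mk (x l) : M ⧸ N) = p.2 l}) ?_ ?_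
    · rintro ⟨j, q⟩
      refine ⟨?_, ?_⟩
      · have h1 : A'.Definable L {x : Fin n → M | ∀ l, (QuotientGroup.mk (x l) : M ⧸ N) = q l} := by
          have h2 : {x : Fin n → M | ∀ l, (QuotientGroup.mk (x l) : M ⧸ N) = q l} =
              ⋂ l, {x : Fin n → M | (QuotientGroup.mk (x l) : M ⧸ N) = q l} := by
            ext x
            simp
          rw [h2]
          exact definable_iInter_of_finite fun l => hmk l (q l)
        exact ((hC j).1.mono hAA').inter h1
      · rintro x ⟨hx, hx'⟩ y ⟨hy, hy'⟩ z ⟨hz, hz'⟩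
        have h1 : x - y + z = x * y⁻¹ * z := by
          funext l
          exact cos_grpN N e hcomm (x l) (y l) (z l) ((hx' l).trans (hy' l).symm)
            ((hy' l).trans (hz' l).symm)
        refine ⟨?_, fun l => ?_⟩
        · rw [h1]
          exact (hC j).2 x hx y hy z hz
        · rw [h1]
          show (QuotientGroup.mk (x l * (y l)⁻¹ * z l) : M ⧸ N) = q l
          rw [mul_assoc, QuotientGroup.mk_mul_of_mem]
          · exact hx' l
          · exact QuotientGroup.eq.1 ((hy' l).trans (hz' l).symm)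
    · intro x y h
      refine hD x y fun j => ?_
      constructor
      · intro hx
        exact ((h (j, fun l => QuotientGroup.mk (x l))).1 ⟨hx, fun l => rfl⟩).1
      · intro hy
        exact ((h (j, fun l => QuotientGroup.mk (y l))).2 ⟨hy, fun l => rfl⟩).1
  refine ⟨A', gN, hA', ?_, fun n R => hBC (hR n R), fun n F => hBC (hF n F)⟩
  -- the graph of the addition
  have h1 : {v : Fin 3 → M | v 0 + v 1 = v 2} = ⋃ p : (M ⧸ N) × (M ⧸ N),
      ({v : Fin 3 → M | (QuotientGroup.mk (v 0) : M ⧸ N) = p.1} ∩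
        {v : Fin 3 → M | (QuotientGroup.mk (v 1) : M ⧸ N) = p.2}) ∩
        {v : Fin 3 → M | (e.symm (e p.1 + e p.2)).out *
          ((p.1.out⁻¹ * v 0) * (p.2.out⁻¹ * v 1)) = v 2} := by
    ext v
    rw [Set.mem_iUnion]
    constructor
    · intro hv
      refine ⟨(QuotientGroup.mk (v 0), QuotientGroup.mk (v 1)), ⟨rfl, rfl⟩, ?_⟩
      exact hv
    · rintro ⟨⟨p, q⟩, ⟨hp, hq⟩, hv⟩
      have hp' : (QuotientGroup.mk (v 0) : M ⧸ N) = p := hp
      have hq' : (QuotientGroup.mk (v 1) : M ⧸ N) = q := hq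
      subst hp'
      subst hq'
      exact hv
  rw [h1]
  refine definable_iUnion_of_finite fun p => ((hmk 0 p.1).inter (hmk 1 p.2)).inter ?_
  refine DefinableFun.ofPred_eq ?_ (DefinableFun.proj L)
  refine definableFun_mul hmul' (hcon _ (hout _)) (definableFun_mul hmul' ?_ ?_)
  · exact definableFun_mul hmul' (hcon _ (hinv _)) (DefinableFun.proj L)
  · exact definableFun_mul hmul' (hcon _ (hinv _)) (DefinableFun.proj L)

/-- The theorem for groups follows from the theorem with parameters. -/
theorem grp_of_par (h : St_PAR) : St_GRP := fun L hL T hT =>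
  h L hL T fun S hS => @aff_of_G L ℕ S (hT S hS)

end Pool.Agent.AFT
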