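import Pool.Agent.AFT.StFin
import Pool.Agent.MVC.Defs3

/-!
# Modules are affine structures (helper79)
-/

set_option autoImplicit false

namespace Pool.Agent.AFT

open Set FirstOrder FirstOrder.Language Pool.Agent.MVC

/-- every module is an affine structure -/
theorem MOD_affine (R : Type) [Ring R] (M : Type) [AddCommGroup M] [Module R M] :
    @IsAffine (LMod R) M (modStr R M) := by
  let iS : (LMod R).Structure M := modStr R M
  have hgr : ∀ {n : ℕ} (F : (LMod R).Functions n),
      (∅ : Set M).Definable (LMod R)
        {x : Fin (n + 1) → M | Structure.funMap F (Fin.init x) = x (Fin.last n)} := by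
    intro n F
    refine Set.empty_definable_iff.2
      ⟨(Term.func F fun i => Term.var i.castSucc).equal (Term.var (Fin.last n)), ?_⟩
    ext x
    exact (Formula.realize_equal
      (t₁ := Term.func F fun i => Term.var i.castSucc) (t₂ := Term.var (Fin.last n))).symm
  refine ⟨inferInstance, ?_, fun n P => (P : Empty).elim, fun n F => ?_⟩
  · have h := hgr (ModFn.add : (LMod R).Functions 2)
    exact h
  · refine ⟨1, fun _ => {x | Structure.funMap F (Fin.init x) = x (Fin.last n)},
      fun _ => ⟨hgr F, ?_⟩, fun x y h => h 0⟩
    intro x hx y hy z hz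
    simp only [Set.mem_setOf_eq] at hx hy hz ⊢
    have hF : ∀ v w : Fin n → M, ∀ u : Fin n → M, Structure.funMap (L := LMod R) F (v - w + u) =
        Structure.funMap F v - Structure.funMap F w + Structure.funMap F u := by
      intro v w u
      cases F with
      | zero => exact (by simp : (0 : M) = 0 - 0 + 0)
      | smul r =>
        show r • (v 0 - w 0 + u 0) = r • v 0 - r • w 0 + r • u 0
        rw [smul_add, smul_sub]
      | add =>
        show (v 0 - w 0 + u 0) + (v 1 - w 1 + u 1) = v 0 + v 1 - (w 0 + w 1) + (u 0 + u 1)
        abel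
    have hin : Fin.init (x - y + z) = (Fin.init x : Fin n → M) - Fin.init y + Fin.init z := rfl
    rw [hin, hF, hx, hy, hz]
    rfl

/-- all theories of modules are theories of affine structures -/
theorem MOD_theory (R : Type) [Ring R] (T : (LMod R).Theory)
    (hT : ∀ S : (LMod R).Structure ℕ, @FirstOrder.Language.Theory.Model (LMod R) ℕ S T →
      ∃ (g : AddCommGroup ℕ) (m : @Module R ℕ _ g.toAddCommMonoid), S = @modStr R _ ℕ g m) :
    ∀ S : (LMod R).Structure ℕ, @FirstOrder.Language.Theory.Model (LMod R) ℕ S T →
      @IsAffine (LMod R) ℕ S := by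
  intro S hS
  obtain ⟨g, m, rfl⟩ := hT S hS
  exact @MOD_affine R _ ℕ g m

end Pool.Agent.AFT
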