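import Pool.Agent.AFT.Uni
import Pool.Agent.AFT.Few
import Pool.Agent.AVF.CLA
import Pool.Agent.VMF.SATN
import Pool.Agent.WOM.DEFF
import Pool.Agent.WOM.DEF1

/-!
# The saturated structure as an affine structure: saturation, types, elementary submodels (helper31)
-/

set_option autoImplicit false
set_option linter.unusedSectionVars false
set_option linter.unusedVariables false

namespace Pool.Agent.AFT

open Set FirstOrder Pool.Agent.AVC Pool.Agent.AVF
open Pool.Agent.WOM (Mon IsEl)

/-- all basic relations and graphs of basic functions are Boolean combinations of definable cosets -/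
def BCos (L : FirstOrder.Language.{0, 0}) (U : Type) [L.Structure U] [AddCommGroup U] : Prop :=
  (∀ (n : ℕ) (R : L.Relations n), IsBoolCosets L {x : Fin n → U |
    FirstOrder.Language.Structure.RelMap R x}) ∧
  ∀ (n : ℕ) (F : L.Functions n), IsBoolCosets L {x : Fin (n + 1) → U |
    FirstOrder.Language.Structure.funMap F (Fin.init x) = x (Fin.last n)}

section

variable {L : FirstOrder.Language.{0, 0}} {add : L.Formula (Fin 3)} {ι κ : Type}
  [Countable L.Symbols] {U : Type} [L.Structure U] [AddCommGroup U]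

/-- the affine structure of a saturated structure is saturated -/
theorem monA_of_mon (hM : Mon L U) (hadd : IsAdd add U) : MonA (ZU L U) (UA L U) := by
  classical
  refine ⟨hM.ctb, hM.inf, ?_⟩
  intro κ ι _ _ b P N hf
  obtain ⟨m, ⟨e⟩⟩ := Finite.exists_equiv_fin κ
  obtain ⟨n, ⟨e'⟩⟩ := Finite.exists_equiv_fin ι
  let F : PP (ZU L U) (κ ⊕ ι) → L.Formula (Fin m ⊕ Fin n) := fun φ =>
    (foU hadd φ).relabel (Sum.map e e')
  have hF : ∀ (φ : PP (ZU L U) (κ ⊕ ι)) (c : ι → U),
      (F φ).Realize (Sum.elim (b ∘ e.symm : Fin m → U) (c ∘ e'.symm)) ↔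
        ASat φ (UA L U) (Sum.elim b c) := by
    intro φ c
    show FirstOrder.Language.Formula.Realize ((foU hadd φ).relabel (Sum.map e e')) _ ↔ _
    rw [FirstOrder.Language.Formula.realize_relabel, foU_iff]
    have h1 : (Sum.elim (b ∘ e.symm : Fin m → U) (c ∘ e'.symm)) ∘ Sum.map e e' =
        (Sum.elim b c : κ ⊕ ι → U) := by
      funext i
      rcases i with i | i
      · show b (e.symm (e i)) = b i
        rw [e.symm_apply_apply]
      · show c (e'.symm (e' i)) = c i
        rw [e'.symm_apply_apply]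
    rw [h1]
    exact Iff.rfl
  obtain ⟨c, hc⟩ := Pool.Agent.VMF.sat_fin L U hM n m (b ∘ e.symm)
    (F '' P ∪ (fun φ => FirstOrder.Language.Formula.not (F φ)) '' N) (by
      intro G hG hGf
      have h1 : ∀ ψ ∈ hGf.toFinset, ∃ φ : PP (ZU L U) (κ ⊕ ι), (φ ∈ P ∧ F φ = ψ) ∨
          (φ ∈ N ∧ FirstOrder.Language.Formula.not (F φ) = ψ) := by
        intro ψ hψ
        rcases hG (hGf.mem_toFinset.1 hψ) with ⟨φ, h1, h2⟩ | ⟨φ, h1, h2⟩
        · exact ⟨φ, Or.inl ⟨h1, h2⟩⟩
        · exact ⟨φ, Or.inr ⟨h1, h2⟩⟩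
      choose! f hf' using h1
      obtain ⟨c, hc1, hc2⟩ := hf ((hGf.toFinset.image f).filter (· ∈ P))
        ((hGf.toFinset.image f).filter (· ∈ N))
        (fun φ hφ => (Finset.mem_filter.1 (Finset.mem_coe.1 hφ)).2)
        (fun φ hφ => (Finset.mem_filter.1 (Finset.mem_coe.1 hφ)).2)
      refine ⟨c ∘ e'.symm, fun ψ hψ => ?_⟩
      have hψ' := hGf.mem_toFinset.2 hψ
      rcases hf' ψ hψ' with ⟨h3, h4⟩ | ⟨h3, h4⟩
      · rw [← h4]
        exact (hF _ c).2 (hc1 _ (Finset.mem_filter.2 ⟨Finset.mem_image_of_mem f hψ', h3⟩))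
      · rw [← h4, FirstOrder.Language.Formula.realize_not]
        intro h5
        exact hc2 _ (Finset.mem_filter.2 ⟨Finset.mem_image_of_mem f hψ', h3⟩) ((hF _ c).1 h5))
  have h6 : (c ∘ e') ∘ e'.symm = c := by
    funext i
    show c (e' (e'.symm i)) = c i
    rw [e'.apply_symm_apply]
  refine ⟨c ∘ e', fun φ hφ => ?_, fun φ hφ h7 => ?_⟩
  · refine (hF φ (c ∘ e')).1 ?_
    rw [h6]
    exact hc _ (Or.inl ⟨φ, hφ, rfl⟩)
  · have h1 := hc _ (Or.inr ⟨φ, hφ, rfl⟩)
    rw [FirstOrder.Language.Formula.realize_not] at h1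
    refine h1 ?_
    have h8 := (hF φ (c ∘ e')).2 h7
    rw [h6] at h8
    exact h8

/-- automorphisms of the affine structure preserve the Boolean combinations of definable cosets -/
theorem bc_aie (g : AIe (ZU L U) (UA L U) (UA L U)) {n : ℕ} {D : Set (Fin n → U)}
    (hD : IsBoolCosets L D) (x : Fin n → U) : (fun j => g (x j)) ∈ D ↔ x ∈ D := by
  obtain ⟨m, C, hC, hD⟩ := hD
  refine hD _ _ fun j => ?_
  obtain ⟨θ, hθ⟩ := Set.empty_definable_iff.1 (hC j).1
  by_cases hne : ∃ x : Fin n → U, θ.Realize x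
  · have hcos : Cos3 {x : Fin n → U | θ.Realize x} := by
      rw [← hθ]
      exact (hC j).2
    let i : IdxU L U := ⟨⟨n, θ⟩, hne, hcos⟩
    have h1 := g.presQ i x
    have h2 : x ∈ AfS.Q (R := ZU L U) (M := UA L U) i ↔ θ.Realize x := mem_QU i x
    let y : Fin n → U := fun j => g (x j)
    have h3 : y ∈ AfS.Q (R := ZU L U) (M := UA L U) i ↔ θ.Realize y := mem_QU i y
    rw [hθ]
    exact h3.symm.trans (h1.symm.trans h2)
  · have h1 : C j = ∅ := by
      rw [hθ]
      ext x
      exact ⟨fun h => hne ⟨x, h⟩, fun h => h.elim⟩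
    rw [h1]
    exact ⟨fun h => h.elim, fun h => h.elim⟩

/-- automorphisms of the affine structure are automorphisms -/
theorem lequiv_of_aie (hB : BCos L U) (g : AIe (ZU L U) (UA L U) (UA L U)) :
    ∃ γ : L.Equiv U U, ∀ x : U, γ x = g x := by
  refine ⟨{ toEquiv := EquivLike.toEquiv g, map_fun' := ?_, map_rel' := ?_ }, fun x => rfl⟩
  · intro n F x
    let g' : U → U := fun u => g u
    let z : Fin (n + 1) → U :=
      Fin.snoc (α := fun _ => U) x (FirstOrder.Language.Structure.funMap F x)
    have h1 := bc_aie g (hB.2 n F) z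
    have h2 : z ∈ {x : Fin (n + 1) → U |
          FirstOrder.Language.Structure.funMap F (Fin.init x : Fin n → U) = x (Fin.last n)} := by
      show FirstOrder.Language.Structure.funMap F
        (Fin.init (α := fun _ => U) z : Fin n → U) = z (Fin.last n)
      have h3 : (Fin.init (α := fun _ => U) z : Fin n → U) = x := Fin.init_snoc _ _
      have h4 : z (Fin.last n) = FirstOrder.Language.Structure.funMap F x := Fin.snoc_last _ _
      rw [h3, h4]
    have h3 : FirstOrder.Language.Structure.funMap F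
        (fun j : Fin n => g' (z j.castSucc)) = g' (z (Fin.last n)) := h1.2 h2
    have h4 : (fun j : Fin n => g' (z j.castSucc)) = fun j => g' (x j) := by
      funext j
      have h5 : z j.castSucc = x j := Fin.snoc_castSucc _ _ _
      rw [h5]
    have h6 : z (Fin.last n) = FirstOrder.Language.Structure.funMap F x := Fin.snoc_last _ _
    rw [h4, h6] at h3
    exact h3.symm
  · intro n R x
    exact bc_aie g (hB.1 n R) x

/-- affine types determine types -/
theorem tp_of_app (hM : Mon L U) (hadd : IsAdd add U) (hB : BCos L U) [Finite ι] {a b : ι → U}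
    (h : app (R := ZU L U) (UA L U) a = app (UA L U) b) : tpS (L := L) a = tpS b := by
  obtain ⟨g, hg⟩ := homA_of (monA_of_mon hM hadd) ι a b h
  obtain ⟨γ, hγ⟩ := lequiv_of_aie hB g
  have h1 : (fun i => γ (a i)) = b := by
    funext i
    exact (hγ (a i)).trans (hg i)
  ext φ
  have h2 : φ.Realize (fun i => γ (a i)) ↔ φ.Realize a :=
    FirstOrder.Language.StrongHomClass.realize_formula γ φ
  rw [h1] at h2
  exact h2.symm

/-- types determine affine types -/
theorem app_eq (hadd : IsAdd add U) (a : ι → U) :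
    app (R := ZU L U) (UA L U) a = {φ | foU hadd φ ∈ tpS (L := L) a} := by
  ext φ
  exact (foU_iff hadd φ a).symm

end

end Pool.Agent.AFT
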