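import Pool.Agent.AFT.Few

/-!
# Naming constants (helper23)

If continuously many structures with finitely many constants are pairwise nonisomorphic (with the
constants), then there is a perfect set of pairwise nonisomorphic reducts: `x` is determined by `y` and the
image of the constants, and by Lusin's separation theorem it is a Borel function of `y`.
-/

set_option autoImplicit false
set_option linter.unusedSectionVars false
set_option linter.unusedVariables false

namespace Pool.Agent.AFT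

open Set FirstOrder MeasureTheory
open Pool.Agent.WOM (CtT PerfT)

section

variable {L : FirstOrder.Language.{0, 0}}

/-- an isomorphism from `S` to `S'` which maps `c` to `d` -/
def IsoC (S S' : L.Structure ℕ) {k : ℕ} (c d : Fin k → ℕ) : Prop :=
  ∃ p q : ℕ → ℕ, (∀ i, p (q i) = i) ∧ (∀ i, q (p i) = i) ∧
    (∀ (n : ℕ) (R : L.Relations n) (a : Fin n → ℕ), S.RelMap R a ↔ S'.RelMap R (fun i => p (a i))) ∧
    (∀ (n : ℕ) (F : L.Functions n) (a : Fin n → ℕ),
      p (S.funMap F a) = S'.funMap F (fun i => p (a i))) ∧ ∀ i, p (c i) = d i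

theorem IsoC.symm {S S' : L.Structure ℕ} {k : ℕ} {c d : Fin k → ℕ} (h : IsoC S S' c d) :
    IsoC S' S d c := by
  obtain ⟨p, q, h1, h2, h3, h4, h5⟩ := h
  refine ⟨q, p, h2, h1, fun n R a => ?_, fun n F a => ?_, fun i => ?_⟩
  · rw [h3]
    have : (fun i => p (q (a i))) = a := funext fun i => h1 _
    rw [this]
  · have h6 := h4 n F (fun i => q (a i))
    have : (fun i => p (q (a i))) = a := funext fun i => h1 _
    rw [this] at h6
    rw [← h6, h2]
  · rw [← h5, h2]

theorem IsoC.trans {S S' S'' : L.Structure ℕ} {k : ℕ} {c d e : Fin k → ℕ} (h : IsoC S S' c d)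
    (h' : IsoC S' S'' d e) : IsoC S S'' c e := by
  obtain ⟨p, q, h1, h2, h3, h4, h5⟩ := h
  obtain ⟨p', q', h1', h2', h3', h4', h5'⟩ := h'
  refine ⟨fun i => p' (p i), fun i => q (q' i), fun i => ?_, fun i => ?_, fun n R a => ?_,
    fun n F a => ?_, fun i => ?_⟩
  · show p' (p (q (q' i))) = i
    rw [h1, h1']
  · show q (q' (p' (p i))) = i
    rw [h2', h2]
  · rw [h3, h3']
  · show p' (p (S.funMap F a)) = S''.funMap F (fun i => p' (p (a i)))
    rw [h4, h4']
  · show p' (p (c i)) = e i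
    rw [h5, h5']

theorem isoC_of_equiv {S S' : L.Structure ℕ} {k : ℕ}
    (e : @FirstOrder.Language.Equiv L ℕ ℕ S S') (c : Fin k → ℕ) :
    IsoC S S' c (fun i => @FirstOrder.Language.Equiv.toEquiv L ℕ ℕ S S' e (c i)) := by
  refine ⟨fun i => @FirstOrder.Language.Equiv.toEquiv L ℕ ℕ S S' e i,
    fun i => (@FirstOrder.Language.Equiv.toEquiv L ℕ ℕ S S' e).symm i, fun i => ?_, fun i => ?_,
    fun n R a => ?_, fun n F a => ?_, fun i => rfl⟩
  · exact Equiv.apply_symm_apply _ _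
  · exact Equiv.symm_apply_apply _ _
  · exact (@FirstOrder.Language.Equiv.map_rel' L ℕ ℕ S S' e n R a).symm
  · exact @FirstOrder.Language.Equiv.map_fun' L ℕ ℕ S S' e n F a

/-- the relation is measurable -/
theorem measurableSet_isoC (hL : Countable L.Symbols) {k : ℕ} (f : (ℕ → Bool) → L.Structure ℕ)
    (c : (ℕ → Bool) → Fin k → ℕ)
    (hR : ∀ (n : ℕ) (R : L.Relations n) (a : Fin n → ℕ), MeasurableSet {x | (f x).RelMap R a})
    (hF : ∀ (n : ℕ) (F : L.Functions n) (a : Fin n → ℕ) (b : ℕ),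
      MeasurableSet {x | (f x).funMap F a = b})
    (hc : ∀ (i : Fin k) (m : ℕ), MeasurableSet {x | c x i = m}) (d : Fin k → ℕ) (n₀ : ℕ) (b₀ : Bool) :
    MeasurableSet {z : ((ℕ → Bool) × (ℕ → Bool)) × ((ℕ → ℕ) × (ℕ → ℕ)) | z.1.1 n₀ = b₀ ∧
      (∀ i, z.2.1 (z.2.2 i) = i) ∧ (∀ i, z.2.2 (z.2.1 i) = i) ∧
      (∀ (n : ℕ) (R : L.Relations n) (a : Fin n → ℕ), (f z.1.1).RelMap R a ↔
        (f z.1.2).RelMap R (fun i => z.2.1 (a i))) ∧
      (∀ (n : ℕ) (F : L.Functions n) (a : Fin n → ℕ),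
        z.2.1 ((f z.1.1).funMap F a) = (f z.1.2).funMap F (fun i => z.2.1 (a i))) ∧
      ∀ i, z.2.1 (c z.1.1 i) = d i} := by
  have hLR : ∀ n, Countable (L.Relations n) := fun n => by
    have : Countable L.Symbols := hL
    exact Function.Injective.countable (f := fun R : L.Relations n => (Sum.inr ⟨n, R⟩ : L.Symbols))
      (fun R S h => by simpa using h)
  have hLF : ∀ n, Countable (L.Functions n) := fun n => by
    have : Countable L.Symbols := hL
    exact Function.Injective.countable (f := fun R : L.Functions n => (Sum.inl ⟨n, R⟩ : L.Symbols))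
      (fun R S h => by simpa using h)
  -- coordinates
  have hx : ∀ {s : Set (ℕ → Bool)}, MeasurableSet s →
      MeasurableSet {z : ((ℕ → Bool) × (ℕ → Bool)) × ((ℕ → ℕ) × (ℕ → ℕ)) | z.1.1 ∈ s} :=
    fun hs => (measurable_fst.fst) hs
  have hy : ∀ {s : Set (ℕ → Bool)}, MeasurableSet s →
      MeasurableSet {z : ((ℕ → Bool) × (ℕ → Bool)) × ((ℕ → ℕ) × (ℕ → ℕ)) | z.1.2 ∈ s} :=
    fun hs => (measurable_fst.snd) hs
  have hp : ∀ i m : ℕ,
      MeasurableSet {z : ((ℕ → Bool) × (ℕ → Bool)) × ((ℕ → ℕ) × (ℕ → ℕ)) | z.2.1 i = m} :=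
    fun i m => (((measurable_pi_apply i).comp measurable_snd.fst) :
      Measurable fun z : ((ℕ → Bool) × (ℕ → Bool)) × ((ℕ → ℕ) × (ℕ → ℕ)) => z.2.1 i)
        (measurableSet_singleton m)
  have hq : ∀ i m : ℕ,
      MeasurableSet {z : ((ℕ → Bool) × (ℕ → Bool)) × ((ℕ → ℕ) × (ℕ → ℕ)) | z.2.2 i = m} :=
    fun i m => (((measurable_pi_apply i).comp measurable_snd.snd) :
      Measurable fun z : ((ℕ → Bool) × (ℕ → Bool)) × ((ℕ → ℕ) × (ℕ → ℕ)) => z.2.2 i)
        (measurableSet_singleton m)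
  -- the images of tuples
  have hpa : ∀ (n : ℕ) (a v : Fin n → ℕ),
      MeasurableSet {z : ((ℕ → Bool) × (ℕ → Bool)) × ((ℕ → ℕ) × (ℕ → ℕ)) |
        (fun i => z.2.1 (a i)) = v} := by
    intro n a v
    have : {z : ((ℕ → Bool) × (ℕ → Bool)) × ((ℕ → ℕ) × (ℕ → ℕ)) | (fun i => z.2.1 (a i)) = v} =
        ⋂ i, {z | z.2.1 (a i) = v i} := by
      ext z
      simp only [mem_ofPred_eq, mem_iInter]
      exact funext_iff
    rw [this]
    exact MeasurableSet.iInter fun i => hp _ _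
  have hb : MeasurableSet {x : ℕ → Bool | x n₀ = b₀} :=
    (measurable_pi_apply n₀ : Measurable fun x : ℕ → Bool => x n₀) (measurableSet_singleton b₀)
  refine MeasurableSet.inter (hx hb) (MeasurableSet.inter ?_ (MeasurableSet.inter ?_
    (MeasurableSet.inter ?_ (MeasurableSet.inter ?_ ?_))))
  · have : {z : ((ℕ → Bool) × (ℕ → Bool)) × ((ℕ → ℕ) × (ℕ → ℕ)) | ∀ i, z.2.1 (z.2.2 i) = i} =
        ⋂ i, ⋃ m, {z | z.2.2 i = m} ∩ {z | z.2.1 m = i} := by
      ext z
      simp
    refine (congrArg MeasurableSet this).mpr ?_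
    exact MeasurableSet.iInter fun i => MeasurableSet.iUnion fun m => (hq _ _).inter (hp _ _)
  · have : {z : ((ℕ → Bool) × (ℕ → Bool)) × ((ℕ → ℕ) × (ℕ → ℕ)) | ∀ i, z.2.2 (z.2.1 i) = i} =
        ⋂ i, ⋃ m, {z | z.2.1 i = m} ∩ {z | z.2.2 m = i} := by
      ext z
      simp
    refine (congrArg MeasurableSet this).mpr ?_
    exact MeasurableSet.iInter fun i => MeasurableSet.iUnion fun m => (hp _ _).inter (hq _ _)
  · have : {z : ((ℕ → Bool) × (ℕ → Bool)) × ((ℕ → ℕ) × (ℕ → ℕ)) |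
        ∀ (n : ℕ) (R : L.Relations n) (a : Fin n → ℕ), (f z.1.1).RelMap R a ↔
          (f z.1.2).RelMap R (fun i => z.2.1 (a i))} =
        ⋂ (n : ℕ), ⋂ (R : L.Relations n), ⋂ (a : Fin n → ℕ), ⋃ (v : Fin n → ℕ),
          {z | (fun i => z.2.1 (a i)) = v} ∩
            ({z | z.1.1 ∈ {x | (f x).RelMap R a}} ∩ {z | z.1.2 ∈ {x | (f x).RelMap R v}} ∪
              {z | z.1.1 ∈ {x | (f x).RelMap R a}ᶜ} ∩ {z | z.1.2 ∈ {x | (f x).RelMap R v}ᶜ}) := by
      ext z
      simp only [mem_ofPred_eq, mem_iInter, mem_iUnion, mem_inter_iff, mem_union, mem_compl_iff]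
      refine forall_congr' fun n => forall_congr' fun R => forall_congr' fun a => ?_
      constructor
      · intro h
        refine ⟨_, rfl, ?_⟩
        by_cases h1 : (f z.1.1).RelMap R a
        · exact Or.inl ⟨h1, h.1 h1⟩
        · exact Or.inr ⟨h1, fun h2 => h1 (h.2 h2)⟩
      · rintro ⟨v, rfl, h | h⟩
        · exact ⟨fun _ => h.2, fun _ => h.1⟩
        · exact ⟨fun h1 => absurd h1 h.1, fun h1 => absurd h1 h.2⟩
    refine (congrArg MeasurableSet this).mpr ?_
    refine MeasurableSet.iInter fun n => MeasurableSet.iInter fun R => MeasurableSet.iInter fun a =>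
      MeasurableSet.iUnion fun v => (hpa n a v).inter (MeasurableSet.union ?_ ?_)
    · exact (hx (hR n R a)).inter (hy (hR n R v))
    · exact (hx (hR n R a).compl).inter (hy (hR n R v).compl)
  · have : {z : ((ℕ → Bool) × (ℕ → Bool)) × ((ℕ → ℕ) × (ℕ → ℕ)) |
        ∀ (n : ℕ) (F : L.Functions n) (a : Fin n → ℕ),
          z.2.1 ((f z.1.1).funMap F a) = (f z.1.2).funMap F (fun i => z.2.1 (a i))} =
        ⋂ (n : ℕ), ⋂ (F : L.Functions n), ⋂ (a : Fin n → ℕ), ⋃ (v : Fin n → ℕ), ⋃ (m : ℕ),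
          ⋃ (l : ℕ), ({z | (fun i => z.2.1 (a i)) = v} ∩ {z | z.1.1 ∈ {x | (f x).funMap F a = m}}) ∩
            ({z | z.2.1 m = l} ∩ {z | z.1.2 ∈ {x | (f x).funMap F v = l}}) := by
      ext z
      simp only [mem_ofPred_eq, mem_iInter, mem_iUnion, mem_inter_iff]
      refine forall_congr' fun n => forall_congr' fun F => forall_congr' fun a => ?_
      constructor
      · intro h
        exact ⟨_, _, _, ⟨rfl, rfl⟩, rfl, h.symm⟩
      · rintro ⟨v, m, l, ⟨rfl, rfl⟩, rfl, h⟩
        exact h.symm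
    refine (congrArg MeasurableSet this).mpr ?_
    exact MeasurableSet.iInter fun n => MeasurableSet.iInter fun F => MeasurableSet.iInter fun a =>
      MeasurableSet.iUnion fun v => MeasurableSet.iUnion fun m => MeasurableSet.iUnion fun l =>
        ((hpa n a v).inter (hx (hF n F a m))).inter ((hp m l).inter (hy (hF n F v l)))
  · have : {z : ((ℕ → Bool) × (ℕ → Bool)) × ((ℕ → ℕ) × (ℕ → ℕ)) | ∀ i, z.2.1 (c z.1.1 i) = d i} =
        ⋂ i, ⋃ m, {z | z.1.1 ∈ {x | c x i = m}} ∩ {z | z.2.1 m = d i} := by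
      ext z
      simp
    refine (congrArg MeasurableSet this).mpr ?_
    exact MeasurableSet.iInter fun i => MeasurableSet.iUnion fun m => (hx (hc i m)).inter (hp _ _)

/-- **Naming constants.** -/
theorem perfT_of_const (hL : Countable L.Symbols) (T : L.Theory) {k : ℕ}
    (f : (ℕ → Bool) → L.Structure ℕ) (c : (ℕ → Bool) → Fin k → ℕ)
    (hT : ∀ x, @FirstOrder.Language.Theory.Model L ℕ (f x) T)
    (hinj : ∀ x y, IsoC (f x) (f y) (c x) (c y) → x = y)
    (hR : ∀ (n : ℕ) (R : L.Relations n) (a : Fin n → ℕ), IsClopen {x | (f x).RelMap R a})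
    (hF : ∀ (n : ℕ) (F : L.Functions n) (a : Fin n → ℕ) (b : ℕ), IsOpen {x | (f x).funMap F a = b})
    (hc : ∀ (i : Fin k) (m : ℕ), IsOpen {x | c x i = m}) : PerfT L T := by
  -- the sets to be separated
  let A : (Fin k → ℕ) → ℕ → Bool → Set (ℕ → Bool) := fun d n b =>
    {y | ∃ x : ℕ → Bool, x n = b ∧ IsoC (f x) (f y) (c x) d}
  have hA : ∀ d n b, AnalyticSet (A d n b) := by
    intro d n b
    have _ : PolishSpace (ℕ → ℕ) :=
      { toSecondCountableTopology := inferInstance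
        toIsCompletelyMetrizableSpace := inferInstance }
    have _ : PolishSpace (((ℕ → Bool) × (ℕ → Bool)) × ((ℕ → ℕ) × (ℕ → ℕ))) := inferInstance
    have _ : BorelSpace ((ℕ → Bool) × (ℕ → Bool)) := inferInstance
    have _ : BorelSpace ((ℕ → ℕ) × (ℕ → ℕ)) := inferInstance
    have _ : SecondCountableTopologyEither ((ℕ → Bool) × (ℕ → Bool)) ((ℕ → ℕ) × (ℕ → ℕ)) :=
      inferInstance
    have _ : BorelSpace (((ℕ → Bool) × (ℕ → Bool)) × ((ℕ → ℕ) × (ℕ → ℕ))) := Prod.borelSpace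
    have h1 := (measurableSet_isoC hL f c (fun n R a => (hR n R a).2.measurableSet)
      (fun n F a m => (hF n F a m).measurableSet) (fun i m => (hc i m).measurableSet) d n b).analyticSet
    have h2 := h1.image_of_continuous (continuous_snd.comp continuous_fst)
    refine (congrArg AnalyticSet ?_).mp h2
    ext y
    constructor
    · rintro ⟨⟨⟨x, y'⟩, p, q⟩, ⟨h3, h4, h5, h6, h7, h8⟩, rfl⟩
      exact ⟨x, h3, p, q, h4, h5, h6, h7, h8⟩
    · rintro ⟨x, h3, p, q, h4, h5, h6, h7, h8⟩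
      exact ⟨((x, y), (p, q)), ⟨h3, h4, h5, h6, h7, h8⟩, rfl⟩
  have hdis : ∀ d n, Disjoint (A d n true) (A d n false) := by
    intro d n
    rw [disjoint_left]
    rintro y ⟨x, hx, h1⟩ ⟨x', hx', h2⟩
    have h3 := hinj x x' (h1.trans h2.symm)
    rw [h3, hx'] at hx
    exact Bool.noConfusion hx
  choose D hD1 hD2 hD3 using fun d n => (hA d n true).measurablySeparable (hA d n false) (hdis d n)
  obtain ⟨g, hg, hgE⟩ := Pool.Agent.Helper6.exists_cantor_of_decode D hD3
    (fun x y => Nonempty (@FirstOrder.Language.Equiv L ℕ ℕ (f x) (f y))) (by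
      rintro x y ⟨e⟩
      refine ⟨fun i => @FirstOrder.Language.Equiv.toEquiv L ℕ ℕ (f x) (f y) e (c x i), fun n => ?_⟩
      have h1 := isoC_of_equiv e (c x)
      constructor
      · intro h
        exact hD1 _ n ⟨x, h, h1⟩
      · intro h
        by_contra hn
        have hn' : x n = false := by
          cases hx : x n
          · rfl
          · exact absurd hx hn
        exact disjoint_left.1 (hD2 _ n) ⟨x, hn', h1⟩ h)
  refine ⟨fun x => f (g x), fun x => hT _, fun x y h => ?_, fun n R a => ?_, fun n F a b => ?_⟩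
  · by_contra hne
    exact hgE x y hne h
  · exact (hR n R a).preimage hg
  · exact (hF n F a b).preimage hg

end

end Pool.Agent.AFT
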