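import Mathlib

/-!
# B. H. Neumann's lemma for sets closed under x y⁻¹ z (helper23)
-/

set_option autoImplicit false
set_option linter.unusedSectionVars false
set_option linter.unusedVariables false

namespace Pool.Agent.AFT

open Set
open scoped Pointwise

section

variable {G : Type} [Group G]

/-- empty or a coset of a subgroup -/
def Cl (C : Set G) : Prop := ∀ x ∈ C, ∀ y ∈ C, ∀ z ∈ C, x * y⁻¹ * z ∈ C

/-- the subgroup of which `C` is a left coset -/
def dirS (C : Set G) (hC : Cl C) (c : G) (hc : c ∈ C) : Subgroup G where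
  carrier := {t | c * t ∈ C}
  mul_mem' := by
    intro s t hs ht
    have h := hC _ hs c hc _ ht
    have e : c * s * c⁻¹ * (c * t) = c * (s * t) := by group
    rw [e] at h
    exact h
  one_mem' := by
    show c * 1 ∈ C
    rw [mul_one]
    exact hc
  inv_mem' := by
    intro t ht
    have h := hC c hc _ ht c hc
    have e : c * (c * t)⁻¹ * c = c * t⁻¹ := by group
    rw [e] at h
    exact h

theorem mem_dirS {C : Set G} {hC : Cl C} {c : G} {hc : c ∈ C} {t : G} :
    t ∈ dirS C hC c hc ↔ c * t ∈ C := Iff.rfl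

/-- the direction does not depend on the element -/
theorem dirS_eq {C : Set G} {hC : Cl C} {c d : G} (hc : c ∈ C) (hd : d ∈ C) :
    dirS C hC c hc = dirS C hC d hd := by
  ext t
  rw [mem_dirS, mem_dirS]
  constructor
  · intro h
    have h1 := hC d hd c hc _ h
    have e : d * c⁻¹ * (c * t) = d * t := by group
    rw [e] at h1
    exact h1
  · intro h
    have h1 := hC c hc d hd _ h
    have e : c * d⁻¹ * (d * t) = c * t := by group
    rw [e] at h1
    exact h1

/-- **B. H. Neumann's lemma**: in a finite cover of the group by cosets those of finite index cover the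
group. -/
theorem neu {ι : Type} [Finite ι] (C : ι → Set G) (hC : ∀ i, Cl (C i)) (hcov : ∀ x, ∃ i, x ∈ C i)
    (x : G) : ∃ (i : ι) (hx : x ∈ C i), (dirS (C i) (hC i) x hx).FiniteIndex := by
  classical
  let J := {i : ι // (C i).Nonempty}
  have _ : Fintype J := Fintype.ofFinite J
  choose c hc using fun j : J => j.2
  let H : J → Subgroup G := fun j => dirS (C j.1) (hC j.1) (c j) (hc j)
  have hco : ∀ (j : J) (y : G), y ∈ (c j) • (H j : Set G) ↔ y ∈ C j.1 := by
    intro j y
    rw [mem_leftCoset_iff]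
    show c j * ((c j)⁻¹ * y) ∈ C j.1 ↔ _
    rw [mul_inv_cancel_left]
  have hcov' : ⋃ j ∈ (Finset.univ : Finset J), (c j) • (H j : Set G) = Set.univ := by
    refine eq_univ_of_forall fun y => ?_
    obtain ⟨i, hi⟩ := hcov y
    exact mem_iUnion₂.2 ⟨⟨i, y, hi⟩, Finset.mem_univ _, (hco _ y).2 hi⟩
  have h1 := Subgroup.leftCoset_cover_filter_FiniteIndex hcov'
  have hx : x ∈ (Set.univ : Set G) := mem_univ x
  rw [← h1] at hx
  obtain ⟨j, hj, hxj⟩ := mem_iUnion₂.1 hx
  have hxC := (hco j x).1 hxj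
  refine ⟨j.1, hxC, ?_⟩
  rw [dirS_eq hxC (hc j)]
  exact (Finset.mem_filter.1 hj).2

/-- the same for a cover of a subgroup of finite index -/
theorem neuD (D : Subgroup G) [hD : D.FiniteIndex] {ι : Type} [Finite ι] (C : ι → Set G)
    (hC : ∀ i, Cl (C i)) (hcov : ∀ x ∈ D, ∃ i, x ∈ C i) :
    ∃ (i : ι) (x : G) (hx : x ∈ C i), (dirS (C i) (hC i) x hx).FiniteIndex := by
  have hC' : ∀ i, Cl {x : D | (x : G) ∈ C i} := by
    intro i x hx y hy z hz
    exact hC i _ hx _ hy _ hz
  obtain ⟨i, hx, hfi⟩ := neu (G := D) (fun i => {x : D | (x : G) ∈ C i}) hC'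
    (fun x => hcov x x.2) 1
  refine ⟨i, ((1 : D) : G), hx, ?_⟩
  have h1 : ((dirS {x : D | (x : G) ∈ C i} (hC' i) 1 hx).map D.subtype).index ≠ 0 := by
    rw [Subgroup.index_map_subtype]
    exact Nat.mul_ne_zero hfi.index_ne_zero hD.index_ne_zero
  have h2 : (dirS {x : D | (x : G) ∈ C i} (hC' i) 1 hx).map D.subtype ≤
      dirS (C i) (hC i) ((1 : D) : G) hx := by
    rintro _ ⟨t, ht, rfl⟩
    exact ht
  have _ : ((dirS {x : D | (x : G) ∈ C i} (hC' i) 1 hx).map D.subtype).FiniteIndex := ⟨h1⟩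
  exact Subgroup.finiteIndex_of_le h2

end

end Pool.Agent.AFT
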