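import Pool.Agent.AFT.StWN
import Pool.Agent.AFT.MOD

/-!
# Examples of weakly normal groups (helper79)

Structures which are affine over abelian groups, in particular all modules.
-/

set_option autoImplicit false

namespace Pool.Agent.AFT

open Set FirstOrder FirstOrder.Language

section

variable {L : FirstOrder.Language.{0, 0}} {M : Type} [L.Structure M] {A : Set M}

/-- Boolean combinations of cosets definable over `A` are definable over `A`. -/
theorem IsBoolCosetsG.definable [Group M] {n : ℕ} {D : Set (Fin n → M)}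
    (h : IsBoolCosetsG L A D) : A.Definable L D := by
  classical
  obtain ⟨m, C, hC, hD⟩ := h
  have h1 : D = ⋃ e : {e : Fin m → Prop // ∃ x ∈ D, ∀ j, x ∈ C j ↔ e j},
      ⋂ j, {x : Fin n → M | x ∈ C j ↔ e.1 j} := by
    ext x
    simp only [Set.mem_iUnion, Set.mem_iInter, Set.mem_ofPred_eq, Subtype.exists, exists_prop]
    constructor
    · intro hx
      exact ⟨fun j => x ∈ C j, ⟨x, hx, fun j => Iff.rfl⟩, fun j => Iff.rfl⟩
    · rintro ⟨e, ⟨y, hy, hye⟩, hxe⟩
      exact (hD x y fun j => (hxe j).trans (hye j).symm).2 hy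
  rw [h1]
  refine definable_iUnion_of_finite fun e => definable_iInter_of_finite fun j => ?_
  by_cases he : e.1 j
  · have h2 : {x : Fin n → M | x ∈ C j ↔ e.1 j} = C j := by
      ext x
      simp [he]
    rw [h2]
    exact (hC j).1
  · have h2 : {x : Fin n → M | x ∈ C j ↔ e.1 j} = (C j)ᶜ := by
      ext x
      simp [he]
    rw [h2]
    exact (hC j).1.compl

/-- an abelian group, written as a multiplicative group -/
@[instance_reducible]
def mulOf (M : Type) (g : AddCommGroup M) : Group M :=
  inferInstanceAs (Group (Multiplicative M))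

theorem isBoolCosetsG_of_P (g : AddCommGroup M) {n : ℕ} {D : Set (Fin n → M)}
    (h : @IsBoolCosetsP L M _ g A n D) : @IsBoolCosetsG L M _ (mulOf M g) A n D := by
  obtain ⟨m, C, hC, hD⟩ := h
  refine ⟨m, C, fun j => ⟨(hC j).1, fun x hx y hy z hz => ?_⟩, hD⟩
  have h1 := (hC j).2 x hx y hy z hz
  rw [sub_eq_add_neg] at h1
  exact h1

/-- A structure which is affine over an abelian group is affine over a group. -/
theorem isAffineG_of_P (h : IsAffineP L M) : IsAffineG L M := by
  obtain ⟨A, g, hA, hadd, hR, hF⟩ := h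
  let _ : Group M := mulOf M g
  refine ⟨A, mulOf M g, hA, hadd, ⟨⊤, inferInstance, ?_, ?_⟩,
    fun n R => isBoolCosetsG_of_P g (hR n R), fun n F => isBoolCosetsG_of_P g (hF n F)⟩
  · intro x _ y _
    exact @add_comm M _ x y
  · exact definable_univ

/-- the graph of the addition is a coset -/
theorem isBoolCosetsP_add [AddCommGroup M] (h : A.Definable L {v : Fin 3 → M | v 0 + v 1 = v 2}) :
    IsBoolCosetsP L A {v : Fin 3 → M | v 0 + v 1 = v 2} := by
  refine ⟨1, fun _ => {v | v 0 + v 1 = v 2}, fun _ => ⟨h, ?_⟩, fun x y h => h 0⟩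
  intro x hx y hy z hz
  have hx' : x 0 + x 1 = x 2 := hx
  have hy' : y 0 + y 1 = y 2 := hy
  have hz' : z 0 + z 1 = z 2 := hz
  show (x 0 - y 0 + z 0) + (x 1 - y 1 + z 1) = x 2 - y 2 + z 2
  rw [← hx', ← hy', ← hz']
  abel

/-- **Structures which are affine over abelian groups are weakly normal groups.** -/
theorem isWN_of_P (h : IsAffineP L M) : IsWN L M := by
  obtain ⟨A, g, hA, hadd, hR, hF⟩ := h
  exact ⟨A, mulOf M g, hA, isBoolCosetsG_of_P g (isBoolCosetsP_add hadd),
    fun n R => isBoolCosetsG_of_P g (hR n R), fun n F => isBoolCosetsG_of_P g (hF n F)⟩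

theorem isAffineP_of_affine (h : IsAffine L M) : IsAffineP L M := by
  obtain ⟨g, hadd, hR, hF⟩ := h
  exact ⟨∅, g, Set.finite_empty, hadd, hR, hF⟩

end

/-- **All modules are weakly normal groups.** -/
theorem isWN_module (R : Type) [Ring R] (M : Type) [AddCommGroup M] [Module R M] :
    @IsWN (Pool.Agent.MVC.LMod R) M (Pool.Agent.MVC.modStr R M) :=
  @isWN_of_P _ M (Pool.Agent.MVC.modStr R M)
    (@isAffineP_of_affine _ M (Pool.Agent.MVC.modStr R M) (MOD_affine R M))

/-- the theories of modules are theories of weakly normal groups -/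
theorem isWN_theory_of_modules (R : Type) [Ring R] (T : (Pool.Agent.MVC.LMod R).Theory)
    (hT : ∀ S : (Pool.Agent.MVC.LMod R).Structure ℕ,
      @FirstOrder.Language.Theory.Model (Pool.Agent.MVC.LMod R) ℕ S T →
      ∃ (g : AddCommGroup ℕ) (m : @Module R ℕ _ g.toAddCommMonoid),
        S = @Pool.Agent.MVC.modStr R _ ℕ g m) :
    ∀ S : (Pool.Agent.MVC.LMod R).Structure ℕ,
      @FirstOrder.Language.Theory.Model (Pool.Agent.MVC.LMod R) ℕ S T →
      @IsWN (Pool.Agent.MVC.LMod R) ℕ S := by
  intro S hS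
  obtain ⟨g, m, rfl⟩ := hT S hS
  exact @isWN_module R _ ℕ g m

end Pool.Agent.AFT
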