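import Pool.Agent.AFT.StFin

/-!
# The final statement with parameters (helper23)

`IsAffineP`: as `IsAffine`, but the group operation and the cosets are definable with parameters from a
finite set.
-/

set_option autoImplicit false

namespace Pool.Agent.AFT

open FirstOrder.Language

/-- `D` is a Boolean combination of cosets of subgroups of `M^n` which are definable with parameters
in `A`: `D` is a union of classes of the equivalence relation given by finitely many sets `C j`
definable with parameters in `A` and closed under `x - y + z`. -/
def IsBoolCosetsP (L : FirstOrder.Language.{0, 0}) {M : Type} [L.Structure M] [AddCommGroup M]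
    (A : Set M) {n : ℕ} (D : Set (Fin n → M)) : Prop :=
  ∃ (m : ℕ) (C : Fin m → Set (Fin n → M)),
    (∀ j, A.Definable L (C j) ∧
      ∀ x ∈ C j, ∀ y ∈ C j, ∀ z ∈ C j, x - y + z ∈ C j) ∧
    ∀ x y : Fin n → M, (∀ j, x ∈ C j ↔ y ∈ C j) → (x ∈ D ↔ y ∈ D)

/-- `M` is an affine structure: for some finite set `A` of parameters and some abelian group
operation `+` on `M`, with a graph definable over `A`, all basic relations and the graphs of all
basic functions of `M` are Boolean combinations of cosets definable over `A`. -/
def IsAffineP (L : FirstOrder.Language.{0, 0}) (M : Type) [L.Structure M] : Prop :=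
  ∃ (A : Set M) (_ : AddCommGroup M), A.Finite ∧
    A.Definable L {v : Fin 3 → M | v 0 + v 1 = v 2} ∧
    (∀ (n : ℕ) (R : L.Relations n), IsBoolCosetsP L A {x : Fin n → M | Structure.RelMap R x}) ∧
    ∀ (n : ℕ) (F : L.Functions n),
      IsBoolCosetsP L A {x : Fin (n + 1) → M | Structure.funMap F (Fin.init x) = x (Fin.last n)}

/-- Vaught's conjecture for all theories of structures which are affine with finitely many
parameters (in finite languages: for all one-based groups). -/
def St_PAR : Prop :=
  ∀ (L : FirstOrder.Language.{0, 0}), Countable L.Symbols → ∀ (T : L.Theory),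
    (∀ S : L.Structure ℕ, @FirstOrder.Language.Theory.Model L ℕ S T → @IsAffineP L ℕ S) →
    Dich L T

end Pool.Agent.AFT
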