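import Pool.Agent.AFT.TRF
import Pool.Agent.AFT.NCA
import Pool.Agent.AFT.FewL
import Pool.Agent.AFT.StPar
import Pool.Agent.WOM.DEFF

/-!
# The theorem with parameters follows from the theorem without parameters (helper23)
-/

set_option autoImplicit false
set_option linter.unusedSectionVars false
set_option linter.unusedVariables false

namespace Pool.Agent.AFT

open Set FirstOrder
open Pool.Agent.WOM (CtT PerfT)

variable {L : FirstOrder.Language.{0, 0}} {k : ℕ}

/-- the structure with `k` named elements -/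
@[instance_reducible]
def exS (S : L.Structure ℕ) (a : Fin k → ℕ) : (L.withConstants (Fin k)).Structure ℕ :=
  @FirstOrder.Language.withConstantsStructure L ℕ S (Fin k)
    (FirstOrder.Language.constantsOn.structure a)

/-- the reduct -/
@[instance_reducible]
def rdS (S : (L.withConstants (Fin k)).Structure ℕ) : L.Structure ℕ where
  funMap := fun {n} F x => S.funMap (n := n) (Sum.inl F) x
  RelMap := fun {n} R x => S.RelMap (n := n) (Sum.inl R) x

/-- the named elements -/
def cnS (S : (L.withConstants (Fin k)).Structure ℕ) : Fin k → ℕ :=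
  fun i => S.funMap (n := 0) (L.con i) Fin.elim0

theorem exS_rdS (S : (L.withConstants (Fin k)).Structure ℕ) : exS (rdS S) (cnS S) = S := by
  refine FirstOrder.Language.Structure.ext ?_ ?_
  · funext n F x
    rcases F with F | F
    · rfl
    · cases n with
      | zero =>
        have hx : x = Fin.elim0 := Subsingleton.elim _ _
        rw [hx]
        rfl
      | succ n => exact (F : PEmpty).elim
  · funext n R x
    rcases R with R | R
    · rfl
    · exact (R : Empty).elim

theorem sentence_exS (S : L.Structure ℕ) (a : Fin k → ℕ)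
    (φ : (L.withConstants (Fin k)).Sentence) :
    @FirstOrder.Language.Sentence.Realize (L.withConstants (Fin k)) ℕ (exS S a) φ ↔
      @FirstOrder.Language.Formula.Realize L ℕ S (Fin k)
        (FirstOrder.Language.Formula.equivSentence.symm φ) a := by
  let _ := S
  exact (FirstOrder.Language.Formula.realize_equivSentence_symm ℕ φ a).symm

/-- tuples with the same type give elementarily equivalent expansions -/
theorem elem_of_tp {S S' : L.Structure ℕ} {a b : Fin k → ℕ}
    (h : @tpS L (Fin k) ℕ S a = @tpS L (Fin k) ℕ S' b) :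
    @FirstOrder.Language.ElementarilyEquivalent (L.withConstants (Fin k)) ℕ ℕ (exS S a)
      (exS S' b) := by
  unfold FirstOrder.Language.ElementarilyEquivalent
  ext φ
  have h1 : FirstOrder.Language.Formula.equivSentence.symm φ ∈ @tpS L (Fin k) ℕ S a ↔
      FirstOrder.Language.Formula.equivSentence.symm φ ∈ @tpS L (Fin k) ℕ S' b := by rw [h]
  exact (sentence_exS S a φ).trans (h1.trans (sentence_exS S' b φ).symm)

theorem isBoolCosets_single {L' : FirstOrder.Language.{0, 0}} {M : Type} [L'.Structure M]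
    [AddCommGroup M] (c : M) (h : (∅ : Set M).Definable L' {x : Fin 1 → M | c = x 0}) :
    IsBoolCosets L' {x : Fin 1 → M | c = x 0} := by
  refine ⟨1, fun _ => {x : Fin 1 → M | c = x 0}, fun _ => ⟨h, ?_⟩, fun x y h => h 0⟩
  intro x hx y hy z hz
  have hx' : c = x 0 := hx
  have hy' : c = y 0 := hy
  have hz' : c = z 0 := hz
  show c = (x - y + z) 0
  rw [Pi.add_apply, Pi.sub_apply, ← hx', ← hy', ← hz', sub_self, zero_add]

/-- affine with parameters: affine in the language with constants for them -/
theorem isAffine_exS (S : L.Structure ℕ) (h : @IsAffineP L ℕ S) :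
    ∃ (k : ℕ) (a : Fin k → ℕ), @IsAffine (L.withConstants (Fin k)) ℕ (exS S a) := by
  let _ := S
  obtain ⟨A, g, hA, h1, h2, h3⟩ := h
  obtain ⟨k, a, -, ha⟩ := hA.fin_param
  subst ha
  let _ := FirstOrder.Language.constantsOn.structure a
  have hdef : ∀ {n : ℕ} {D : Set (Fin n → ℕ)}, (range a).Definable L D →
      (∅ : Set ℕ).Definable (L.withConstants (Fin k)) D := by
    intro n D hD
    obtain ⟨φ, hφ⟩ := (Pool.Agent.WOM.thm_DEFF L ℕ k a (Fin n) D).1 hD
    refine Set.empty_definable_iff.2
      ⟨FirstOrder.Language.BoundedFormula.constantsVarsEquiv.symm φ, ?_⟩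
    rw [hφ]
    ext v
    have h4 := FirstOrder.Language.BoundedFormula.realize_constantsVarsEquiv (L := L) (M := ℕ)
      (α := Fin k) (φ := FirstOrder.Language.BoundedFormula.constantsVarsEquiv.symm φ) (v := v)
      (xs := default)
    rw [Equiv.apply_symm_apply] at h4
    have h5 : (fun i : Fin k => ((L.con i : (L.withConstants (Fin k)).Constants) : ℕ)) = a := by
      funext i
      rfl
    rw [h5] at h4
    have h6 : FirstOrder.Language.Formula.Realize φ (Sum.elim a v) ↔
        FirstOrder.Language.BoundedFormula.Realize φ (Sum.elim a v) default := by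
      unfold FirstOrder.Language.Formula.Realize
      exact iff_of_eq (congrArg _ (Subsingleton.elim _ _))
    have h7 : FirstOrder.Language.BoundedFormula.Realize
        (FirstOrder.Language.BoundedFormula.constantsVarsEquiv.symm φ) v default ↔
        v ∈ Set.ofPred (FirstOrder.Language.Formula.Realize (M := ℕ)
          (FirstOrder.Language.BoundedFormula.constantsVarsEquiv.symm φ)) := by
      show _ ↔ FirstOrder.Language.Formula.Realize (M := ℕ)
          (FirstOrder.Language.BoundedFormula.constantsVarsEquiv.symm φ) v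
      unfold FirstOrder.Language.Formula.Realize
      exact iff_of_eq (congrArg _ (Subsingleton.elim _ _))
    exact h6.trans (h4.trans h7)
  have hbc : ∀ {n : ℕ} {D : Set (Fin n → ℕ)}, IsBoolCosetsP L (range a) D →
      IsBoolCosets (L.withConstants (Fin k)) D := by
    rintro n D ⟨m, C, hC, hD⟩
    exact ⟨m, C, fun j => ⟨hdef (hC j).1, (hC j).2⟩, hD⟩
  refine ⟨k, a, g, hdef h1, fun n R => ?_, fun n F => ?_⟩
  · rcases R with R | R
    · exact hbc (h2 n R)
    · exact (R : Empty).elim
  · rcases F with F | F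
    · exact hbc (h3 n F)
    · cases n with
      | zero =>
        let i : Fin k := F
        have hi : IsBoolCosets (L.withConstants (Fin k)) {x : Fin 1 → ℕ | a i = x 0} := by
          refine isBoolCosets_single (a i) (Set.empty_definable_iff.2
            ⟨(FirstOrder.Language.Constants.term (L.con i)).equal
              (FirstOrder.Language.Term.var (0 : Fin 1)), ?_⟩)
          ext x
          refine Iff.symm ?_
          refine (FirstOrder.Language.Formula.realize_equal).trans ?_
          rw [FirstOrder.Language.Term.realize_constants]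
          exact Iff.rfl
        exact hi
      | succ n => exact (F : PEmpty).elim

/-- an isomorphism of the expansions is an isomorphism of the reducts -/
theorem equiv_rdS {S S' : (L.withConstants (Fin k)).Structure ℕ}
    (e : @FirstOrder.Language.Equiv (L.withConstants (Fin k)) ℕ ℕ S S') :
    Nonempty (@FirstOrder.Language.Equiv L ℕ ℕ (rdS S) (rdS S')) := by
  refine ⟨@FirstOrder.Language.Equiv.mk L ℕ ℕ (rdS S) (rdS S')
    (@FirstOrder.Language.Equiv.toEquiv (L.withConstants (Fin k)) ℕ ℕ S S' e) ?_ ?_⟩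
  · intro n F x
    exact @FirstOrder.Language.Equiv.map_fun' (L.withConstants (Fin k)) ℕ ℕ S S' e n (Sum.inl F) x
  · intro n R x
    exact @FirstOrder.Language.Equiv.map_rel' (L.withConstants (Fin k)) ℕ ℕ S S' e n (Sum.inl R) x

/-- an isomorphism of the reducts which maps the constants to the constants -/
theorem equiv_of_isoC {S S' : (L.withConstants (Fin k)).Structure ℕ}
    (h : IsoC (rdS S) (rdS S') (cnS S) (cnS S')) :
    Nonempty (@FirstOrder.Language.Equiv (L.withConstants (Fin k)) ℕ ℕ S S') := by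
  obtain ⟨p, q, h1, h2, h3, h4, h5⟩ := h
  refine ⟨@FirstOrder.Language.Equiv.mk (L.withConstants (Fin k)) ℕ ℕ S S'
    ⟨p, q, h2, h1⟩ ?_ ?_⟩
  · intro n F x
    rcases F with F | F
    · exact h4 n F x
    · cases n with
      | zero =>
        have hx : x = Fin.elim0 := Subsingleton.elim _ _
        have h6 := h5 F
        rw [hx]
        have hy : (p ∘ (Fin.elim0 : Fin 0 → ℕ)) = Fin.elim0 := Subsingleton.elim _ _
        show p (S.funMap (n := 0) (Sum.inr F) Fin.elim0) = S'.funMap (n := 0) (Sum.inr F)
          (p ∘ Fin.elim0)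
        rw [hy]
        exact h6
      | succ n => exact (F : PEmpty).elim
  · intro n R x
    rcases R with R | R
    · exact (h3 n R x).symm
    · exact (R : Empty).elim

/-- a perfect set of models with constants gives a perfect set of models -/
theorem perfT_of_withConstants (hL : Countable L.Symbols) {T : L.Theory}
    {T' : (L.withConstants (Fin k)).Theory}
    (hT : ∀ S, @FirstOrder.Language.Theory.Model (L.withConstants (Fin k)) ℕ S T' →
      @FirstOrder.Language.Theory.Model L ℕ (rdS S) T)
    (h : PerfT (L.withConstants (Fin k)) T') : PerfT L T := by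
  obtain ⟨f, h1, h2, h3, h4⟩ := h
  refine perfT_of_const hL T (fun x => rdS (f x)) (fun x => cnS (f x)) (fun x => hT _ (h1 x))
    (fun x y hxy => h2 x y (equiv_of_isoC hxy)) (fun n R a => h3 n (Sum.inl R) a)
    (fun n F a b => h4 n (Sum.inl F) a b) (fun i m => h4 0 (L.con i) Fin.elim0 m)

instance countable_withConstants [hL : Countable L.Symbols] :
    Countable (L.withConstants (Fin k)).Symbols := by
  have h1 : (L.withConstants (Fin k)).card ≤ Cardinal.aleph0 := by
    rw [FirstOrder.Language.card_withConstants]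
    refine Cardinal.add_le_aleph0.2 ⟨?_, ?_⟩
    · rw [Cardinal.lift_le_aleph0]
      exact Cardinal.mk_le_aleph0_iff.2 hL
    · rw [Cardinal.lift_le_aleph0]
      exact Cardinal.mk_le_aleph0
  exact Cardinal.mk_le_aleph0_iff.1 h1

/-- the main step, for one type -/
theorem par_step (hFIN : St_FIN) (hL : Countable L.Symbols) {T : L.Theory} (hnp : ¬ PerfT L T)
    (S₀ : L.Structure ℕ) (hS₀ : @FirstOrder.Language.Theory.Model L ℕ S₀ T) (a₀ : Fin k → ℕ)
    (hA : @IsAffine (L.withConstants (Fin k)) ℕ (exS S₀ a₀)) :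
    ∃ g : ℕ → L.Structure ℕ, ∀ (S : L.Structure ℕ) (a : Fin k → ℕ),
      @tpS L (Fin k) ℕ S a = @tpS L (Fin k) ℕ S₀ a₀ →
      ∃ n : ℕ, Nonempty (@FirstOrder.Language.Equiv L ℕ ℕ S (g n)) := by
  classical
  let T' : (L.withConstants (Fin k)).Theory :=
    FirstOrder.Language.Formula.equivSentence '' (@tpS L (Fin k) ℕ S₀ a₀)
  -- models of `T'`
  have hmod : ∀ (S : L.Structure ℕ) (a : Fin k → ℕ),
      @FirstOrder.Language.Theory.Model (L.withConstants (Fin k)) ℕ (exS S a) T' ↔
        @tpS L (Fin k) ℕ S a = @tpS L (Fin k) ℕ S₀ a₀ := by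
    intro S a
    have h1 : ∀ φ : L.Formula (Fin k),
        @FirstOrder.Language.Sentence.Realize (L.withConstants (Fin k)) ℕ (exS S a)
          (FirstOrder.Language.Formula.equivSentence φ) ↔
        @FirstOrder.Language.Formula.Realize L ℕ S (Fin k) φ a := by
      intro φ
      rw [sentence_exS, Equiv.symm_apply_apply]
    constructor
    · intro h
      have h2 : @tpS L (Fin k) ℕ S₀ a₀ ⊆ @tpS L (Fin k) ℕ S a := fun φ hφ =>
        (h1 φ).1 (h.realize_of_mem _ (mem_image_of_mem _ hφ))
      refine Subset.antisymm (fun φ hφ => ?_) h2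
      by_contra hn
      have h3 : φ.not ∈ @tpS L (Fin k) ℕ S₀ a₀ := by
        let _ := S₀
        exact FirstOrder.Language.Formula.realize_not.2 hn
      have h4 := h2 h3
      let _ := S
      exact (FirstOrder.Language.Formula.realize_not (M := ℕ)).1 h4 hφ
    · intro h
      refine @FirstOrder.Language.Theory.Model.mk (L.withConstants (Fin k)) ℕ (exS S a) T' ?_
      rintro _ ⟨φ, hφ, rfl⟩
      rw [h1]
      have h2 : φ ∈ @tpS L (Fin k) ℕ S a := by
        rw [h]
        exact hφ
      exact h2
  have hmod' : ∀ S', @FirstOrder.Language.Theory.Model (L.withConstants (Fin k)) ℕ S' T' →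
      @tpS L (Fin k) ℕ (rdS S') (cnS S') = @tpS L (Fin k) ℕ S₀ a₀ := by
    intro S' h
    rw [← hmod, exS_rdS]
    exact h
  -- they are affine
  have haff : ∀ S', @FirstOrder.Language.Theory.Model (L.withConstants (Fin k)) ℕ S' T' →
      @IsAffine (L.withConstants (Fin k)) ℕ S' := by
    intro S' h
    have h1 := elem_of_tp (hmod' S' h).symm
    rw [exS_rdS] at h1
    exact @isAffine_transfer (L.withConstants (Fin k)) ℕ ℕ (exS S₀ a₀) S' h1 hA
  -- their reducts are models of `T`
  have hred : ∀ S', @FirstOrder.Language.Theory.Model (L.withConstants (Fin k)) ℕ S' T' →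
      @FirstOrder.Language.Theory.Model L ℕ (rdS S') T := by
    intro S' h
    have h1 := hmod' S' h
    refine @FirstOrder.Language.Theory.Model.mk L ℕ (rdS S') T fun φ hφ => ?_
    have h2 : ∀ (S : L.Structure ℕ) (a : Fin k → ℕ),
        (FirstOrder.Language.Formula.relabel (Empty.elim : Empty → Fin k) φ) ∈
          @tpS L (Fin k) ℕ S a ↔ @FirstOrder.Language.Sentence.Realize L ℕ S φ := by
      intro S a
      let _ := S
      refine (FirstOrder.Language.Formula.realize_relabel).trans ?_
      exact iff_of_eq (congrArg (fun v : Empty → ℕ => FirstOrder.Language.Formula.Realize φ v)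
        (Subsingleton.elim _ _))
    rw [← h2 (rdS S') (cnS S'), h1, h2]
    exact hS₀.realize_of_mem φ hφ
  rcases hFIN (L.withConstants (Fin k)) countable_withConstants T' haff with ⟨g, hg⟩ | h
  · refine ⟨fun n => rdS (g n), fun S a h => ?_⟩
    obtain ⟨n, ⟨e⟩⟩ := hg (exS S a) ((hmod S a).2 h)
    refine ⟨n, ?_⟩
    exact equiv_rdS e
  · exact absurd (perfT_of_withConstants hL hred h) hnp

/-- **The theorem with parameters.** -/
theorem par_of_fin (hFIN : St_FIN) : St_PAR := by
  intro L hL T hT
  by_cases hnp : PerfT L T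
  · exact Or.inr hnp
  left
  -- the types
  let P : Set ((k : ℕ) × Set (L.Formula (Fin k))) :=
    {σ | ∃ (S : L.Structure ℕ) (a : Fin σ.1 → ℕ), @FirstOrder.Language.Theory.Model L ℕ S T ∧
      @IsAffine (L.withConstants (Fin σ.1)) ℕ (exS S a) ∧ @tpS L (Fin σ.1) ℕ S a = σ.2}
  have hP : P.Countable := by
    refine (countable_iUnion fun k : ℕ => (fewL0 hL hnp k).image fun p =>
      (⟨k, p⟩ : (k : ℕ) × Set (L.Formula (Fin k)))).mono ?_
    rintro ⟨k, p⟩ ⟨S, a, hS, -, h⟩
    exact mem_iUnion.2 ⟨k, p, ⟨ℕ, S, inferInstance, inferInstance, hS, a, h⟩, rfl⟩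
  have hstep : ∀ σ : P, ∃ g : ℕ → L.Structure ℕ, ∀ (S : L.Structure ℕ) (a : Fin σ.1.1 → ℕ),
      @tpS L (Fin σ.1.1) ℕ S a = σ.1.2 →
      ∃ n : ℕ, Nonempty (@FirstOrder.Language.Equiv L ℕ ℕ S (g n)) := by
    rintro ⟨⟨k, p⟩, S₀, a₀, h1, h2, h3⟩
    obtain ⟨g, hg⟩ := par_step hFIN hL hnp S₀ h1 a₀ h2
    refine ⟨g, fun S a h => hg S a ?_⟩
    rw [h]
    exact h3.symm
  choose g hg using hstep
  have hPc : Countable P := hP.to_subtype
  by_cases hne : Nonempty P
  · obtain ⟨q, hq⟩ := exists_surjective_nat (P × ℕ)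
    refine ⟨fun n => g (q n).1 (q n).2, fun S hS => ?_⟩
    obtain ⟨k, a, ha⟩ := isAffine_exS S (hT S hS)
    let σ : P := ⟨⟨k, @tpS L (Fin k) ℕ S a⟩, S, a, hS, ha, rfl⟩
    obtain ⟨n, hn⟩ := hg σ S a rfl
    obtain ⟨m, hm⟩ := hq (σ, n)
    refine ⟨m, ?_⟩
    show Nonempty (@FirstOrder.Language.Equiv L ℕ ℕ S (g (q m).1 (q m).2))
    rw [hm]
    exact hn
  · refine ⟨fun _ => Pool.Agent.WOM.strF (fun _ => true, fun _ => 0), fun S hS => ?_⟩
    obtain ⟨k, a, ha⟩ := isAffine_exS S (hT S hS)
    exact absurd ⟨⟨⟨k, @tpS L (Fin k) ℕ S a⟩, S, a, hS, ha, rfl⟩⟩ hne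

end Pool.Agent.AFT
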