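import Pool.Agent.AFT.StPar

/-!
# The final statement for groups, not necessarily commutative (helper79)

`IsAffineG`: a group with an abelian definable subgroup of finite index, in which all basic relations and
functions are Boolean combinations of definable cosets, with finitely many parameters.  (In a finite language,
by Hrushovski and Pillay, these are exactly the one-based groups with any further structure.)
-/

set_option autoImplicit false

namespace Pool.Agent.AFT

open FirstOrder.Language

/-- `D ⊆ M^n` is a Boolean combination of cosets of subgroups of `M^n` which are definable with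
parameters in `A`: `D` is a union of classes of the equivalence relation given by finitely many sets
`C j` definable with parameters in `A` and closed under `x y⁻¹ z` (that is, empty or cosets of
subgroups). -/
def IsBoolCosetsG (L : FirstOrder.Language.{0, 0}) {M : Type} [L.Structure M] [Group M]
    (A : Set M) {n : ℕ} (D : Set (Fin n → M)) : Prop :=
  ∃ (m : ℕ) (C : Fin m → Set (Fin n → M)),
    (∀ j, A.Definable L (C j) ∧
      ∀ x ∈ C j, ∀ y ∈ C j, ∀ z ∈ C j, x * y⁻¹ * z ∈ C j) ∧
    ∀ x y : Fin n → M, (∀ j, x ∈ C j ↔ y ∈ C j) → (x ∈ D ↔ y ∈ D)

/-- `M` is an affine structure over a group: for some finite set `A` of parameters and some group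
operation on `M`, with a graph definable over `A` and with a commutative subgroup of finite index
definable over `A`, all basic relations and the graphs of all basic functions of `M` are Boolean
combinations of cosets definable over `A`. -/
def IsAffineG (L : FirstOrder.Language.{0, 0}) (M : Type) [L.Structure M] : Prop :=
  ∃ (A : Set M) (_ : Group M), A.Finite ∧
    A.Definable L {v : Fin 3 → M | v 0 * v 1 = v 2} ∧
    (∃ N : Subgroup M, N.FiniteIndex ∧ (∀ x ∈ N, ∀ y ∈ N, x * y = y * x) ∧
      A.Definable₁ L (N : Set M)) ∧
    (∀ (n : ℕ) (R : L.Relations n), IsBoolCosetsG L A {x : Fin n → M | Structure.RelMap R x}) ∧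
    ∀ (n : ℕ) (F : L.Functions n),
      IsBoolCosetsG L A {x : Fin (n + 1) → M | Structure.funMap F (Fin.init x) = x (Fin.last n)}

/-- Vaught's conjecture for all theories of structures which are affine over groups with finitely
many parameters (in finite languages: for all one-based groups). -/
def St_GRP : Prop :=
  ∀ (L : FirstOrder.Language.{0, 0}), Countable L.Symbols → ∀ (T : L.Theory),
    (∀ S : L.Structure ℕ, @FirstOrder.Language.Theory.Model L ℕ S T → @IsAffineG L ℕ S) →
    Dich L T

end Pool.Agent.AFT
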