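import Pool.Agent.AFT.StGrp

/-!
# The final statement: weakly normal groups (helper31)

`IsWN`: the graph of some group operation (commutative or not) and all basic relations and functions are
Boolean combinations of cosets which are definable over a finite set.  In a finite language these are, by
Hrushovski and Pillay, exactly the weakly normal (one-based) groups with any further structure.
-/

set_option autoImplicit false

namespace Pool.Agent.AFT

open FirstOrder.Language

/-- For some finite set `A` of parameters and some group operation on `M` (not necessarily
commutative), the graph of the operation, all basic relations and the graphs of all basic functions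
of `M` are Boolean combinations of cosets of subgroups of powers of `M` which are definable over
`A`. -/
def IsWN (L : FirstOrder.Language.{0, 0}) (M : Type) [L.Structure M] : Prop :=
  ∃ (A : Set M) (_ : Group M), A.Finite ∧
    IsBoolCosetsG L A {v : Fin 3 → M | v 0 * v 1 = v 2} ∧
    (∀ (n : ℕ) (R : L.Relations n), IsBoolCosetsG L A {x : Fin n → M | Structure.RelMap R x}) ∧
    ∀ (n : ℕ) (F : L.Functions n),
      IsBoolCosetsG L A {x : Fin (n + 1) → M | Structure.funMap F (Fin.init x) = x (Fin.last n)}

/-- Vaught's conjecture for all theories whose models on `ℕ` are such groups. -/
def St_WN : Prop :=
  ∀ (L : FirstOrder.Language.{0, 0}), Countable L.Symbols → ∀ (T : L.Theory),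
    (∀ S : L.Structure ℕ, @FirstOrder.Language.Theory.Model L ℕ S T → @IsWN L ℕ S) →
    Dich L T

end Pool.Agent.AFT
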