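import Pool.Agent.AVC.Defs
import Pool.Agent.AFT.Cos
import Pool.Agent.AFT.Few

/-!
# The affine structure given by the definable cosets (helper31)

`IdxU L U`: the formulas which define a nonempty coset in `U`. `ZU L U`: the ring of integers with this
index set as signature. Each structure `M` which is an abelian group becomes a structure for this
signature: `P θ` is the group of the differences of `θ(M)`.
-/

set_option autoImplicit false
set_option linter.unusedSectionVars false
set_option linter.unusedVariables false

namespace Pool.Agent.AFT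

open Set FirstOrder Pool.Agent.AVC

/-- the group of the differences of a coset `D` (zero if `D` is not a coset) -/
def cosP {M ι : Type} [AddCommGroup M] (D : Set (ι → M)) : AddSubgroup (ι → M) where
  carrier := {x | x = 0 ∨ (Cos3 D ∧ ∃ y ∈ D, ∃ z ∈ D, x = y - z)}
  zero_mem' := Or.inl rfl
  add_mem' := by
    rintro a b (rfl | ⟨hD, y, hy, z, hz, rfl⟩) hb
    · rw [zero_add]
      exact hb
    · rcases hb with rfl | ⟨-, y', hy', z', hz', rfl⟩
      · rw [add_zero]
        exact Or.inr ⟨hD, y, hy, z, hz, rfl⟩
      · refine Or.inr ⟨hD, y - z + y', hD y hy z hz y' hy', z', hz', ?_⟩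
        abel
  neg_mem' := by
    rintro a (rfl | ⟨hD, y, hy, z, hz, rfl⟩)
    · exact Or.inl neg_zero
    · exact Or.inr ⟨hD, z, hz, y, hy, by abel⟩

theorem mem_cosP {M ι : Type} [AddCommGroup M] {D : Set (ι → M)} {x : ι → M} :
    x ∈ cosP D ↔ x = 0 ∨ (Cos3 D ∧ ∃ y ∈ D, ∃ z ∈ D, x = y - z) := Iff.rfl

theorem mem_iff_cosP {M ι : Type} [AddCommGroup M] {D : Set (ι → M)} (hD : Cos3 D) {x : ι → M}
    (hx : x ∈ D) (y : ι → M) : y ∈ D ↔ y - x ∈ cosP D := by
  constructor
  · intro hy
    exact Or.inr ⟨hD, y, hy, x, hx, rfl⟩
  · rintro (h | ⟨-, a, ha, b, hb, h⟩)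
    · rw [sub_eq_zero] at h
      rw [h]
      exact hx
    · have h1 : y = a - b + x := by
        rw [← h]
        abel
      rw [h1]
      exact hD a ha b hb x hx

/-- the formulas which define a nonempty coset in `U` -/
def IdxU (L : FirstOrder.Language.{0, 0}) (U : Type) [L.Structure U] [AddCommGroup U] : Type :=
  {θ : (n : ℕ) × L.Formula (Fin n) // (∃ x : Fin θ.1 → U, θ.2.Realize x) ∧
    Cos3 {x : Fin θ.1 → U | θ.2.Realize x}}

instance countable_idxU (L : FirstOrder.Language.{0, 0}) [hL : Countable L.Symbols] (U : Type)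
    [L.Structure U] [AddCommGroup U] : Countable (IdxU L U) := by
  have _ : ∀ n, Countable (L.Formula (Fin n)) := fun n => countable_formula hL (Fin n)
  exact Subtype.countable

/-- the ring of the integers, for the signature `IdxU L U` -/
def ZU (L : FirstOrder.Language.{0, 0}) (U : Type) [L.Structure U] [AddCommGroup U] : Type := ℤ

instance (L : FirstOrder.Language.{0, 0}) (U : Type) [L.Structure U] [AddCommGroup U] :
    Ring (ZU L U) := inferInstanceAs (Ring ℤ)

instance (L : FirstOrder.Language.{0, 0}) (U : Type) [L.Structure U] [AddCommGroup U] :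
    Countable (ZU L U) := inferInstanceAs (Countable ℤ)

instance sigU (L : FirstOrder.Language.{0, 0}) [Countable L.Symbols] (U : Type) [L.Structure U]
    [AddCommGroup U] : RSig (ZU L U) where
  Ix := IdxU L U
  ar := fun θ => θ.1.1
  ctb := countable_idxU L U

/-- every abelian group is a module over `ZU L U` -/
@[instance_reducible]
def zuMod (L : FirstOrder.Language.{0, 0}) (U : Type) [L.Structure U] [AddCommGroup U] (M : Type)
    [AddCommGroup M] : Module (ZU L U) M := inferInstanceAs (Module ℤ M)

/-- the homogeneous part of the affine structure -/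
@[instance_reducible]
def mosU (L : FirstOrder.Language.{0, 0}) [Countable L.Symbols] (U : Type) [L.Structure U]
    [AddCommGroup U] (M : Type) [L.Structure M] [AddCommGroup M] : MoS (ZU L U) M where
  toModule := zuMod L U M
  P := fun θ => cosP {x : Fin θ.1.1 → M | θ.1.2.Realize x}

end Pool.Agent.AFT
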