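import Pool.Agent.AFT.Str

/-!
# The affine structure is first order (helper31)
-/

set_option autoImplicit false
set_option linter.unusedSectionVars false
set_option linter.unusedVariables false

namespace Pool.Agent.AFT

open Set FirstOrder Pool.Agent.AVC

section

variable {L : FirstOrder.Language.{0, 0}} {add : L.Formula (Fin 3)} {α ι : Type}

/-- the property to define a coset is first order -/
theorem isGF_cos3 [Finite ι] (θ : L.Formula ι) :
    IsGF add (α := α) (fun M _ _ _ => Cos3 {x : ι → M | θ.Realize x}) := by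
  classical
  let t : ι → ((α ⊕ (ι ⊕ (ι ⊕ ι))) →₀ ℤ) := fun i => Finsupp.single (Sum.inr (Sum.inl i)) 1 -
    Finsupp.single (Sum.inr (Sum.inr (Sum.inl i))) 1 +
      Finsupp.single (Sum.inr (Sum.inr (Sum.inr i))) 1
  have hF : IsGF add (α := α ⊕ (ι ⊕ (ι ⊕ ι))) (fun M _ _ x =>
      θ.Realize (x ∘ fun i => Sum.inr (Sum.inl i)) →
      θ.Realize (x ∘ fun i => Sum.inr (Sum.inr (Sum.inl i))) →
      θ.Realize (x ∘ fun i => Sum.inr (Sum.inr (Sum.inr i))) →
      θ.Realize (fun i => Finsupp.linearCombination ℤ x (t i))) :=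
    ((isGF_formula θ).comap _).imp (((isGF_formula θ).comap _).imp
      (((isGF_formula θ).comap _).imp (isGF_subst_lin (isGF_formula θ) t)))
  refine hF.all.congr fun M _ _ _ x => ?_
  have hlin : ∀ (x : α → M) (y : ι ⊕ (ι ⊕ ι) → M),
      (fun i => Finsupp.linearCombination ℤ (Sum.elim x y) (t i)) = (fun i => y (Sum.inl i)) -
        (fun i => y (Sum.inr (Sum.inl i))) + (fun i => y (Sum.inr (Sum.inr i))) := by
    intro x y
    funext i
    simp [t, Finsupp.linearCombination_single]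
  constructor
  · intro h a ha b hb c hc
    have h1 := h (Sum.elim a (Sum.elim b c)) ha hb hc
    rw [hlin] at h1
    exact h1
  · intro h y h1 h2 h3
    rw [hlin]
    exact h _ h1 _ h2 _ h3

theorem isGF_eq0 [Finite ι] : IsGF add (fun M _ _ (x : ι → M) => x = 0) :=
  (IsGF.all_fin fun i => isGF_zero i).congr fun M _ _ _ x =>
    ⟨fun h => funext h, fun h i => congrFun h i⟩

/-- membership in the group of the differences is first order -/
theorem isGF_cosP [Finite ι] (θ : L.Formula ι) :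
    IsGF add (fun M _ _ (x : ι → M) => x ∈ cosP {x : ι → M | θ.Realize x}) := by
  have h1 : IsGF add (fun M _ _ (x : ι → M) => ∃ y : ι ⊕ ι → M, θ.Realize (y ∘ Sum.inl) ∧
      θ.Realize (y ∘ Sum.inr) ∧ ∀ i, x i + (y ∘ Sum.inr) i = (y ∘ Sum.inl) i) :=
    IsGF.ex' (β := ι ⊕ ι) (fun M _ _ (x : ι → M) y => θ.Realize (y ∘ Sum.inl) ∧
      θ.Realize (y ∘ Sum.inr) ∧ ∀ i, x i + (y ∘ Sum.inr) i = (y ∘ Sum.inl) i)
      (((isGF_formula θ).comap (fun i => Sum.inr (Sum.inl i))).and
        (((isGF_formula θ).comap (fun i => Sum.inr (Sum.inr i))).and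
          (IsGF.all_fin fun i => isGF_add (Sum.inl i) (Sum.inr (Sum.inr i))
            (Sum.inr (Sum.inl i)))))
  refine (isGF_eq0.or ((isGF_cos3 θ).and h1)).congr fun M _ _ _ x => ?_
  rw [mem_cosP]
  refine or_congr Iff.rfl (and_congr Iff.rfl ?_)
  constructor
  · rintro ⟨y, h1, h2, h3⟩
    refine ⟨_, h1, _, h2, ?_⟩
    funext i
    exact eq_sub_of_add_eq (h3 i)
  · rintro ⟨a, ha, b, hb, rfl⟩
    exact ⟨Sum.elim a b, ha, hb, fun i => sub_add_cancel (a i) (b i)⟩

variable [Countable L.Symbols] {U : Type} [L.Structure U] [AddCommGroup U]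

/-- atomic formulas are first order -/
theorem isGF_hold (a : Atm (ZU L U) α) :
    IsGF add (fun M _ _ (x : α → M) => @Hold (ZU L U) _ α a M _ (mosU L U M) x) := by
  rcases a with e | ⟨θ, b, t⟩
  · exact isGF_lin_eq_zero (α := α) e
  · exact isGF_subst_lin (isGF_cosP θ.1.2) t

end

end Pool.Agent.AFT
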