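import Pool.Agent.AFT.GRP
import Pool.Agent.AFT.Cos

/-!
# `IsAffine` is invariant under elementary equivalence (helper23)
-/

set_option autoImplicit false
set_option linter.unusedSectionVars false
set_option linter.unusedVariables false

namespace Pool.Agent.AFT

open Set FirstOrder

variable {L : FirstOrder.Language.{0, 0}}

/-- Boolean combinations of definable cosets transfer -/
theorem bc_transfer {add : L.Formula (Fin 3)} {M N : Type} [L.Structure M] [L.Structure N]
    [AddCommGroup M] [AddCommGroup N] (hMa : IsAdd add M) (hNa : IsAdd add N)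
    (h : L.ElementarilyEquivalent M N) {n : ℕ} (δ : L.Formula (Fin n))
    (hM : IsBoolCosets L {x : Fin n → M | δ.Realize x}) :
    IsBoolCosets L {x : Fin n → N | δ.Realize x} := by
  obtain ⟨k, θ, E, h1, h2⟩ := bc_uniform δ hM
  refine ⟨k, fun j => {x : Fin n → N | (θ j).Realize x}, fun j => ⟨?_, ?_⟩, fun x y hxy => ?_⟩
  · exact Set.empty_definable_iff.2 ⟨θ j, rfl⟩
  · exact cos3_transfer (θ j) hMa hNa h (h1 j)
  · have h3 : (fun j => (θ j).Realize x) = fun j => (θ j).Realize y :=
      funext fun j => propext (hxy j)
    show δ.Realize x ↔ δ.Realize y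
    rw [h2 N h x, h2 N h y, h3]

/-- structures elementarily equivalent to an affine structure are affine -/
theorem isAffine_transfer {M N : Type} [L.Structure M] [L.Structure N]
    (h : L.ElementarilyEquivalent M N) (hM : IsAffine L M) : IsAffine L N := by
  obtain ⟨g, h1, h2, h3⟩ := hM
  obtain ⟨s, hs⟩ := Set.empty_definable_iff.1 h1
  have hMa : ∀ v : Fin 3 → M, s.Realize v ↔ v 0 + v 1 = v 2 := fun v => by
    have h4 : v ∈ {v : Fin 3 → M | v 0 + v 1 = v 2} ↔ v ∈ Set.ofPred s.Realize := by rw [hs]
    exact h4.symm
  obtain ⟨gN, hNa⟩ := GRP_ex h s hMa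
  refine ⟨gN, ?_, fun n R => ?_, fun n F => ?_⟩
  · refine Set.empty_definable_iff.2 ⟨s, ?_⟩
    ext v
    exact (hNa v).symm
  · let δ : L.Formula (Fin n) := R.formula fun i => FirstOrder.Language.Term.var i
    have hδ : ∀ (K : Type) [L.Structure K], {x : Fin n → K | δ.Realize x} =
        {x : Fin n → K | FirstOrder.Language.Structure.RelMap R x} := by
      intro K _
      ext x
      exact FirstOrder.Language.Formula.realize_rel
    have h4 := h2 n R
    rw [← hδ M] at h4
    have h5 := bc_transfer hMa hNa h δ h4
    rw [hδ N] at h5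
    exact h5
  · let δ : L.Formula (Fin (n + 1)) :=
      (FirstOrder.Language.Term.func F fun i => FirstOrder.Language.Term.var i.castSucc).equal
        (FirstOrder.Language.Term.var (Fin.last n))
    have hδ : ∀ (K : Type) [L.Structure K], {x : Fin (n + 1) → K | δ.Realize x} =
        {x : Fin (n + 1) → K | FirstOrder.Language.Structure.funMap F (Fin.init x) =
          x (Fin.last n)} := by
      intro K _
      ext x
      exact FirstOrder.Language.Formula.realize_equal
    have h4 := h3 n F
    rw [← hδ M] at h4
    have h5 := bc_transfer hMa hNa h δ h4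
    rw [hδ N] at h5
    exact h5

end Pool.Agent.AFT
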