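import Pool.Agent.AFT.StrF
import Pool.Agent.AVC.Aff

/-!
# The affine structure given by the definable cosets, affine reading (helper31)

`afsU L U M`: `Q θ` is `θ(M)` if this is a coset. Affine formulas are first-order formulas.
-/

set_option autoImplicit false
set_option linter.unusedSectionVars false
set_option linter.unusedVariables false

namespace Pool.Agent.AFT

open Set FirstOrder Pool.Agent.AVC

/-- the affine structure -/
@[instance_reducible]
def afsU (L : FirstOrder.Language.{0, 0}) [Countable L.Symbols] (U : Type) [L.Structure U]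
    [AddCommGroup U] (M : Type) [L.Structure M] [AddCommGroup M] : AfS (ZU L U) M where
  toMoS := mosU L U M
  Q := fun θ => {x : Fin θ.1.1 → M | θ.1.2.Realize x ∧
    Cos3 {x : Fin θ.1.1 → M | θ.1.2.Realize x}}
  cos := by
    rintro θ x y ⟨hx, hc⟩
    show (θ.1.2.Realize y ∧ Cos3 {x : Fin θ.1.1 → M | θ.1.2.Realize x}) ↔
      y - x ∈ cosP {x : Fin θ.1.1 → M | θ.1.2.Realize x}
    have hx' : x ∈ {x : Fin θ.1.1 → M | θ.1.2.Realize x} := hx
    rw [← mem_iff_cosP hc hx' y]
    exact and_iff_left hc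

section

variable {L : FirstOrder.Language.{0, 0}} {add : L.Formula (Fin 3)} {α ι : Type}
  [Countable L.Symbols] {U : Type} [L.Structure U] [AddCommGroup U]

/-- atomic formulas are first order -/
theorem isGF_ahold (a : Atm (ZU L U) α) :
    IsGF add (fun M _ _ (x : α → M) => @AHold (ZU L U) _ α a M _ (afsU L U M) x) := by
  rcases a with e | ⟨θ, b, t⟩
  · exact isGF_lin_eq_zero (α := α) e
  · cases b
    · exact isGF_subst_lin (isGF_cosP θ.1.2) t
    · exact isGF_subst_lin ((isGF_formula θ.1.2).and (isGF_cos3 θ.1.2)) t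

/-- affine formulas are first order -/
theorem isGF_asat (φ : PP (ZU L U) ι) :
    IsGF add (fun M _ _ (x : ι → M) => @ASat (ZU L U) _ ι φ M _ (afsU L U M) x) := by
  obtain ⟨K, hK'⟩ := pp_bd φ
  have hK : ∀ e ∈ φ, ∀ m : ℕ, (Sum.inr m : ι ⊕ ℕ) ∈ asup e → m ≤ K :=
    fun e he m hm => (hK' e he m hm).le
  let f : ℕ → Fin (K + 1) := fun m => Fin.ofNat (K + 1) m
  have hf : ∀ m, m ≤ K → (f m).1 = m := fun m hm => Nat.mod_eq_of_lt (Nat.lt_succ_of_le hm)
  have h0 : IsGF add (α := ι ⊕ Fin (K + 1)) (fun M _ _ z =>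
      ∀ e ∈ φ.map (amap (Sum.map id f : ι ⊕ ℕ → ι ⊕ Fin (K + 1))),
        @AHold (ZU L U) _ _ e M _ (afsU L U M) z) :=
    IsGF.all_list _ fun e _ => isGF_ahold e
  refine h0.ex.congr fun M _ _ _ x => ?_
  let _ := afsU L U M
  have h1 : ∀ (y : Fin (K + 1) → M) (e : Atm (ZU L U) (ι ⊕ ℕ)),
      AHold (amap (Sum.map id f) e) M (Sum.elim x y) ↔ AHold e M (Sum.elim x (y ∘ f)) := by
    intro y e
    rw [ahold_amap]
    have h2 : (Sum.elim x y : ι ⊕ Fin (K + 1) → M) ∘ Sum.map id f = Sum.elim x (y ∘ f) := by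
      funext i
      cases i <;> rfl
    rw [h2]
  constructor
  · rintro ⟨y, hy⟩
    refine ⟨y ∘ f, fun e he => ?_⟩
    rw [← h1]
    exact hy _ (List.mem_map_of_mem he)
  · rintro ⟨y, hy⟩
    refine ⟨fun k => y k.1, ?_⟩
    intro e' he'
    obtain ⟨e, he, rfl⟩ := List.mem_map.1 he'
    rw [h1]
    refine (ahold_congr fun s hs => ?_).1 (hy e he)
    rcases s with i | m
    · rfl
    · show y m = y (f m).1
      rw [hf m (hK e he m hs)]

end

/-- the affine structure of `U`, bundled -/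
def UA (L : FirstOrder.Language.{0, 0}) [Countable L.Symbols] (U : Type) [L.Structure U]
    [AddCommGroup U] : Ad (ZU L U) := @Ad.mk (ZU L U) _ U _ (afsU L U U)

section

variable {L : FirstOrder.Language.{0, 0}} {add : L.Formula (Fin 3)} {ι : Type}
  [Countable L.Symbols] {U : Type} [L.Structure U] [AddCommGroup U]

/-- affine formulas are given by first-order formulas -/
theorem exists_fo (hadd : IsAdd add U) (φ : PP (ZU L U) ι) : ∃ ψ : L.Formula ι,
    ∀ x : ι → U, ψ.Realize x ↔ ASat φ (UA L U) x := by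
  obtain ⟨ψ, hψ⟩ := isGF_asat (add := add) φ
  exact ⟨ψ, fun x => (hψ U hadd x).symm⟩

/-- the formula of an affine formula -/
noncomputable def foU (hadd : IsAdd add U) (φ : PP (ZU L U) ι) : L.Formula ι :=
  (exists_fo hadd φ).choose

theorem foU_iff (hadd : IsAdd add U) (φ : PP (ZU L U) ι) (x : ι → U) :
    (foU hadd φ).Realize x ↔ ASat φ (UA L U) x := (exists_fo hadd φ).choose_spec x

/-- the named cosets -/
theorem mem_QU (θ : IdxU L U) (x : Fin θ.1.1 → U) :
    x ∈ AfS.Q (R := ZU L U) (M := UA L U) θ ↔ θ.1.2.Realize x :=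
  ⟨fun h => h.1, fun h => ⟨h, θ.2.2⟩⟩

end

end Pool.Agent.AFT
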