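import Mathlib

/-!
# A group whose multiplication is a Boolean combination of cosets is abelian-by-finite (helper31)

`wng`: let `C j` (`j < m`) be subsets of `G ^ 3` closed under `x y⁻¹ z` and suppose that the graph
`{(x, y, x y)}` is a union of classes of the equivalence relation given by the sets `C j`.  Then `G` has a
commutative subgroup of finite index.

Proof.  Let `H j` be the group of `C j`.  For a set `J` of indices let `K J` be the meet of the `H j`, `j ∈ J`,
and `K' J` the meet of `K J` with those `H j` for which `K J ∩ H j` has finite index in `K J`.  If `e` is in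
the graph, `J = {j | e ∈ C j}` and `k ∈ K' J` is such that `e k` avoids the `C j` with `K J ∩ H j` of infinite
index, then `e k` is in the class of `e`, hence in the graph.  By B. H. Neumann's lemma some `K' J` has an
image of finite index in `G ^ 2`.  Take `(u, 1, a)` in `K' J` and `(1, v, b)` in `e (K' J) e⁻¹`; again by
Neumann some `k ∈ K' J` is such that `p = e k`, `p s`, `t p`, `t p s` avoid the cosets of infinite index; all
four are in the graph, and `u v = v u` follows.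
-/

set_option autoImplicit false
set_option linter.unusedSectionVars false
set_option linter.unusedVariables false

namespace Pool.Agent.AFT

open Set Pointwise

section

variable {Γ : Type*} [Group Γ]

/-- the right stabiliser of a set -/
def rst (C : Set Γ) : Subgroup Γ where
  carrier := {h | ∀ c, c * h ∈ C ↔ c ∈ C}
  one_mem' := fun c => by rw [mul_one]
  mul_mem' := fun {a b} ha hb c => by rw [← mul_assoc, hb, ha]
  inv_mem' := fun {a} ha c => by rw [← ha (c * a⁻¹), inv_mul_cancel_right]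

theorem mem_rst {C : Set Γ} {h : Γ} : h ∈ rst C ↔ ∀ c, c * h ∈ C ↔ c ∈ C := Iff.rfl

theorem mem_rst_of {C : Set Γ} (hC : ∀ x ∈ C, ∀ y ∈ C, ∀ z ∈ C, x * y⁻¹ * z ∈ C) {c d : Γ}
    (hc : c ∈ C) (hd : d ∈ C) : c⁻¹ * d ∈ rst C := by
  intro x
  constructor
  · intro h
    have h1 := hC _ h _ hd _ hc
    have h2 : x * (c⁻¹ * d) * d⁻¹ * c = x := by group
    rwa [h2] at h1
  · intro h
    have h1 := hC _ h _ hc _ hd
    rwa [mul_assoc] at h1

/-- a subgroup is not covered by finitely many cosets of subgroups of infinite index -/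
theorem avoid_cosets {ι : Type} [Finite ι] (K : Subgroup Γ) (H : ι → Subgroup Γ) (bad : ι → Set Γ)
    (h0 : ∀ i, (H i).relIndex K = 0)
    (hbad : ∀ i, ∀ x ∈ bad i, ∀ y ∈ bad i, x⁻¹ * y ∈ H i) :
    ∃ k ∈ K, ∀ i, k ∉ bad i := by
  classical
  by_contra hcon
  have hcon' : ∀ k ∈ K, ∃ i, k ∈ bad i := by
    intro k hk
    by_contra h
    exact hcon ⟨k, hk, fun i hi => h ⟨i, hi⟩⟩
  have _ : Fintype ι := Fintype.ofFinite ι
  let g : ι → K := fun i => if h : ∃ k : K, (k : Γ) ∈ bad i then h.choose else 1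
  have hcov : ⋃ i ∈ (Finset.univ : Finset ι),
      g i • (((H i).subgroupOf K : Subgroup K) : Set K) = Set.univ := by
    rw [Set.eq_univ_iff_forall]
    intro k
    obtain ⟨i, hi⟩ := hcon' k k.2
    refine mem_iUnion₂.2 ⟨i, Finset.mem_univ _, ?_⟩
    rw [mem_leftCoset_iff]
    have hex : ∃ k : K, (k : Γ) ∈ bad i := ⟨k, hi⟩
    have hg : g i = hex.choose := dif_pos hex
    rw [hg]
    exact hbad i _ hex.choose_spec _ hi
  obtain ⟨i, -, hi⟩ := Subgroup.exists_finiteIndex_of_leftCoset_cover hcov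
  exact hi.index_ne_zero (h0 i)

/-- the image of a subgroup of finite relative index -/
theorem relIndex_map_ne_zero {Δ : Type*} [Group Δ] (f : Γ →* Δ) {K' K : Subgroup Γ}
    (h : K'.relIndex K ≠ 0) : (K'.map f).relIndex (K.map f) ≠ 0 := by
  have h1 : ((K'.subgroupOf K).map (f.subgroupMap K)).index ∣ (K'.subgroupOf K).index :=
    Subgroup.index_map_dvd _ (f.subgroupMap_surjective K)
  have h2 : (K'.subgroupOf K).map (f.subgroupMap K) ≤ (K'.map f).subgroupOf (K.map f) := by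
    rintro _ ⟨x, hx, rfl⟩
    exact ⟨x.1, hx, rfl⟩
  intro h0
  have h3 := (Subgroup.index_dvd_of_le h2).trans h1
  have h4 : ((K'.map f).subgroupOf (K.map f)).index = 0 := h0
  rw [h4, zero_dvd_iff] at h3
  exact h h3

theorem index_comap_ne_zero' {Δ : Type*} [Group Δ] (f : Γ →* Δ) {K : Subgroup Δ}
    (h : K.index ≠ 0) : (K.comap f).index ≠ 0 := by
  rw [Subgroup.index_comap]
  exact fun h0 => h (Subgroup.index_eq_zero_of_relIndex_eq_zero h0)

end

section

variable {P : Type} [Group P] {m : ℕ} (C : Fin m → Set P)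

/-- the meet of the groups of the sets with index in `J` -/
def kJ (J : Set (Fin m)) : Subgroup P := ⨅ j : J, rst (C j)

/-- the indices which are not in `J`, of infinite index -/
def infJ (J : Set (Fin m)) : Set (Fin m) := {j | j ∉ J ∧ (rst (C j)).relIndex (kJ C J) = 0}

/-- the meet of `kJ` with the groups of finite index in it -/
def kJ' (J : Set (Fin m)) : Subgroup P :=
  kJ C J ⊓ ⨅ j : {j : Fin m // (rst (C j)).relIndex (kJ C J) ≠ 0}, rst (C j)

theorem kJ'_le (J : Set (Fin m)) : kJ' C J ≤ kJ C J := inf_le_left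

theorem kJ'_relIndex (J : Set (Fin m)) : (kJ' C J).relIndex (kJ C J) ≠ 0 := by
  unfold kJ'
  rw [Subgroup.inf_relIndex_left]
  exact Subgroup.relIndex_iInf_ne_zero fun j => j.2

theorem infJ_relIndex {J : Set (Fin m)} {j : Fin m} (hj : j ∈ infJ C J) :
    (rst (C j)).relIndex (kJ' C J) = 0 := by
  by_contra h
  exact Subgroup.relIndex_ne_zero_trans h (kJ'_relIndex C J) hj.2

theorem same_cell {e k : P} (hk : k ∈ kJ' C {j | e ∈ C j})
    (ha : ∀ j ∈ infJ C {j | e ∈ C j}, e * k ∉ C j) : ∀ j, e * k ∈ C j ↔ e ∈ C j := by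
  intro j
  by_cases h1 : e ∈ C j
  · have h2 : k ∈ rst (C j) := (iInf_le (fun j : {j | e ∈ C j} => rst (C j)) ⟨j, h1⟩ :
      kJ C {j | e ∈ C j} ≤ _) hk.1
    exact h2 e
  · by_cases h3 : (rst (C j)).relIndex (kJ C {j | e ∈ C j}) = 0
    · exact ⟨fun h => absurd h (ha j ⟨h1, h3⟩), fun h => absurd h h1⟩
    · have h2 : k ∈ rst (C j) := (iInf_le (fun j : {j' : Fin m //
          (rst (C j')).relIndex (kJ C {j | e ∈ C j}) ≠ 0} => rst (C j)) ⟨j, h3⟩ : _ ≤ _) hk.2
      exact h2 e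

/-- some realised `kJ'` has an image of finite index -/
theorem exists_cell {Q : Type} [Group Q] (f : P →* Q) (D : Set P)
    (hC : ∀ j, ∀ x ∈ C j, ∀ y ∈ C j, ∀ z ∈ C j, x * y⁻¹ * z ∈ C j)
    (hf : ∀ q : Q, ∃ e ∈ D, f e = q) :
    ∃ e ∈ D, ((kJ' C {j | e ∈ C j}).map f).index ≠ 0 := by
  classical
  by_contra hcon
  have hcon' : ∀ e ∈ D, ((kJ C {j | e ∈ C j}).map f).index = 0 := by
    intro e he
    by_contra h
    refine hcon ⟨e, he, ?_⟩
    rw [← Subgroup.relIndex_top_right] at h ⊢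
    exact Subgroup.relIndex_ne_zero_trans (relIndex_map_ne_zero f (kJ'_relIndex C _)) h
  obtain ⟨q, -, hq⟩ := avoid_cosets (⊤ : Subgroup Q)
    (fun J : {J : Set (Fin m) // ∃ e ∈ D, {j | e ∈ C j} = J} => (kJ C J.1).map f)
    (fun J => {q | ∃ e ∈ D, {j | e ∈ C j} = J.1 ∧ f e = q})
    (fun J => by
      obtain ⟨J, e, he, rfl⟩ := J
      rw [Subgroup.relIndex_top_right]
      exact hcon' e he)
    (by
      rintro ⟨J, hJ⟩ _ ⟨e, he, h1, rfl⟩ _ ⟨e', he', h2, rfl⟩
      refine ⟨e⁻¹ * e', ?_, by rw [map_mul, map_inv]⟩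
      refine Subgroup.mem_iInf.2 fun j => ?_
      have h3 : (j : Fin m) ∈ {j | e ∈ C j} := by
        rw [h1]
        exact j.2
      have h5 : (j : Fin m) ∈ {j | e' ∈ C j} := by
        rw [h2]
        exact j.2
      exact mem_rst_of (hC j) h3 h5)
  obtain ⟨e, he, h⟩ := hf q
  exact hq ⟨{j | e ∈ C j}, e, he, rfl⟩ ⟨e, he, rfl, h⟩

/-- the four translates -/
theorem avoid_four (hC : ∀ j, ∀ x ∈ C j, ∀ y ∈ C j, ∀ z ∈ C j, x * y⁻¹ * z ∈ C j)
    {e s t : P} (hs : s ∈ kJ' C {j | e ∈ C j}) (ht : t ∈ kJ' C {j | e ∈ C j}) :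
    ∃ k ∈ kJ' C {j | e ∈ C j}, (∀ j, e * k ∈ C j ↔ e ∈ C j) ∧
      (∀ j, e * (k * s) ∈ C j ↔ e ∈ C j) ∧ (∀ j, e * (t * k) ∈ C j ↔ e ∈ C j) ∧
      ∀ j, e * (t * k * s) ∈ C j ↔ e ∈ C j := by
  classical
  let K' := kJ' C {j | e ∈ C j}
  let I := {j // j ∈ infJ C {j | e ∈ C j}}
  let a : Bool → P := fun b => if b then t else 1
  let c : Bool → P := fun b => if b then s else 1
  have ha : ∀ b, a b ∈ K' := by
    intro b
    rcases b with _ | _
    · exact K'.one_mem
    · exact ht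
  have hc : ∀ b, c b ∈ K' := by
    intro b
    rcases b with _ | _
    · exact K'.one_mem
    · exact hs
  obtain ⟨k, hk, h⟩ := avoid_cosets K'
    (fun i : I × Bool × Bool => MulAut.conj (c i.2.2) • rst (C i.1.1))
    (fun i => {k | e * (a i.2.1 * k * c i.2.2) ∈ C i.1.1})
    (fun i => by
      have h1 := Subgroup.relIndex_pointwise_smul (MulAut.conj (c i.2.2)) (rst (C i.1.1)) K'
      rw [Subgroup.conj_smul_eq_self_of_mem (hc i.2.2)] at h1
      rw [h1]
      exact infJ_relIndex C i.1.2)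
    (by
      rintro ⟨j, b1, b2⟩ x hx y hy
      have h1 := mem_rst_of (hC j.1) hx hy
      rw [Subgroup.mem_pointwise_smul_iff_inv_smul_mem]
      have h2 : (MulAut.conj (c b2))⁻¹ • (x⁻¹ * y) =
          (e * (a b1 * x * c b2))⁻¹ * (e * (a b1 * y * c b2)) := by
        rw [← map_inv, MulAut.smul_def, MulAut.conj_apply]
        group
      rw [h2]
      exact h1)
  have h4 : ∀ b1 b2 : Bool, ∀ j, e * (a b1 * k * c b2) ∈ C j ↔ e ∈ C j := by
    intro b1 b2
    refine same_cell C (K'.mul_mem (K'.mul_mem (ha b1) hk) (hc b2)) fun j hj hj' => ?_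
    exact h (⟨j, hj⟩, b1, b2) hj'
  refine ⟨k, hk, ?_, ?_, ?_, ?_⟩
  · have h5 := h4 false false
    have h6 : a false * k * c false = k := by
      show 1 * k * 1 = k
      rw [one_mul, mul_one]
    rwa [h6] at h5
  · have h5 := h4 false true
    have h6 : a false * k * c true = k * s := by
      show 1 * k * s = k * s
      rw [one_mul]
    rwa [h6] at h5
  · have h5 := h4 true false
    have h6 : a true * k * c false = t * k := by
      show t * k * 1 = t * k
      rw [mul_one]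
    rwa [h6] at h5
  · exact h4 true true

end

/-- **A group whose multiplication is a Boolean combination of cosets has a commutative subgroup of
finite index.** -/
theorem wng {G : Type} [Group G] {m : ℕ} (C : Fin m → Set (Fin 3 → G))
    (hC : ∀ j, ∀ x ∈ C j, ∀ y ∈ C j, ∀ z ∈ C j, x * y⁻¹ * z ∈ C j)
    (hD : ∀ x y : Fin 3 → G, (∀ j, x ∈ C j ↔ y ∈ C j) → (x 0 * x 1 = x 2 ↔ y 0 * y 1 = y 2)) :
    ∃ A : Subgroup G, A.FiniteIndex ∧ ∀ x ∈ A, ∀ y ∈ A, x * y = y * x := by
  let f : (Fin 3 → G) →* G × G :=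
    { toFun := fun v => (v 0, v 1), map_one' := rfl, map_mul' := fun _ _ => rfl }
  obtain ⟨e, he, hi⟩ := exists_cell C f {v | v 0 * v 1 = v 2} hC
    (fun q => ⟨![q.1, q.2, q.1 * q.2], rfl, rfl⟩)
  let K := (kJ' C {j | e ∈ C j}).map f
  have hK : K.FiniteIndex := ⟨hi⟩
  let U : Subgroup G := K.comap (MonoidHom.inl G G)
  let V : Subgroup G := (K.comap (MonoidHom.inr G G)).comap (MulAut.conj (e 1)⁻¹).toMonoidHom
  have hU : U.FiniteIndex := ⟨index_comap_ne_zero' _ hi⟩
  have hV : V.FiniteIndex := ⟨index_comap_ne_zero' _ (index_comap_ne_zero' _ hi)⟩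
  refine ⟨U ⊓ V, inferInstance, ?_⟩
  intro u hu v hv
  obtain ⟨s, hs, hs1⟩ := hu.1
  obtain ⟨t, ht, ht1⟩ := hv.2
  have hs0 : s 0 = u := congrArg Prod.fst hs1
  have hs2 : s 1 = 1 := congrArg Prod.snd hs1
  have ht0 : t 0 = 1 := congrArg Prod.fst ht1
  have ht2 : t 1 = (e 1)⁻¹ * v * (e 1)⁻¹⁻¹ := congrArg Prod.snd ht1
  obtain ⟨k, hk, h1, h2, h3, h4⟩ := avoid_four C hC hs ht
  have e1 : (e 0 * k 0) * (e 1 * k 1) = e 2 * k 2 := (hD _ _ h1).2 he
  have e2 : (e 0 * (k 0 * s 0)) * (e 1 * (k 1 * s 1)) = e 2 * (k 2 * s 2) := (hD _ _ h2).2 he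
  have e3 : (e 0 * (t 0 * k 0)) * (e 1 * (t 1 * k 1)) = e 2 * (t 2 * k 2) := (hD _ _ h3).2 he
  have e4 : (e 0 * (t 0 * k 0 * s 0)) * (e 1 * (t 1 * k 1 * s 1)) = e 2 * (t 2 * k 2 * s 2) :=
    (hD _ _ h4).2 he
  rw [hs0, hs2] at e2
  rw [ht0, ht2] at e3
  rw [ht0, ht2, hs0, hs2] at e4
  -- the element `e k`
  set x := e 0 * k 0 with hx
  set y := e 1 * k 1 with hy
  set z := e 2 * k 2 with hz
  have f2 : u * y = y * s 2 := by
    have h5 : x * u * y = x * y * s 2 := by
      calc x * u * y = (e 0 * (k 0 * u)) * (e 1 * (k 1 * 1)) := by rw [hx, hy]; group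
        _ = e 2 * (k 2 * s 2) := e2
        _ = z * s 2 := by rw [hz]; group
        _ = x * y * s 2 := by rw [e1]
    have h6 : x * (u * y) = x * (y * s 2) :=
      (mul_assoc x u y).symm.trans (h5.trans (mul_assoc x y (s 2)))
    exact mul_left_cancel h6
  have f3 : x * v * y = e 2 * (t 2 * k 2) := by
    rw [← e3, hx, hy]
    group
  have f4 : x * u * v * y = e 2 * (t 2 * k 2) * s 2 := by
    have h5 : e 2 * (t 2 * k 2) * s 2 = e 2 * (t 2 * k 2 * s 2) := by group
    rw [h5, ← e4, hx, hy]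
    group
  have f5 : x * (u * v * y) = x * (v * u * y) := by
    calc x * (u * v * y) = x * u * v * y := by group
      _ = x * v * y * s 2 := by rw [f4, f3]
      _ = x * v * (y * s 2) := by group
      _ = x * v * (u * y) := by rw [f2]
      _ = x * (v * u * y) := by group
  exact mul_right_cancel (mul_left_cancel f5)

end Pool.Agent.AFT
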