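import Pool.Agent.AFT.StWN
import Pool.Agent.AFT.WNG
import Pool.Agent.AFT.GRN

/-!
# Weakly normal groups are affine over a group with a definable commutative subgroup of finite index (helper31)

`isAffineG_of_wn : IsWN L M → IsAffineG L M`.  By `wng` there is a commutative subgroup `A₀` of finite index.
Among the finite sets `F` of elements which commute with `A₀` choose one with a centraliser of maximal index
(the indices are bounded by the index of `A₀`).  Then `C(F) = C(C(A₀))` is commutative and definable over `F`.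
-/

set_option autoImplicit false
set_option linter.unusedSectionVars false
set_option linter.unusedVariables false

namespace Pool.Agent.AFT

open Set FirstOrder FirstOrder.Language

/-- some finite set has a commutative centraliser of finite index -/
theorem exists_centralizer {G : Type} [Group G] (A₀ : Subgroup G) (hi : A₀.FiniteIndex)
    (hc : ∀ x ∈ A₀, ∀ y ∈ A₀, x * y = y * x) :
    ∃ F : Set G, F.Finite ∧ (Subgroup.centralizer F).FiniteIndex ∧
      ∀ x ∈ Subgroup.centralizer F, ∀ y ∈ Subgroup.centralizer F, x * y = y * x := by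
  classical
  let Z : Set G := {c | ∀ a ∈ A₀, c * a = a * c}
  have hle : ∀ F : Set G, F ⊆ Z → A₀ ≤ Subgroup.centralizer F := fun F hF a ha =>
    Subgroup.mem_centralizer_iff.2 fun f hf => hF hf a ha
  have hne : ∀ F : Set G, F ⊆ Z → (Subgroup.centralizer F).index ≠ 0 := fun F hF h0 =>
    hi.index_ne_zero (zero_dvd_iff.1 (h0 ▸ Subgroup.index_dvd_of_le (hle F hF)))
  let S : Set ℕ := {n | ∃ F : Set G, F.Finite ∧ F ⊆ Z ∧ (Subgroup.centralizer F).index = n}
  have hS1 : S.Nonempty := ⟨_, ∅, finite_empty, empty_subset _, rfl⟩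
  have hS2 : BddAbove S := by
    refine ⟨A₀.index, ?_⟩
    rintro _ ⟨F, -, hF, rfl⟩
    exact Nat.le_of_dvd (Nat.pos_of_ne_zero hi.index_ne_zero) (Subgroup.index_dvd_of_le (hle F hF))
  obtain ⟨F, hF1, hF2, hF3⟩ := Nat.sSup_mem hS1 hS2
  have hkey : ∀ c ∈ Z, ∀ x ∈ Subgroup.centralizer F, c * x = x * c := by
    intro c hcZ x hx
    have h1 : insert c F ⊆ Z := insert_subset hcZ hF2
    have h2 : (Subgroup.centralizer (insert c F)).index ≤ (Subgroup.centralizer F).index := by
      rw [hF3]
      exact le_csSup hS2 ⟨_, hF1.insert c, h1, rfl⟩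
    have h3 : Subgroup.centralizer (insert c F) ≤ Subgroup.centralizer F := fun y hy =>
      Subgroup.mem_centralizer_iff.2 fun f hf =>
        Subgroup.mem_centralizer_iff.1 hy f (mem_insert_of_mem c hf)
    have h4 := Subgroup.relIndex_mul_index h3
    have h5 : (Subgroup.centralizer (insert c F)).relIndex (Subgroup.centralizer F) = 1 := by
      have h6 := hne _ h1
      have h7 := hne _ hF2
      rw [← h4] at h2 h6
      have h8 : (Subgroup.centralizer (insert c F)).relIndex (Subgroup.centralizer F) ≠ 0 :=
        fun h => h6 (by rw [h, zero_mul])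
      have h9 : (Subgroup.centralizer (insert c F)).relIndex (Subgroup.centralizer F) ≤ 1 := by
        by_contra h
        have h10 : 2 * (Subgroup.centralizer F).index ≤
            (Subgroup.centralizer (insert c F)).relIndex (Subgroup.centralizer F) *
              (Subgroup.centralizer F).index := Nat.mul_le_mul_right _ (by omega)
        omega
      omega
    have h6 := Subgroup.relIndex_eq_one.1 h5 hx
    exact Subgroup.mem_centralizer_iff.1 h6 c (mem_insert c F)
  refine ⟨F, hF1, ⟨hne F hF2⟩, fun x hx y hy => ?_⟩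
  refine hkey x (fun a ha => ?_) y hy
  exact (hkey a (fun b hb => hc a ha b hb) x hx).symm

section

variable {L : FirstOrder.Language.{0, 0}} {M : Type} [L.Structure M] {A : Set M}

/-- Boolean combinations of definable cosets are definable -/
theorem definable_of_bcG [Group M] {n : ℕ} {D : Set (Fin n → M)}
    (h : IsBoolCosetsG L A D) : A.Definable L D := by
  obtain ⟨m, C, hC, hD⟩ := h
  have h1 : D = ⋃ J : {J : Set (Fin m) // ∃ x ∈ D, {j | x ∈ C j} = J},
      ⋂ j : Fin m, {x | x ∈ C j ↔ j ∈ J.1} := by
    ext x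
    rw [mem_iUnion]
    constructor
    · intro hx
      exact ⟨⟨{j | x ∈ C j}, x, hx, rfl⟩, mem_iInter.2 fun j => Iff.rfl⟩
    · rintro ⟨⟨J, y, hy, rfl⟩, h⟩
      exact (hD x y fun j => mem_iInter.1 h j).2 hy
  rw [h1]
  refine definable_iUnion_of_finite fun J => definable_iInter_of_finite fun j => ?_
  by_cases hj : j ∈ J.1
  · have h2 : {x | x ∈ C j ↔ j ∈ J.1} = C j := by
      ext x
      exact ⟨fun h => h.2 hj, fun h => ⟨fun _ => hj, fun _ => h⟩⟩
    rw [h2]
    exact (hC j).1
  · have h2 : {x | x ∈ C j ↔ j ∈ J.1} = (C j)ᶜ := by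
      ext x
      exact ⟨fun h h' => hj (h.1 h'), fun h => ⟨fun h' => absurd h' h, fun h' => absurd h' hj⟩⟩
    rw [h2]
    exact (hC j).1.compl

theorem bcG_mono [Group M] {A' : Set M} (hAA : A ⊆ A') {n : ℕ} {D : Set (Fin n → M)}
    (h : IsBoolCosetsG L A D) : IsBoolCosetsG L A' D := by
  obtain ⟨m, C, hC, hD⟩ := h
  exact ⟨m, C, fun j => ⟨(hC j).1.mono hAA, (hC j).2⟩, hD⟩

/-- centralisers of finite sets are definable -/
theorem definable_centralizer [Group M] (h : A.Definable L {v : Fin 3 → M | v 0 * v 1 = v 2})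
    {F : Set M} (hF : F.Finite) (hFA : F ⊆ A) :
    A.Definable₁ L (Subgroup.centralizer F : Set M) := by
  have hfin : Finite F := hF
  have hcon : ∀ {α : Type} (a : M), a ∈ A → A.DefinableFun L (fun _ : α → M => a) :=
    fun {α} a ha => L.definableFun_const α ha
  have h1 : {x : Fin 1 → M | x 0 ∈ (Subgroup.centralizer F : Set M)} =
      ⋂ f : F, {x : Fin 1 → M | (f : M) * x 0 = x 0 * (f : M)} := by
    ext x
    rw [mem_iInter]
    constructor
    · intro hx f
      exact Subgroup.mem_centralizer_iff.1 hx f f.2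
    · intro hx
      exact Subgroup.mem_centralizer_iff.2 fun f hf => hx ⟨f, hf⟩
  show A.Definable L {x : Fin 1 → M | x 0 ∈ (Subgroup.centralizer F : Set M)}
  rw [h1]
  refine definable_iInter_of_finite fun f => DefinableFun.ofPred_eq ?_ ?_
  · exact definableFun_mul h (hcon _ (hFA f.2)) (DefinableFun.proj L)
  · exact definableFun_mul h (DefinableFun.proj L) (hcon _ (hFA f.2))

end

/-- **A weakly normal group is affine over a group with a definable commutative subgroup of finite
index.** -/
theorem isAffineG_of_wn (L : FirstOrder.Language.{0, 0}) (M : Type) [L.Structure M]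
    (h : IsWN L M) : IsAffineG L M := by
  obtain ⟨A, _, hA, hmul, hR, hF⟩ := h
  obtain ⟨m, C, hC, hD⟩ := id hmul
  obtain ⟨A₀, h1, h2⟩ := wng C (fun j => (hC j).2) hD
  obtain ⟨F, hF1, hF2, hF3⟩ := exists_centralizer A₀ h1 h2
  have hAA : A ⊆ A ∪ F := subset_union_left
  have hg := (definable_of_bcG hmul).mono hAA
  exact ⟨A ∪ F, _, hA.union hF1, hg,
    ⟨Subgroup.centralizer F, hF2, hF3, definable_centralizer hg hF1 subset_union_right⟩,
    fun n R => bcG_mono hAA (hR n R), fun n F => bcG_mono hAA (hF n F)⟩

/-- **The theorem for weakly normal groups follows from the theorem for affine structures with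
parameters.** -/
theorem wn_of_par (h : St_PAR) : St_WN := fun L hL T hT =>
  h L hL T fun S hS => @aff_of_G L ℕ S (@isAffineG_of_wn L ℕ S (hT S hS))

end Pool.Agent.AFT
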